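import Pool.Agent.Ppr3.StA
import Pool.Agent.Ppr2.AvB

/-!
# Dyadic averages with marked letters

`Aw B M` = the span of the functions `z ↦ X^j (YR z)^k` with `B k ≤ j + B` and of the functions
divisible by `X^M`. `YR (cons false z) = - YR (cons true z)`, `YR (cons true z)^2 = 1 + 4 X YR z`
(private `AvB_neg`, `AvB_sq` in `Ppr2/AvB.lean`, copy them).
`aw_avg`: linear in `F`, so generators. With `k' = k` (`d = false`) or `k' = k + 1` (`d = true`):
the sum over the two letters of `X^j YR(cons c z)^(k')` is `0` for odd `k'`; for `k' = 2 i` it is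
`∑_l 2 binom(i,l) 4^l X^(j+l) (YR z)^l`, `l ≤ i`, and `(2B+1) l ≤ j + l + (2B+1)`: clear for
`l ≤ 1`; for `l ≥ 2`: `2 B (l - 1) ≤ B (2 i - 2) ≤ B (k - 1) ≤ j` because `2 i ≤ k + 1`.
`aw_kill`: the same sum with `d = false` for `k = 2 i`: the term `l = 0` is constant, the terms
with `l ≥ 1` have the exponent `j + l ≥ B (k - 1) + 1 ≥ B + 1 ≥ M` (`k ≥ 2`).
-/

namespace Pool.Agent.Ppr3

open PowerSeries Pool.Agent.Ppr Pool.Agent.Ppr2

/-- the class of functions of a word -/
noncomputable def Aw (B M : ℕ) : Submodule ℝ ((ℕ → Bool) → PowerSeries ℝ) :=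
  Submodule.span ℝ ({F | ∃ j k : ℕ, B * k ≤ j + B ∧ F = fun z => X ^ j * YR z ^ k} ∪
    {F | ∀ z, X ^ M ∣ F z})

variable {B M : ℕ}

private theorem AwA_sh_cons (c : Bool) (z : ℕ → Bool) : sh (cons c z) = z := by
  funext k
  simp [sh, cons]

private theorem AwA_neg (z : ℕ → Bool) : YR (cons false z) = -YR (cons true z) := by
  have h1 : Y (cons false z) = -Y (cons true z) :=
    Y_neg (by simp [cons]) (by rw [AwA_sh_cons, AwA_sh_cons])
  unfold YR
  rw [h1, map_neg]

private theorem AwA_sq (z : ℕ → Bool) : YR (cons true z) ^ 2 = 1 + 4 * X * YR z := by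
  rw [YR_sq, AwA_sh_cons]

private theorem AwA_even (j i : ℕ) (z : ℕ → Bool) :
    X ^ j * YR (cons true z) ^ (i + i) + X ^ j * YR (cons false z) ^ (i + i) =
      ∑ l ∈ Finset.range (i + 1), (2 * 4 ^ l * (i.choose l : ℝ)) •
        (X ^ (j + l) * YR z ^ l : PowerSeries ℝ) := by
  have h2 : YR (cons false z) ^ (i + i) = YR (cons true z) ^ (i + i) := by
    rw [AwA_neg, Even.neg_pow ⟨i, rfl⟩]
  have h3 : YR (cons true z) ^ (i + i) = (4 * X * YR z + 1) ^ i := by
    rw [← two_mul, pow_mul, AwA_sq, add_comm]
  rw [h2, h3, add_pow, ← two_mul, Finset.mul_sum, Finset.mul_sum]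
  refine Finset.sum_congr rfl fun l _ => ?_
  rw [PowerSeries.smul_eq_C_mul, map_mul, map_mul, map_pow, map_natCast,
    map_ofNat, map_ofNat, one_pow]
  ring

private theorem AwA_odd (j k : ℕ) (hk : Odd k) (z : ℕ → Bool) :
    X ^ j * YR (cons true z) ^ k + X ^ j * YR (cons false z) ^ k = 0 := by
  rw [AwA_neg, Odd.neg_pow hk]
  ring

private theorem AwA_gen {j k k' : ℕ} (h : B * k ≤ j + B) (hk : k' ≤ k + 1) :
    (fun z => X ^ j * YR (cons true z) ^ k' + X ^ j * YR (cons false z) ^ k') ∈
      Aw (2 * B + 1) M := by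
  rcases Nat.even_or_odd k' with hk' | hk'
  · obtain ⟨i, rfl⟩ := hk'
    have h1 : (fun z => X ^ j * YR (cons true z) ^ (i + i) +
        X ^ j * YR (cons false z) ^ (i + i)) =
        ∑ l ∈ Finset.range (i + 1), (2 * 4 ^ l * (i.choose l : ℝ)) •
          (fun z : ℕ → Bool => (X ^ (j + l) * YR z ^ l : PowerSeries ℝ)) := by
      funext z
      rw [Finset.sum_apply, AwA_even]
      rfl
    rw [h1]
    refine Submodule.sum_mem _ fun l hl => Submodule.smul_mem _ _ (Submodule.subset_span ?_)
    left
    refine ⟨j + l, l, ?_, rfl⟩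
    have h4 : l ≤ i := Nat.lt_succ_iff.1 (Finset.mem_range.1 hl)
    rcases Nat.eq_zero_or_pos l with rfl | hl0
    · simp
    · obtain ⟨l', rfl⟩ : ∃ l', l = l' + 1 := ⟨l - 1, by omega⟩
      obtain ⟨k'', rfl⟩ : ∃ k'', k = k'' + 1 := ⟨k - 1, by omega⟩
      have h5 : B * (2 * l') ≤ B * k'' := Nat.mul_le_mul_left _ (by omega)
      have h6 : B * k'' ≤ j := by
        have : B * (k'' + 1) = B * k'' + B := by ring
        omega
      have h7 : (2 * B + 1) * (l' + 1) = B * (2 * l') + l' + (2 * B + 1) := by ring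
      omega
  · have h1 : (fun z => X ^ j * YR (cons true z) ^ k' + X ^ j * YR (cons false z) ^ k') = 0 := by
      funext z
      rw [AwA_odd j k' hk' z, Pi.zero_apply]
    rw [h1]
    exact Submodule.zero_mem _

private noncomputable def AwA_T (d : Bool) :
    ((ℕ → Bool) → PowerSeries ℝ) →ₗ[ℝ] ((ℕ → Bool) → PowerSeries ℝ) where
  toFun F := fun z => F (cons true z) * (if d then YR (cons true z) else 1) +
    F (cons false z) * (if d then YR (cons false z) else 1)
  map_add' F G := by
    funext z
    simp only [Pi.add_apply]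
    ring
  map_smul' c F := by
    funext z
    simp only [Pi.smul_apply, RingHom.id_apply, smul_add, smul_mul_assoc]

theorem aw_of_av : Av 1 M ≤ Aw 1 M := by
  unfold Av Aw
  refine Submodule.span_mono ?_
  rintro F (⟨j, k, hjk, rfl⟩ | hF)
  · exact Or.inl ⟨j, k, by omega, rfl⟩
  · exact Or.inr hF

theorem aw_avg {F : (ℕ → Bool) → PowerSeries ℝ} (hF : F ∈ Aw B M) (d : Bool) :
    (fun z => F (cons true z) * (if d then YR (cons true z) else 1) +
      F (cons false z) * (if d then YR (cons false z) else 1)) ∈ Aw (2 * B + 1) M := by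
  have h1 : Aw B M ≤ (Aw (2 * B + 1) M).comap (AwA_T d) := by
    conv_lhs => unfold Aw
    rw [Submodule.span_le]
    rintro G (⟨j, k, hjk, rfl⟩ | hG)
    · change (fun z => X ^ j * YR (cons true z) ^ k * (if d then YR (cons true z) else 1) +
        X ^ j * YR (cons false z) ^ k * (if d then YR (cons false z) else 1)) ∈
          Aw (2 * B + 1) M
      cases d with
      | false =>
        have h2 : (fun z => X ^ j * YR (cons true z) ^ k *
            (if (false : Bool) = true then YR (cons true z) else 1) +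
            X ^ j * YR (cons false z) ^ k *
              (if (false : Bool) = true then YR (cons false z) else 1)) =
            fun z => X ^ j * YR (cons true z) ^ k + X ^ j * YR (cons false z) ^ k := by
          funext z
          simp
        rw [h2]
        exact AwA_gen hjk (Nat.le_succ k)
      | true =>
        have h2 : (fun z => X ^ j * YR (cons true z) ^ k *
            (if (true : Bool) = true then YR (cons true z) else 1) +
            X ^ j * YR (cons false z) ^ k *
              (if (true : Bool) = true then YR (cons false z) else 1)) =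
            fun z => X ^ j * YR (cons true z) ^ (k + 1) +
              X ^ j * YR (cons false z) ^ (k + 1) := by
          funext z
          rw [if_pos rfl, if_pos rfl, mul_assoc, mul_assoc, ← pow_succ, ← pow_succ]
        rw [h2]
        exact AwA_gen hjk le_rfl
    · refine Submodule.subset_span (Or.inr fun z => ?_)
      exact dvd_add (Dvd.dvd.mul_right (hG _) _) (Dvd.dvd.mul_right (hG _) _)
  exact h1 hF

theorem aw_kill {F : (ℕ → Bool) → PowerSeries ℝ} (hF : F ∈ Aw B M) (hM : M ≤ B + 1) :
    ∃ C : PowerSeries ℝ, ∀ z, X ^ M ∣ F (cons true z) + F (cons false z) - C := by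
  unfold Aw at hF
  induction hF using Submodule.span_induction with
  | mem G hG =>
    rcases hG with ⟨j, k, hjk, rfl⟩ | hG
    · rcases Nat.even_or_odd k with hk | hk
      · obtain ⟨i, rfl⟩ := hk
        refine ⟨(2 * 4 ^ 0 * (i.choose 0 : ℝ)) • (X ^ j : PowerSeries ℝ), fun z => ?_⟩
        rw [AwA_even, Finset.sum_range_succ', add_zero, pow_zero (YR z), mul_one,
          add_sub_cancel_right]
        refine Finset.dvd_sum fun l hl => ?_
        have h4 : l < i := Finset.mem_range.1 hl
        obtain ⟨i', rfl⟩ : ∃ i', i = i' + 1 := ⟨i - 1, by omega⟩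
        have h5 : B * (i' + 1 + (i' + 1)) = B * (2 * i') + B + B := by ring
        have h6 : M ≤ j + (l + 1) := by omega
        rw [PowerSeries.smul_eq_C_mul]
        exact Dvd.dvd.mul_left (Dvd.dvd.mul_right (pow_dvd_pow X h6) _) _
      · refine ⟨0, fun z => ?_⟩
        have h1 : (fun z : ℕ → Bool => X ^ j * YR z ^ k) (cons true z) +
            (fun z : ℕ → Bool => X ^ j * YR z ^ k) (cons false z) - 0 = 0 := by
          rw [sub_zero]
          exact AwA_odd j k hk z
        rw [h1]
        exact dvd_zero _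
    · exact ⟨0, fun z => by
        rw [sub_zero]
        exact dvd_add (hG _) (hG _)⟩
  | zero => exact ⟨0, fun z => by simp⟩
  | add G H _ _ hG hH =>
    obtain ⟨C, hC⟩ := hG
    obtain ⟨C', hC'⟩ := hH
    refine ⟨C + C', fun z => ?_⟩
    have h1 : (G + H) (cons true z) + (G + H) (cons false z) - (C + C') =
        (G (cons true z) + G (cons false z) - C) + (H (cons true z) + H (cons false z) - C') := by
      simp only [Pi.add_apply]
      ring
    rw [h1]
    exact dvd_add (hC z) (hC' z)
  | smul c G _ hG =>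
    obtain ⟨C, hC⟩ := hG
    refine ⟨PowerSeries.C c * C, fun z => ?_⟩
    have h1 : (c • G) (cons true z) + (c • G) (cons false z) - PowerSeries.C c * C =
        PowerSeries.C c * (G (cons true z) + G (cons false z) - C) := by
      rw [Pi.smul_apply, Pi.smul_apply, PowerSeries.smul_eq_C_mul, PowerSeries.smul_eq_C_mul]
      ring
    rw [h1]
    exact Dvd.dvd.mul_left (hC z) _

end Pool.Agent.Ppr3
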