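import Pool.Agent.Ppr3.AwA

/-!
# Averages with an unmarked letter

`prod_avg`: `∑_ξ ∏_{h<n} (if d h then YR (sh^[h] (appF ξ u)) else 1)` does not depend on `u`:
induction on `n`, split off the first letter (`Fin.consEquiv`, `appF_cons`; `sh (cons c y) = y`):
if `d 0` then the sum over the first letter vanishes (`YR (cons false y) = - YR (cons true y)`),
otherwise it is twice the sum for `n`, `d (· + 1)`.
`aw_main`: induction on `n` for all `i`, `d`, `B`, `F`. Split off the first letter:
the sum is `∑_ξ F' (appF ξ u) ∏_{h<n} (if d (h+1) then YR (sh^[h] (appF ξ u)) else 1)`,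
`F' y = ∑_c F (cons c y) (if d 0 then YR (cons c y) else 1)`. If `i = i' + 1`: `aw_avg` and the
induction hypothesis (`M ≤ 2^(i') (2 B + 1 + 1)`). If `i = 0`: `d 0 = false`, `M ≤ B + 1`,
`aw_kill` gives `F' y ≡ C`, and `prod_avg`.
-/

namespace Pool.Agent.Ppr3

open PowerSeries Pool.Agent.Ppr Pool.Agent.Ppr2

variable {M : ℕ}

private theorem AwB_sh_cons (c : Bool) (z : ℕ → Bool) : sh (cons c z) = z := by
  funext k
  simp [sh, cons]

private theorem AwB_neg (z : ℕ → Bool) : YR (cons false z) = -YR (cons true z) := by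
  have h1 : Y (cons false z) = -Y (cons true z) :=
    Y_neg (by simp [cons]) (by rw [AwB_sh_cons, AwB_sh_cons])
  unfold YR
  rw [h1, map_neg]

private theorem AwB_sum {n : ℕ} (f : (Fin (n + 1) → Bool) → PowerSeries ℝ) :
    ∑ ξ : Fin (n + 1) → Bool, f ξ =
      ∑ ξ : Fin n → Bool, (f (Fin.cons true ξ) + f (Fin.cons false ξ)) := by
  rw [← (Fin.consEquiv fun _ : Fin (n + 1) => Bool).sum_comp, Fintype.sum_prod_type,
    Fintype.sum_bool, ← Finset.sum_add_distrib]
  rfl

private theorem AwB_prod {n : ℕ} (d : ℕ → Bool) (c : Bool) (y : ℕ → Bool) :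
    ∏ h ∈ Finset.range (n + 1), (if d h then YR (sh^[h] (cons c y)) else 1) =
      (if d 0 then YR (cons c y) else 1) *
        ∏ h ∈ Finset.range n, (if d (h + 1) then YR (sh^[h] y) else (1 : PowerSeries ℝ)) := by
  rw [Finset.prod_range_succ', mul_comm]
  refine congrArg₂ (· * ·) rfl (Finset.prod_congr rfl fun h _ => ?_)
  rw [Function.iterate_succ_apply, AwB_sh_cons]

private theorem AwB_step {n : ℕ} (d : ℕ → Bool) (F : (ℕ → Bool) → PowerSeries ℝ)
    (u : ℕ → Bool) :
    ∑ ξ : Fin (n + 1) → Bool, F (appF ξ u) *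
        ∏ h ∈ Finset.range (n + 1), (if d h then YR (sh^[h] (appF ξ u)) else 1) =
      ∑ ξ : Fin n → Bool, (fun z => F (cons true z) * (if d 0 then YR (cons true z) else 1) +
        F (cons false z) * (if d 0 then YR (cons false z) else 1)) (appF ξ u) *
        ∏ h ∈ Finset.range n, (if d (h + 1) then YR (sh^[h] (appF ξ u)) else 1) := by
  rw [AwB_sum]
  refine Finset.sum_congr rfl fun ξ _ => ?_
  rw [appF_cons, appF_cons, AwB_prod, AwB_prod]
  ring

theorem prod_avg (n : ℕ) : ∀ (d : ℕ → Bool) (u u' : ℕ → Bool),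
    ∑ ξ : Fin n → Bool, ∏ h ∈ Finset.range n, (if d h then YR (sh^[h] (appF ξ u)) else 1) =
    ∑ ξ : Fin n → Bool, ∏ h ∈ Finset.range n,
      (if d h then YR (sh^[h] (appF ξ u')) else (1 : PowerSeries ℝ)) := by
  induction n with
  | zero =>
    intro d u u'
    simp
  | succ n ih =>
    intro d u u'
    have h1 := AwB_step (n := n) d (fun _ => 1) u
    have h2 := AwB_step (n := n) d (fun _ => 1) u'
    simp only [one_mul] at h1 h2
    rw [h1, h2]
    cases hd : d 0 with
    | true =>
      have h3 : ∀ z : ℕ → Bool, YR (cons true z) + YR (cons false z) = 0 := by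
        intro z
        rw [AwB_neg, add_neg_cancel]
      simp only [if_true, h3, zero_mul]
    | false =>
      simp only [Bool.false_eq_true, if_false]
      rw [← Finset.mul_sum, ← Finset.mul_sum, ih (fun h => d (h + 1)) u u']

theorem aw_main (n : ℕ) : ∀ (i : ℕ) (d : ℕ → Bool) (B : ℕ) (F : (ℕ → Bool) → PowerSeries ℝ),
    F ∈ Aw B M → i < n → d i = false → M ≤ 2 ^ i * (B + 1) → ∀ u u' : ℕ → Bool,
    X ^ M ∣ ∑ ξ : Fin n → Bool,
      (F (appF ξ u) * ∏ h ∈ Finset.range n, (if d h then YR (sh^[h] (appF ξ u)) else 1) -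
        F (appF ξ u') * ∏ h ∈ Finset.range n,
          (if d h then YR (sh^[h] (appF ξ u')) else 1)) := by
  induction n with
  | zero =>
    intro i d B F _ hi
    exact absurd hi (Nat.not_lt_zero i)
  | succ n ih =>
    intro i d B F hF hi hd hM u u'
    rw [Finset.sum_sub_distrib, AwB_step, AwB_step, ← Finset.sum_sub_distrib]
    cases i with
    | succ i =>
      refine ih i (fun h => d (h + 1)) (2 * B + 1) _ (aw_avg hF (d 0)) (by omega) hd ?_ u u'
      refine hM.trans (le_of_eq ?_)
      rw [pow_succ]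
      ring
    | zero =>
      rw [pow_zero, one_mul] at hM
      obtain ⟨C, hC⟩ := aw_kill hF hM
      have h1 : ∀ z : ℕ → Bool, F (cons true z) * (if d 0 then YR (cons true z) else 1) +
          F (cons false z) * (if d 0 then YR (cons false z) else 1) =
          F (cons true z) + F (cons false z) := by
        intro z
        rw [hd]
        simp
      simp only [h1]
      have h2 : ∀ v : ℕ → Bool, X ^ M ∣ (∑ ξ : Fin n → Bool,
          (F (cons true (appF ξ v)) + F (cons false (appF ξ v))) *
            ∏ h ∈ Finset.range n, (if d (h + 1) then YR (sh^[h] (appF ξ v)) else 1)) -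
          C * ∑ ξ : Fin n → Bool,
            ∏ h ∈ Finset.range n, (if d (h + 1) then YR (sh^[h] (appF ξ v)) else 1) := by
        intro v
        rw [Finset.mul_sum, ← Finset.sum_sub_distrib]
        refine Finset.dvd_sum fun ξ _ => ?_
        rw [← sub_mul]
        exact Dvd.dvd.mul_right (hC _) _
      rw [Finset.sum_sub_distrib]
      have h3 := dvd_sub (h2 u) (h2 u')
      rw [prod_avg n (fun h => d (h + 1)) u u', sub_sub_sub_cancel_right] at h3
      exact h3

end Pool.Agent.Ppr3
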