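import Pool.Agent.Ppr3.Defs

/-!
# Coherence of the maximal words

`sl_length`: by induction. `coh`: induction on `w` for all `g`, `k`. `w = []`: clear.
`w = false :: w'`: `Op ψ w g = Op ψ w' (Tw ψ false g)`, and the hypothesis for `Tw ψ false g`,
`k - 1` follows from the words `false :: w''`. The two sums over `Sl` are
`∑ (g (Fb true (Fl ζ u)) + g (Fb false (Fl ζ u)))`.
`w = true :: w'`: let `E g = Tw ψ false g + Tw ψ true g` (that is `z ↦ 2 g (Fb true z)`). `Op` is
additive. For words `w''` of the length of `w'` with at least `k + 1` letters `false`: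
`Op ψ w'' (E g)` agrees at `u`, `u'`, by the hypothesis for `false :: w''` and `true :: w''`. So
the induction hypothesis applies to `E g`. And `Op ψ w' (E g) = Op ψ (false :: w') g +
Op ψ (true :: w') g` where the first summand agrees at `u`, `u'` (it has `k + 1` letters
`false`). Finally `∑_{ζ ∈ Sl w'} (E g) (Fl ζ u) = 2 ∑_{ζ ∈ Sl w'} g (Fb true (Fl ζ u))`.
-/

namespace Pool.Agent.Ppr3

open Pool.Agent.Ppr Pool.Agent.Ppr2

variable {m : ℕ} (ψ : (Fin m → Bool) → Bool)

theorem sl_length (w : List Bool) : (Sl w).length = 2 ^ w.count false := by
  induction w with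
  | nil => simp [Sl]
  | cons b w ih =>
    cases b with
    | false =>
      simp only [Sl, List.length_append, List.length_map, ih, List.count_cons_self]
      rw [pow_succ]
      ring
    | true =>
      have h : (true == false) = false := rfl
      simp [Sl, List.length_map, ih]

private theorem op_add_Coh (w : List Bool) : ∀ (g h : (ℕ → Bool) → ℝ) (u : ℕ → Bool),
    Op ψ w (fun z => g z + h z) u = Op ψ w g u + Op ψ w h u := by
  induction w with
  | nil =>
    intro g h u
    rfl
  | cons d w ih =>
    intro g h u
    have h1 : Tw ψ d (fun z => g z + h z) = fun z => Tw ψ d g z + Tw ψ d h z := by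
      funext z
      cases d <;> simp [Tw] <;> ring
    change Op ψ w (Tw ψ d fun z => g z + h z) u = Op ψ w (Tw ψ d g) u + Op ψ w (Tw ψ d h) u
    rw [h1]
    exact ih _ _ u

theorem coh (w : List Bool) : ∀ (g : (ℕ → Bool) → ℝ) (k : ℕ), w.count false = k →
    (∀ w' : List Bool, w'.length = w.length → k + 1 ≤ w'.count false → ∀ u u', Pr ψ u u' →
      Op ψ w' g u = Op ψ w' g u') → ∀ u u', Pr ψ u u' →
    Op ψ w g u - Op ψ w g u' = 2 ^ w.count true *
      (((Sl w).map fun ζ => g (Fl ψ ζ u)).sum - ((Sl w).map fun ζ => g (Fl ψ ζ u')).sum) := by
  induction w with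
  | nil =>
    intro g k _ _ u u' _
    simp [Op, Sl, Fl]
  | cons d w ih =>
    cases d with
    | false =>
      intro g k hk hyp u u' huu
      have hk' : w.count false + 1 = k := by
        rw [← hk, List.count_cons_self]
      have h1 := ih (Tw ψ false g) (w.count false) rfl (by
        intro w'' hl hc v v' hv
        refine hyp (false :: w'') (by simp [hl]) ?_ v v' hv
        rw [List.count_cons_self]
        omega) u u' huu
      have h2 : ∀ v : ℕ → Bool, ((Sl (false :: w)).map fun ζ => g (Fl ψ ζ v)).sum =
          ((Sl w).map fun ζ => Tw ψ false g (Fl ψ ζ v)).sum := by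
        intro v
        have h3 : (fun ζ => Tw ψ false g (Fl ψ ζ v)) =
            fun ζ => g (Fb ψ true (Fl ψ ζ v)) + g (Fb ψ false (Fl ψ ζ v)) := by
          funext ζ
          simp [Tw]
        rw [h3, List.sum_map_add]
        simp only [Sl, List.map_append, List.sum_append, List.map_map]
        rfl
      rw [h2 u, h2 u']
      have h4 : (false :: w).count true = w.count true := by
        simp
      rw [h4]
      exact h1
    | true =>
      intro g k hk hyp u u' huu
      have hk' : w.count false = k := by
        rw [← hk]
        simp
      have hE : ∀ (w'' : List Bool) (v : ℕ → Bool),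
          Op ψ w'' (fun z => 2 * g (Fb ψ true z)) v =
            Op ψ (false :: w'') g v + Op ψ (true :: w'') g v := by
        intro w'' v
        have h3 : (fun z => 2 * g (Fb ψ true z)) =
            fun z => Tw ψ false g z + Tw ψ true g z := by
          funext z
          simp [Tw]
          ring
        rw [h3, op_add_Coh]
        rfl
      have h1 := ih (fun z => 2 * g (Fb ψ true z)) k hk' (by
        intro w'' hl hc v v' hv
        rw [hE, hE]
        have h5 := hyp (false :: w'') (by simp [hl]) (by
          rw [List.count_cons_self]; omega) v v' hv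
        have h6 := hyp (true :: w'') (by simp [hl]) (by
          have : (true :: w'').count false = w''.count false := by simp
          rw [this]; exact hc) v v' hv
        rw [h5, h6]) u u' huu
      have h7 := hyp (false :: w) (by simp) (by
          rw [List.count_cons_self]; omega) u u' huu
      have h8 : ∀ v : ℕ → Bool, ((Sl w).map fun ζ => 2 * g (Fb ψ true (Fl ψ ζ v))).sum =
          2 * ((Sl (true :: w)).map fun ζ => g (Fl ψ ζ v)).sum := by
        intro v
        rw [List.sum_map_mul_left]
        simp only [Sl, List.map_map]
        rfl
      have h9 : (true :: w).count true = w.count true + 1 := by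
        rw [List.count_cons_self]
      rw [hE, hE, h8 u, h8 u'] at h1
      rw [h9, pow_succ]
      linear_combination h1 - h7

end Pool.Agent.Ppr3
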