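import Pool.Agent.Ppr3.StB
import Pool.Agent.Ppr3.Coh
import Pool.Agent.Ppr2.Cube

/-!
# The candidate

Let `α = {x : List Bool // 1 ≤ x.length ∧ x.length ≤ m}` (finite, as in `Ppr2/ResA.lean`),
`vec z : α → Bool`, `vec z x = phi ψ (x, 0) z`, and for the pair `u, u'` and the function `g` of
`NZ ψ w`: `τ f = #{ζ ∈ Sl w : vec (Fl ψ ζ u) = f} - #{ζ ∈ Sl w : vec (Fl ψ ζ u') = f}` (real
numbers; sums over the list). By `coh` (its hypothesis follows from `hmax`: a word of the same
length with more letters `false` is not `NZ`) and since `g` is a function of `vec`, `τ ≠ 0`. Its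
support has at most `2 * 2^k` elements, `k = w.count false` (`sl_length`). By `cube (k+1)` there
is a set `P ⊆ α`, `|P| ≤ k + 1`, with moment `∑_f τ f ∏_{x ∈ P} sg (f x) ≠ 0`. Let `Q` be the image
of `P` in `List Bool`. The moment is the integer
`∑_{ζ ∈ Sl w} chi ψ Q (Fl ζ u) - ∑_{ζ ∈ Sl w} chi ψ Q (Fl ζ u')`, so its absolute value is `≥ 1`,
and `coh` for `g = chi ψ Q` (`stf_chi`) gives the claim.
-/

namespace Pool.Agent.Ppr3

open Pool.Agent.Ppr Pool.Agent.Ppr2

variable {m : ℕ} (ψ : (Fin m → Bool) → Bool)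

private theorem cand_list {β : Type} [Fintype β] {γ : Type} (ind : β → β → ℝ)
    (h1 : ∀ a, ind a a = 1) (h0 : ∀ a b, a ≠ b → ind a b = 0) (v : γ → β) (G : β → ℝ)
    (l : List γ) : (l.map fun ζ => G (v ζ)).sum =
      ∑ f, (l.map fun ζ => ind (v ζ) f).sum * G f := by
  induction l with
  | nil => simp
  | cons a l ih =>
    simp only [List.map_cons, List.sum_cons, add_mul, Finset.sum_add_distrib, ih]
    congr 1
    rw [Finset.sum_eq_single (v a)]
    · rw [h1, one_mul]
    · intro f _ hf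
      rw [h0 _ _ (Ne.symm hf), zero_mul]
    · intro h
      exact absurd (Finset.mem_univ _) h

private theorem cand_int {γ : Type} (F : γ → ℤ) (l : List γ) :
    (l.map fun ζ => (F ζ : ℝ)).sum = (((l.map F).sum : ℤ) : ℝ) := by
  induction l with
  | nil => simp
  | cons a l ih =>
    simp only [List.map_cons, List.sum_cons, ih]
    push_cast
    ring

private theorem cand_zero {β : Type} {γ : Type} (ind : β → β → ℝ)
    (h0 : ∀ a b, a ≠ b → ind a b = 0) (v : γ → β) (f : β)
    (l : List γ) (h : ∀ ζ ∈ l, v ζ ≠ f) : (l.map fun ζ => ind (v ζ) f).sum = 0 := by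
  apply List.sum_eq_zero
  intro x hx
  rw [List.mem_map] at hx
  obtain ⟨ζ, hζ, rfl⟩ := hx
  exact h0 _ _ (h ζ hζ)

theorem cand {w : List Bool} (h : NZ ψ w)
    (hmax : ∀ w', NZ ψ w' → w'.length = w.length → w'.count false ≤ w.count false) :
    ∃ (Q : Finset (List Bool)) (u u' : ℕ → Bool), Pr ψ u u' ∧
      (∀ x ∈ Q, 1 ≤ x.length ∧ x.length ≤ m) ∧ Q.card ≤ w.count false + 1 ∧
      2 ^ w.count true ≤ |Op ψ w (chi ψ Q) u - Op ψ w (chi ψ Q) u'| := by
  classical
  obtain ⟨g, u, u', hg, hu, hne⟩ := h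
  have hcoh : ∀ g : (ℕ → Bool) → ℝ, Stf ψ g →
      Op ψ w g u - Op ψ w g u' = 2 ^ w.count true *
      (((Sl w).map fun ζ => g (Fl ψ ζ u)).sum - ((Sl w).map fun ζ => g (Fl ψ ζ u')).sum) := by
    intro g hg
    refine coh ψ w g (w.count false) rfl ?_ u u' hu
    intro w' hw' hc v v' hv
    by_contra hcon
    have := hmax w' ⟨g, v, v', hg, hv, hcon⟩ hw'
    omega
  let α : Type := {x : List Bool // 1 ≤ x.length ∧ x.length ≤ m}
  have hfin : Finite α := by
    have h1 : {x : List Bool | x.length ≤ m}.Finite := List.finite_length_le Bool m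
    have h2 : {x : List Bool | 1 ≤ x.length ∧ x.length ≤ m}.Finite :=
      h1.subset fun x hx => hx.2
    exact h2.to_subtype
  have _hα : Fintype α := Fintype.ofFinite α
  let vec : (ℕ → Bool) → α → Bool := fun z x => phi ψ (x.1, 0) z
  obtain ⟨ind, hi1, hi0⟩ : ∃ ind : (α → Bool) → (α → Bool) → ℝ, (∀ a, ind a a = 1) ∧
      ∀ a b, a ≠ b → ind a b = 0 :=
    ⟨fun a b => if a = b then 1 else 0, fun a => if_pos rfl, fun a b h => if_neg h⟩
  let τ : (α → Bool) → ℝ := fun f =>
    ((Sl w).map fun ζ => ind (vec (Fl ψ ζ u)) f).sum -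
      ((Sl w).map fun ζ => ind (vec (Fl ψ ζ u')) f).sum
  have hτsum : ∀ G : (α → Bool) → ℝ, ∑ f, τ f * G f =
      ((Sl w).map fun ζ => G (vec (Fl ψ ζ u))).sum -
        ((Sl w).map fun ζ => G (vec (Fl ψ ζ u'))).sum := by
    intro G
    rw [cand_list ind hi1 hi0 (fun ζ => vec (Fl ψ ζ u)) G,
      cand_list ind hi1 hi0 (fun ζ => vec (Fl ψ ζ u')) G, ← Finset.sum_sub_distrib]
    refine Finset.sum_congr rfl fun f _ => ?_
    simp only [τ, sub_mul]
  have hτne : ∃ f, τ f ≠ 0 := by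
    by_contra hc
    push Not at hc
    obtain ⟨G, hG⟩ : ∃ G : (α → Bool) → ℝ, ∀ z, g z = G (vec z) := by
      refine ⟨fun f => if hf : ∃ z, vec z = f then g hf.choose else 0, fun z => ?_⟩
      have hz : ∃ z', vec z' = vec z := ⟨z, rfl⟩
      have e : (if hf : ∃ z', vec z' = vec z then g hf.choose else 0) = g hz.choose :=
        dif_pos hz
      refine Eq.trans ?_ e.symm
      apply hg
      intro x hx1 hx2
      exact (congrFun hz.choose_spec ⟨x, hx1, hx2⟩).symm
    have h1 := hτsum G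
    simp only [hc, zero_mul, Finset.sum_const_zero] at h1
    have h2 := hcoh g hg
    simp only [hG] at h2
    rw [← h1, mul_zero] at h2
    apply hne
    linarith
  obtain ⟨P, hPc, hPm⟩ : ∃ P : Finset α, P.card ≤ w.count false + 1 ∧
      ∑ f, τ f * ∏ i ∈ P, (sg (f i) : ℝ) ≠ 0 := by
    by_contra hcon
    push Not at hcon
    have h1 : 2 ^ (w.count false + 1 + 1) ≤ (Finset.univ.filter fun v => τ v ≠ 0).card := by
      have h1' := cube (w.count false + 1) τ hτne (fun Q hQ =>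
        (Finset.sum_congr (by ext f; simp only [Finset.mem_univ]) fun _ _ => rfl).trans
          (hcon Q hQ))
      refine h1'.trans (le_of_eq (congrArg Finset.card ?_))
      ext f
      rw [Finset.mem_filter, Finset.mem_filter]
      exact ⟨fun h => ⟨@Finset.mem_univ _ (_) _, h.2⟩, fun h => ⟨@Finset.mem_univ _ (_) _, h.2⟩⟩
    have hsub : (Finset.univ.filter fun v => τ v ≠ 0) ⊆
        ((Sl w).toFinset.image fun ζ => vec (Fl ψ ζ u)) ∪
        ((Sl w).toFinset.image fun ζ => vec (Fl ψ ζ u')) := by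
      intro f hf
      rw [Finset.mem_filter] at hf
      by_contra hf'
      rw [Finset.mem_union, Finset.mem_image, Finset.mem_image, not_or] at hf'
      apply hf.2
      simp only [τ]
      rw [cand_zero ind hi0 (fun ζ => vec (Fl ψ ζ u)) f (Sl w) (fun ζ hζ he =>
          hf'.1 ⟨ζ, List.mem_toFinset.2 hζ, he⟩),
        cand_zero ind hi0 (fun ζ => vec (Fl ψ ζ u')) f (Sl w) (fun ζ hζ he =>
          hf'.2 ⟨ζ, List.mem_toFinset.2 hζ, he⟩), sub_zero]
    have hcard : (Finset.univ.filter fun v => τ v ≠ 0).card ≤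
        2 ^ w.count false + 2 ^ w.count false := by
      refine (Finset.card_le_card hsub).trans ((Finset.card_union_le _ _).trans ?_)
      have h4 : ∀ v : List Bool → (α → Bool),
          ((Sl w).toFinset.image v).card ≤ 2 ^ w.count false := by
        intro v
        refine Finset.card_image_le.trans ?_
        rw [← sl_length w]
        exact List.toFinset_card_le _
      exact Nat.add_le_add (h4 _) (h4 _)
    have h5 : 2 ^ (w.count false + 1 + 1) ≤ 2 ^ w.count false + 2 ^ w.count false :=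
      h1.trans hcard
    have h6 : 2 ^ (w.count false + 1 + 1) = 4 * 2 ^ w.count false := by ring
    have h7 : 0 < 2 ^ w.count false := by positivity
    omega
  obtain ⟨Q, hQ⟩ : ∃ Q : Finset (List Bool), Q = P.image fun x : α => x.1 := ⟨_, rfl⟩
  have hQm : ∀ x ∈ Q, 1 ≤ x.length ∧ x.length ≤ m := by
    intro x hx
    rw [hQ, Finset.mem_image] at hx
    obtain ⟨y, _, rfl⟩ := hx
    exact y.2
  have hQc : Q.card ≤ w.count false + 1 := by
    rw [hQ]
    exact Finset.card_image_le.trans hPc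
  have hchi : ∀ z, chi ψ Q z = ∏ i ∈ P, (sg (vec z i) : ℝ) := by
    intro z
    unfold chi
    rw [hQ, Finset.prod_image]
    intro x _ y _ hxy
    exact Subtype.ext hxy
  have hchiZ : ∀ z, chi ψ Q z = ((∏ x ∈ Q, sg (phi ψ (x, 0) z) : ℤ) : ℝ) := by
    intro z
    unfold chi
    push_cast
    rfl
  have hmom : ((Sl w).map fun ζ => chi ψ Q (Fl ψ ζ u)).sum -
      ((Sl w).map fun ζ => chi ψ Q (Fl ψ ζ u')).sum ≠ 0 := by
    have h1 := hτsum fun f => ∏ i ∈ P, (sg (f i) : ℝ)
    simp only [hchi]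
    rw [← h1]
    exact hPm
  refine ⟨Q, u, u', hu, hQm, hQc, ?_⟩
  rw [hcoh (chi ψ Q) (stf_chi ψ Q hQm), abs_mul, abs_of_pos (by positivity)]
  have h1 : (1 : ℝ) ≤ |((Sl w).map fun ζ => chi ψ Q (Fl ψ ζ u)).sum -
      ((Sl w).map fun ζ => chi ψ Q (Fl ψ ζ u')).sum| := by
    revert hmom
    simp only [hchiZ]
    rw [cand_int (fun ζ => ∏ x ∈ Q, sg (phi ψ (x, 0) (Fl ψ ζ u))),
      cand_int (fun ζ => ∏ x ∈ Q, sg (phi ψ (x, 0) (Fl ψ ζ u')))]
    intro hmom
    rw [← Int.cast_sub] at hmom ⊢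
    rw [← Int.cast_abs]
    have h2 : ((Sl w).map fun ζ => ∏ x ∈ Q, sg (phi ψ (x, 0) (Fl ψ ζ u))).sum -
        ((Sl w).map fun ζ => ∏ x ∈ Q, sg (phi ψ (x, 0) (Fl ψ ζ u'))).sum ≠ 0 := by
      intro h0
      rw [h0] at hmom
      exact hmom Int.cast_zero
    exact_mod_cast Int.one_le_abs h2
  calc (2 : ℝ) ^ w.count true = 2 ^ w.count true * 1 := (mul_one _).symm
    _ ≤ _ := mul_le_mul_of_nonneg_left h1 (by positivity)

end Pool.Agent.Ppr3
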