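import Pool.Agent.Ppr3.SmA
import Pool.Agent.Ppr2.AvB

/-!
# Words in the operators as averages

`op_sum`: induction on `w` for all `g`, `z`. `Op ψ (d :: w) g = Op ψ w (Tw ψ d g)` and
`Tw ψ d g y = ∑_c (if d then sg (img ψ (cons c y) 0) else 1) * g (cons c y)` (as in `cons_sum`:
`cons c y = Fb ψ b y` with `b = img ψ (cons c y) 0`). The sum over `Fin (n+1) → Bool` splits off
the first letter (`Fin.consEquiv`, `appF_cons` in `Ppr2/AvB.lean`), and
`phi ψ ([], h+1) (cons c y) = phi ψ ([], h) y`, `phi ψ ([], 0) (cons c y) = img ψ (cons c y) 0`.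
`op_del`: the two images are disjoint because the words of `Q` are not empty;
`Finset.prod_union`, `Finset.prod_image`, `Finset.prod_filter`.
-/

namespace Pool.Agent.Ppr3

open Pool.Agent.Ppr Pool.Agent.Ppr2

variable {m : ℕ} (ψ : (Fin m → Bool) → Bool)

/-- the positions of the letters `D` of a word -/
def Dpos (w : List Bool) : Finset (List Bool × ℕ) :=
  ((Finset.range w.length).filter (fun h => w.getD h false = true)).image (fun h => ([], h))

/-- the positions of the words `x ∈ Q` -/
def Qpos (Q : Finset (List Bool)) : Finset (List Bool × ℕ) := Q.image (fun x => (x, 0))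

private theorem OpDel_tw (d : Bool) (g : (ℕ → Bool) → ℝ) (y : ℕ → Bool) :
    Tw ψ d g y = ∑ c : Bool, g (cons c y) *
      (if d = true then (sg (img ψ (cons c y) 0) : ℝ) else 1) := by
  have himg : ∀ c : Bool, img ψ (cons c y) 0 = xor c (ψ fun i => y i.1) := by
    intro c
    unfold img cons
    rw [if_pos rfl]
    congr 1
    congr 1
    funext i
    rw [if_neg (by omega)]
    congr 1
    omega
  rw [Fintype.sum_bool, himg, himg]
  unfold Tw Fb
  cases d <;> cases (ψ fun i => y i.1) <;> simp [sg] <;> ring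

private theorem OpDel_phi (h : ℕ) (c : Bool) (y : ℕ → Bool) :
    phi ψ ([], h + 1) (cons c y) = phi ψ ([], h) y := by
  have h1 : sh (cons c y) = y := by
    funext k
    unfold sh cons
    rw [if_neg (Nat.succ_ne_zero k), Nat.add_sub_cancel]
  unfold phi pos
  rw [Function.iterate_succ_apply, h1]

theorem op_sum (w : List Bool) : ∀ (g : (ℕ → Bool) → ℝ) (z : ℕ → Bool),
    Op ψ w g z = ∑ ξ : Fin w.length → Bool, g (appF ξ z) *
      ∏ h ∈ Finset.range w.length,
        (if w.getD h false = true then (sg (phi ψ ([], h) (appF ξ z)) : ℝ) else 1) := by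
  induction w with
  | nil =>
    intro g z
    have h1 : ∀ ξ : Fin 0 → Bool, appF ξ z = z := by
      intro ξ
      funext k
      simp [appF]
    change g z = ∑ ξ : Fin 0 → Bool, g (appF ξ z) * ∏ h ∈ Finset.range 0, _
    rw [Fintype.sum_unique, Finset.prod_range_zero, mul_one, h1]
  | cons d w ih =>
    intro g z
    change Op ψ w (Tw ψ d g) z = _
    rw [ih]
    change _ = ∑ ξ : Fin (w.length + 1) → Bool, g (appF ξ z) *
      ∏ h ∈ Finset.range (w.length + 1),
        (if (d :: w).getD h false = true then (sg (phi ψ ([], h) (appF ξ z)) : ℝ) else 1)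
    rw [← (Fin.consEquiv (fun _ : Fin (w.length + 1) => Bool)).sum_comp,
      Fintype.sum_prod_type, Finset.sum_comm]
    refine Finset.sum_congr rfl fun ξ _ => ?_
    rw [OpDel_tw, Finset.sum_mul]
    refine Finset.sum_congr rfl fun c _ => ?_
    change _ = g (appF (Fin.cons c ξ : Fin (w.length + 1) → Bool) z) *
      ∏ h ∈ Finset.range (w.length + 1), (if (d :: w).getD h false = true then
        (sg (phi ψ ([], h) (appF (Fin.cons c ξ : Fin (w.length + 1) → Bool) z)) : ℝ) else 1)
    rw [appF_cons, Finset.prod_range_succ']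
    have h0 : (if (d :: w).getD 0 false = true then
        (sg (phi ψ ([], 0) (cons c (appF ξ z))) : ℝ) else 1) =
        (if d = true then (sg (img ψ (cons c (appF ξ z)) 0) : ℝ) else 1) := rfl
    have h1 : ∀ h ∈ Finset.range w.length, (if (d :: w).getD (h + 1) false = true then
        (sg (phi ψ ([], h + 1) (cons c (appF ξ z))) : ℝ) else 1) =
        (if w.getD h false = true then (sg (phi ψ ([], h) (appF ξ z)) : ℝ) else 1) := by
      intro h _
      rw [OpDel_phi]
      rfl
    rw [h0, Finset.prod_congr rfl h1]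
    ring

theorem op_del (w : List Bool) (Q : Finset (List Bool)) (hQ : ∀ x ∈ Q, 1 ≤ x.length)
    (u u' : ℕ → Bool) :
    Del ψ w.length (Qpos Q ∪ Dpos w) u u' =
      1 / 2 ^ w.length * (Op ψ w (chi ψ Q) u - Op ψ w (chi ψ Q) u') := by
  have hdisj : Disjoint (Qpos Q) (Dpos w) := by
    rw [Finset.disjoint_left]
    rintro p hp hp'
    obtain ⟨x, hx, rfl⟩ := Finset.mem_image.1 hp
    obtain ⟨h, -, hh⟩ := Finset.mem_image.1 hp'
    have h1 : ([] : List Bool) = x := congrArg Prod.fst hh
    have h2 := hQ x hx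
    rw [← h1] at h2
    simp at h2
  have key : ∀ v : ℕ → Bool, ∏ p ∈ Qpos Q ∪ Dpos w, (sg (phi ψ p v) : ℝ) =
      chi ψ Q v * ∏ h ∈ Finset.range w.length,
        (if w.getD h false = true then (sg (phi ψ ([], h) v) : ℝ) else 1) := by
    intro v
    rw [Finset.prod_union hdisj, Qpos, Dpos, Finset.prod_image (fun x _ y _ hxy =>
      (Prod.mk.inj hxy).1), Finset.prod_image (fun x _ y _ hxy => (Prod.mk.inj hxy).2),
      Finset.prod_filter]
    rfl
  rw [Del, op_sum, op_sum, ← Finset.sum_sub_distrib]
  congr 1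
  refine Finset.sum_congr rfl fun ξ _ => ?_
  rw [key, key]

end Pool.Agent.Ppr3
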