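import Pool.Agent.Ppr3.MaxW
import Pool.Agent.Ppr3.Cand
import Pool.Agent.Ppr3.OpDel

/-!
# The candidate as a set of positions

`exists_max_word` with `k = 2 L` (and `Unf ψ (2 L)`), `cand`, `op_del`. `l = w.length`,
`P = Qpos Q ∪ Dpos w`. `|P| ≤ (2 L + 1) + w.count true = l + 1` (`w.count true + w.count false =
w.length`, `List.count`). `good`: clear. The weight: `∑_{p ∈ Qpos Q} wt = 0` as `L ≥ 1`; the
letters `D` at the places `h ∈ [L, l)` are at most `(l - L) - (2 L - L)`, since the letters
`false` are `2 L` and at most `L` of them are at places `< L`. `|Del| ≥ 2^(w.count true) / 2^l =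
(1/2)^(2 L)`. `2 L ≤ l` as `w` has `2 L` letters `false`.
-/

namespace Pool.Agent.Ppr3

open Pool.Agent.Ppr Pool.Agent.Ppr2

variable {m : ℕ} (ψ : (Fin m → Bool) → Bool)

private theorem CandB_count (b : Bool) : ∀ w : List Bool,
    ((Finset.range w.length).filter (fun h => w.getD h false = b)).card = w.count b
  | [] => by simp
  | c :: w => by
    have ih := CandB_count b w
    rw [Finset.card_filter] at ih ⊢
    rw [List.length_cons, Finset.sum_range_succ', List.count_cons]
    simp only [List.getD_cons_succ, List.getD_cons_zero]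
    rw [ih]
    simp

private theorem CandB_len (w : List Bool) : w.count true + w.count false = w.length := by
  induction w with
  | nil => simp
  | cons c w ih =>
    cases c <;> simp [List.count_cons] <;> omega

theorem cand_pos (hm : 1 ≤ m) (hψ : ∃ x y, ψ x ≠ ψ y) {L : ℕ} (hL : 1 ≤ L)
    (hU : Unf ψ (2 * L))
    (hβ : img ψ (fun _ => true) 0 ≠ img ψ (fun _ => false) 0) :
    ∃ (l : ℕ) (P : Finset (List Bool × ℕ)) (u u' : ℕ → Bool), 2 * L ≤ l ∧
      l ≤ 2 * L * (6 * L + 1) ∧ Pr ψ u u' ∧ (∀ p ∈ P, good m p ∧ p.2 < l) ∧
      P.card ≤ l + 1 ∧ (∑ p ∈ P, wt L l p) + 2 * L ≤ l ∧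
      (1 / 2) ^ (2 * L) ≤ |Del ψ l P u u'| := by
  classical
  obtain ⟨w, hNZ, hcf, hlen, hmax⟩ := exists_max_word ψ hm hψ hU hβ (2 * L)
  obtain ⟨Q, u, u', hPr, hQ, hQc, hbig⟩ := cand ψ hNZ (fun w' h1 h2 => by
    rw [hcf]
    exact hmax w' h1 h2)
  have hct := CandB_len w
  rw [hcf] at hct hQc
  have hl : 2 * L ≤ w.length := by omega
  have hD := CandB_count true w
  refine ⟨w.length, Qpos Q ∪ Dpos w, u, u', hl, ?_, hPr, ?_, ?_, ?_, ?_⟩
  · refine hlen.trans (le_of_eq ?_)
    ring
  · intro p hp
    rcases Finset.mem_union.mp hp with h | h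
    · obtain ⟨x, hx, rfl⟩ := Finset.mem_image.mp h
      exact ⟨⟨(hQ x hx).2, Or.inr rfl⟩, by simp only; omega⟩
    · obtain ⟨j, hj, rfl⟩ := Finset.mem_image.mp h
      have h1 := Finset.mem_range.mp (Finset.mem_filter.mp hj).1
      exact ⟨⟨by simp, Or.inl rfl⟩, h1⟩
  · refine (Finset.card_union_le _ _).trans ?_
    have h1 : (Qpos Q).card ≤ Q.card := Finset.card_image_le
    have h2 : (Dpos w).card ≤ w.count true := by
      rw [← hD]
      exact Finset.card_image_le
    omega
  · have h1 : ∑ p ∈ Qpos Q ∪ Dpos w, wt L w.length p ≤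
        ∑ p ∈ Qpos Q, wt L w.length p + ∑ p ∈ Dpos w, wt L w.length p := by
      rw [← Finset.sum_union_inter]
      exact Nat.le_add_right _ _
    have h2 : ∑ p ∈ Qpos Q, wt L w.length p = 0 := by
      apply Finset.sum_eq_zero
      intro p hp
      obtain ⟨x, hx, rfl⟩ := Finset.mem_image.mp hp
      unfold wt
      rw [if_neg]
      simp only
      omega
    have h3 : ∑ p ∈ Dpos w, wt L w.length p =
        ∑ h ∈ Finset.range w.length, (if w.getD h false = true then
          (if L ≤ h ∧ h < w.length then 1 else 0) else 0) := by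
      unfold Dpos
      rw [Finset.sum_image (by
        intro a _ b _ hab
        exact (Prod.mk.inj hab).2), Finset.sum_filter]
      rfl
    -- letters `true` beyond `L`
    have h4 : ∑ h ∈ Finset.range w.length, (if w.getD h false = true then
          (if L ≤ h ∧ h < w.length then 1 else 0) else 0) + L +
        ∑ h ∈ Finset.range w.length, (if w.getD h false = false then
          (if L ≤ h then 1 else 0) else 0) = w.length := by
      have e1 : ∀ h ∈ Finset.range w.length, (if w.getD h false = true then
          (if L ≤ h ∧ h < w.length then 1 else 0) else 0) +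
          (if w.getD h false = false then (if L ≤ h then 1 else 0) else 0) =
          (if L ≤ h then 1 else 0) := by
        intro h hh
        have hh' := Finset.mem_range.mp hh
        cases w.getD h false <;> simp [hh']
      have e2 : ∑ h ∈ Finset.range w.length, (if L ≤ h then 1 else 0) = w.length - L := by
        rw [← Finset.card_filter]
        have e3 : (Finset.range w.length).filter (fun h => L ≤ h) = Finset.Ico L w.length := by
          ext h
          simp only [Finset.mem_filter, Finset.mem_range, Finset.mem_Ico]
          exact ⟨fun h => ⟨h.2, h.1⟩, fun h => ⟨h.2, h.1⟩⟩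
        rw [e3, Nat.card_Ico]
      have e4 := Finset.sum_congr (rfl : Finset.range w.length = Finset.range w.length) e1
      rw [Finset.sum_add_distrib, e2] at e4
      omega
    have h5 : 2 * L ≤ L + ∑ h ∈ Finset.range w.length, (if w.getD h false = false then
          (if L ≤ h then 1 else 0) else 0) := by
      have e1 := CandB_count false w
      rw [Finset.card_filter, hcf] at e1
      have e2 : ∀ h ∈ Finset.range w.length, (if w.getD h false = false then 1 else 0) ≤
          (if h < L then 1 else 0) +
          (if w.getD h false = false then (if L ≤ h then 1 else 0) else 0) := by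
        intro h _
        by_cases h1 : L ≤ h
        · have h2 : ¬ h < L := by omega
          simp [h1]
        · have h2 : h < L := by omega
          cases w.getD h false <;> simp [h2]
      have e3 := Finset.sum_le_sum e2
      rw [Finset.sum_add_distrib, e1] at e3
      have e4 : ∑ h ∈ Finset.range w.length, (if h < L then 1 else 0) ≤ L := by
        rw [← Finset.card_filter]
        have e5 : (Finset.range w.length).filter (fun h => h < L) ⊆ Finset.range L := by
          intro h hh
          exact Finset.mem_range.mpr (Finset.mem_filter.mp hh).2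
        exact (Finset.card_le_card e5).trans (by rw [Finset.card_range])
      omega
    rw [h2, h3] at h1
    omega
  · rw [op_del ψ w Q (fun x hx => (hQ x hx).1) u u', abs_mul]
    have h1 : |(1 / 2 ^ w.length : ℝ)| = 1 / 2 ^ w.length := abs_of_pos (by positivity)
    rw [h1]
    have h2 : ((1 / 2 : ℝ)) ^ (2 * L) = 1 / 2 ^ w.length * 2 ^ w.count true := by
      rw [← hct, pow_add, one_div_pow]
      field_simp
    rw [h2]
    exact mul_le_mul_of_nonneg_left hbig (by positivity)

end Pool.Agent.Ppr3
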