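import Pool.Agent.Ppr3.Mom

/-!
# The core of the plateau lemma

Let `τ = c j q`. `(1)` By `pm` at `j` and `hne`: `c j q' = -τ`, `τ ≠ 0`. `(2)` For every list `l`
of length `t ≤ j - L`: `c (j-t) (Fl l q) = sgl l * τ` and `c (j-t) (Fl l q') = -(sgl l * τ)`:
induction on `l` (the head is the new letter); `pair_step` gives the difference
`2 sg b sgl l τ ≠ 0` (`sgl l = ± 1`), so `pm` (index `≥ L`) gives the opposite values. `(3)` By
`cover` every word `z` is `Eqv` to some `Fl l q` with `|l| = t`, for every `t ≥ L`. So for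
`L ≤ i ≤ j - L = 2 L + 1`: `(c i z)^2 = τ^2`, and for `L ≤ i`, `i + 1 ≤ 2 L + 1`:
`c i (Fb b z) = sg b * c (i+1) z` (`z ~ Fl l q`, `|l| = j - i - 1`, and `Fb b z ~ Fl (b :: l) q`
by `eqv_Fb`). `(4)` `ρ i z = c i z * c (i+1) z` satisfies `ρ i (Fb b z) = ρ (i+1) z` for
`L ≤ i ≤ 2 L - 1`, so `ρ L (Fl l q) = ρ (2L) q` for `|l| = L`, and by `cover` `ρ L` is constant.
`(5)` With `z = fun _ => true`, `β = img ψ z 0`: `Fb ψ β z = z` (`Fb_img_sh`), so
`ρ L z = sg β * (c (L+1) z)^2 = sg β * τ^2`; the same for `fun _ => false`. Hence the two image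
letters agree.
-/

namespace Pool.Agent.Ppr3

open Pool.Agent.Ppr Pool.Agent.Ppr2

variable {m : ℕ} {ψ : (Fin m → Bool) → Bool} {c : ℕ → (ℕ → Bool) → ℝ} {j : ℕ}

private theorem corep_sg (b : Bool) : (sg b : ℝ) * (sg b : ℝ) = 1 := by
  cases b <;> simp [sg]

private theorem corep_sgl (l : List Bool) : sgl l * sgl l = 1 := by
  induction l with
  | nil => simp [sgl]
  | cons b l ih =>
    show (sg b : ℝ) * sgl l * ((sg b : ℝ) * sgl l) = 1
    linear_combination (sgl l * sgl l) * corep_sg b + ih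

theorem plat_core (hm : 1 ≤ m) {L : ℕ} (hU : Unf ψ L) (hS : ∀ i, Stf ψ (c i))
    (hD : ∀ i < j, ∀ z, c i (Fb ψ true z) - c i (Fb ψ false z) = 2 * c (i + 1) z)
    (hP : ∀ i < j, ∀ u u', Pr ψ u u' →
      c i (Fb ψ true u) + c i (Fb ψ false u) = c i (Fb ψ true u') + c i (Fb ψ false u'))
    (hj : j = 3 * L + 1) {q q' : ℕ → Bool} (hqq : Pr ψ q q') (hne : c j q ≠ c j q') :
    img ψ (fun _ => true) 0 = img ψ (fun _ => false) 0 := by
  obtain ⟨τ, hτ⟩ : ∃ τ, τ = c j q := ⟨_, rfl⟩
  have h1 : c j q' = -τ := by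
    rcases pm hU hS hD hP (k := j) (by omega) le_rfl hqq with h | h
    · exact absurd h.symm hne
    · rw [h, hτ]
  have hτ0 : τ ≠ 0 := by
    intro h0
    apply hne
    rw [h1, ← hτ, h0, neg_zero]
  -- the values after the lists
  have hA : ∀ l : List Bool, l.length + L ≤ j → c (j - l.length) (Fl ψ l q) = sgl l * τ ∧
      c (j - l.length) (Fl ψ l q') = -(sgl l * τ) := by
    intro l
    induction l with
    | nil =>
      intro _
      refine ⟨?_, ?_⟩
      · show c j q = 1 * τ
        rw [one_mul, hτ]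
      · show c j q' = -(1 * τ)
        rw [one_mul, h1]
    | cons b l ih =>
      intro hl
      rw [List.length_cons] at hl ⊢
      obtain ⟨h2, h3⟩ := ih (by omega)
      obtain ⟨i, hi⟩ : ∃ i, i = j - (l.length + 1) := ⟨_, rfl⟩
      have hi1 : j - l.length = i + 1 := by omega
      rw [hi1] at h2 h3
      rw [← hi]
      have hpr : Pr ψ (Fl ψ l q) (Fl ψ l q') := pr_Fl ψ hqq l
      have h4 := pair_step hD hP (i := i) (by omega) hpr b
      have h5 := pm hU hS hD hP (k := i) (by omega) (by omega) (pr_Fb ψ hpr b)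
      rw [h2, h3] at h4
      show c i (Fb ψ b (Fl ψ l q)) = (sg b : ℝ) * sgl l * τ ∧
        c i (Fb ψ b (Fl ψ l q')) = -((sg b : ℝ) * sgl l * τ)
      rcases h5 with h5 | h5
      · exfalso
        rw [h5, sub_self] at h4
        have h6 : (sg b : ℝ) * sgl l * τ = 0 := by linear_combination -(1 / 2 : ℝ) * h4
        have h7 : τ = 0 := by
          have h8 : (sg b : ℝ) * sgl l * ((sg b : ℝ) * sgl l * τ) = 0 := by
            rw [h6, mul_zero]
          linear_combination h8 - (sgl l * sgl l * τ) * corep_sg b - τ * corep_sgl l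
        exact hτ0 h7
      · rw [h5] at h4
        have h6 : c i (Fb ψ b (Fl ψ l q)) = (sg b : ℝ) * sgl l * τ := by
          linear_combination (1 / 2 : ℝ) * h4
        exact ⟨h6, by rw [h5, h6]⟩
  -- the squares
  have hsq : ∀ i, L ≤ i → i + L ≤ j → ∀ z, c i z * c i z = τ * τ := by
    intro i hi hi' z
    obtain ⟨l, hl, hz⟩ := cover ψ hU (t := j - i) (by omega) z q
    have h2 := (hA l (by omega)).1
    have h3 : j - l.length = i := by omega
    rw [h3] at h2
    rw [hS i z _ hz, h2]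
    linear_combination (τ * τ) * corep_sgl l
  -- one letter
  have hst : ∀ i, L ≤ i → i ≤ 2 * L → ∀ b z, c i (Fb ψ b z) = (sg b : ℝ) * c (i + 1) z := by
    intro i hi hi' b z
    obtain ⟨l, hl, hz⟩ := cover ψ hU (t := j - i - 1) (by omega) z q
    have h2 := (hA l (by omega)).1
    have h3 : j - l.length = i + 1 := by omega
    rw [h3] at h2
    have h4 := (hA (b :: l) (by rw [List.length_cons]; omega)).1
    have h5 : j - (b :: l).length = i := by rw [List.length_cons]; omega
    rw [h5] at h4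
    rw [hS (i + 1) z _ hz, h2, hS i _ _ (eqv_Fb ψ hm hz b)]
    have h6 : c i (Fb ψ b (Fl ψ l q)) = (sg b : ℝ) * sgl l * τ := h4
    rw [h6, mul_assoc]
  -- the products
  have hρ : ∀ (l : List Bool) (i : ℕ) (z : ℕ → Bool), L ≤ i → i + l.length ≤ 2 * L →
      c i (Fl ψ l z) * c (i + 1) (Fl ψ l z) =
        c (i + l.length) z * c (i + l.length + 1) z := by
    intro l
    induction l with
    | nil =>
      intro i z _ _
      rfl
    | cons b l ih =>
      intro i z hi hl
      rw [List.length_cons] at hl ⊢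
      show c i (Fb ψ b (Fl ψ l z)) * c (i + 1) (Fb ψ b (Fl ψ l z)) = _
      rw [hst i hi (by omega), hst (i + 1) (by omega) (by omega)]
      have h2 := ih (i + 1) z (by omega) (by omega)
      have h3 : i + 1 + l.length = i + (l.length + 1) := by omega
      rw [h3] at h2
      rw [← h2]
      linear_combination (c (i + 1) (Fl ψ l z) * c (i + 1 + 1) (Fl ψ l z)) * corep_sg b
  have hcon : ∀ z, c L z * c (L + 1) z = c (2 * L) q * c (2 * L + 1) q := by
    intro z
    obtain ⟨l, hl, hz⟩ := cover ψ hU (t := L) le_rfl z q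
    have h2 := hρ l L q le_rfl (by omega)
    rw [hS L z _ hz, hS (L + 1) z _ hz, h2, hl]
    have h3 : L + L = 2 * L := by omega
    rw [h3]
  have hval : ∀ a : Bool, (sg (img ψ (fun _ => a) 0) : ℝ) * (τ * τ) =
      c (2 * L) q * c (2 * L + 1) q := by
    intro a
    have h2 : Fb ψ (img ψ (fun _ => a) 0) (fun _ => a) = fun _ => a :=
      Fb_img_sh ψ (fun _ => a)
    have h3 := hst L le_rfl (by omega) (img ψ (fun _ => a) 0) (fun _ => a)
    rw [h2] at h3
    have h4 := hsq (L + 1) (by omega) (by omega) (fun _ => a)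
    rw [← hcon (fun _ => a), h3, ← h4]
    ring
  have h2 := (hval true).trans (hval false).symm
  have h3 : τ * τ ≠ 0 := mul_ne_zero hτ0 hτ0
  have h4 := mul_right_cancel₀ h3 h2
  cases hx : img ψ (fun _ => true) 0 <;> cases hy : img ψ (fun _ => false) 0 <;>
    rw [hx, hy] at h4 <;> first | rfl | (simp [sg] at h4; norm_num at h4)

end Pool.Agent.Ppr3
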