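import Pool.Agent.Ppr2.Defs
import Pool.Agent.Ppr2.Opt

/-!
# Third version: definitions

The block code is `v ↦ img ψ v`, `ψ : (Fin m → Bool) → Bool`. `Fb ψ b z` is the word `c z` whose
image begins with `b`. `Fl ψ ζ z`: the letters of the list `ζ` in front, the head outermost.
`Pr ψ u u'`: the words have the same image. `Eqv ψ z z'`: the same residual, that is the same
image letters after every nonempty word of length `≤ m` in front. `Stf ψ g`: `g` is a function of
the residual. The operators `Tw ψ false g = P g`, `(P g) z = g (Fb true z) + g (Fb false z)`, and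
`Tw ψ true g = D g`, `(D g) z = g (Fb true z) - g (Fb false z)`; `Op ψ w` is a word in them (the
head is applied first). `Sm ψ n g z` is the sum of `g (Fl ζ z)` over all `ζ` of length `n`.
`Unf ψ n`: these sums do not depend on `z` for functions `g` of the residual. `NZ ψ w`: the word
`w` in the operators does not vanish on the differences of two words with the same image.
`chi ψ Q` is the product of the image letters after the words `x ∈ Q` in front. `Sl w` is the list
of the image words which are used by `w` if every `D` is replaced by `2 Fb true`.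
-/

namespace Pool.Agent.Ppr3

open PowerSeries Pool.Agent.Ppr Pool.Agent.Ppr2

variable {m : ℕ}

/-- the word with the image letter `b` in front of `z` -/
def Fb (ψ : (Fin m → Bool) → Bool) (b : Bool) (z : ℕ → Bool) : ℕ → Bool :=
  cons (xor b (ψ fun i => z i.1)) z

/-- the image letters of a list in front, the head outermost -/
def Fl (ψ : (Fin m → Bool) → Bool) : List Bool → (ℕ → Bool) → (ℕ → Bool)
  | [], z => z
  | b :: l, z => Fb ψ b (Fl ψ l z)

/-- equal images -/
def Pr (ψ : (Fin m → Bool) → Bool) (u u' : ℕ → Bool) : Prop := ∀ k, img ψ u k = img ψ u' k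

/-- equal residuals -/
def Eqv (ψ : (Fin m → Bool) → Bool) (z z' : ℕ → Bool) : Prop :=
  ∀ x : List Bool, 1 ≤ x.length → x.length ≤ m → phi ψ (x, 0) z = phi ψ (x, 0) z'

/-- functions of the residual -/
def Stf (ψ : (Fin m → Bool) → Bool) (g : (ℕ → Bool) → ℝ) : Prop :=
  ∀ z z', Eqv ψ z z' → g z = g z'

/-- the operators: `false` is the sum `P`, `true` is the difference `D` -/
noncomputable def Tw (ψ : (Fin m → Bool) → Bool) (d : Bool) (g : (ℕ → Bool) → ℝ) :
    (ℕ → Bool) → ℝ :=
  fun z => if d then g (Fb ψ true z) - g (Fb ψ false z) else g (Fb ψ true z) + g (Fb ψ false z)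

/-- words in the operators, the head is applied first -/
noncomputable def Op (ψ : (Fin m → Bool) → Bool) : List Bool → ((ℕ → Bool) → ℝ) →
    ((ℕ → Bool) → ℝ)
  | [], g => g
  | d :: w, g => Op ψ w (Tw ψ d g)

/-- the sum over all image words of length `n` in front -/
noncomputable def Sm (ψ : (Fin m → Bool) → Bool) : ℕ → ((ℕ → Bool) → ℝ) → (ℕ → Bool) → ℝ
  | 0, g, z => g z
  | n + 1, g, z => Sm ψ n g (Fb ψ true z) + Sm ψ n g (Fb ψ false z)

/-- after `n` letters the residual is independent of the tail -/
def Unf (ψ : (Fin m → Bool) → Bool) (n : ℕ) : Prop :=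
  ∀ g, Stf ψ g → ∀ z z', Sm ψ n g z = Sm ψ n g z'

/-- the word `w` does not vanish on the pairs -/
def NZ (ψ : (Fin m → Bool) → Bool) (w : List Bool) : Prop :=
  ∃ g u u', Stf ψ g ∧ Pr ψ u u' ∧ Op ψ w g u ≠ Op ψ w g u'

/-- the product of the image letters after the words of `Q` -/
noncomputable def chi (ψ : (Fin m → Bool) → Bool) (Q : Finset (List Bool)) (z : ℕ → Bool) : ℝ :=
  ∏ x ∈ Q, (sg (phi ψ (x, 0) z) : ℝ)

/-- the image words of the points of a word in the operators -/
def Sl : List Bool → List (List Bool)
  | [] => [[]]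
  | false :: w => (Sl w).map (true :: ·) ++ (Sl w).map (false :: ·)
  | true :: w => (Sl w).map (true :: ·)

/-- the product of the signs of a list -/
noncomputable def sgl : List Bool → ℝ
  | [] => 1
  | b :: l => (sg b : ℝ) * sgl l

/-- the positions which are used -/
def good (m : ℕ) (p : List Bool × ℕ) : Prop := p.1.length ≤ m ∧ (p.1 = [] ∨ p.2 = 0)

/-- the weight of a position -/
def wt (L l : ℕ) (p : List Bool × ℕ) : ℕ := if L ≤ p.2 ∧ p.2 < l then 1 else 0

end Pool.Agent.Ppr3
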