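import Pool.Agent.Ppr3.AwB
import Pool.Agent.Ppr2.AvA2
import Pool.Agent.Ppr2.GapSepB

/-!
# The order of the averaged form at `w'`

`gap3`: split `P` into the positions `(x, 0)` with `x ≠ []` and the positions `([], h)`, `h < l`:
`∏_{p ∈ P} YR (pos p z) = F z * ∏_{h < l} (if d h then YR (sh^[h] z) else 1)`, `d h` = whether
`([], h) ∈ P`, `F z = ∏ YR (app x z)` over the first kind, which is in `Av 1 M` (`av_app`,
`av_prod`) and so in `Aw 1 M`. Apply `aw_main` with `B = 1`: `M ≤ 2^(i+1) = 2^i * (1 + 1)`.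
`G1_van3`: as `G1_van` in `Ppr2/GapSepB.lean`.
-/

namespace Pool.Agent.Ppr3

open PowerSeries Pool.Agent.Ppr Pool.Agent.Ppr2

private theorem Gap3_split {m l : ℕ} (P : Finset (List Bool × ℕ))
    (hP : ∀ p ∈ P, good m p ∧ p.2 < l) (z : ℕ → Bool) :
    ∏ p ∈ P, YR (pos p z) = (∏ p ∈ P with p.1 ≠ [], YR (app p.1 z)) *
      ∏ h ∈ Finset.range l, (if decide (([], h) ∈ P) then YR (sh^[h] z) else 1) := by
  classical
  rw [← Finset.prod_filter_mul_prod_filter_not P (fun p => p.1 ≠ [])]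
  congr 1
  · refine Finset.prod_congr rfl fun p hp => ?_
    obtain ⟨hp1, hp2⟩ := Finset.mem_filter.1 hp
    have h1 : p.2 = 0 := (hP p hp1).1.2.resolve_left hp2
    unfold pos
    rw [h1]
    rfl
  · rw [← Finset.prod_filter]
    refine Finset.prod_bij' (fun p _ => p.2) (fun h _ => ([], h)) ?_ ?_ ?_ ?_ ?_
    · intro p hp
      obtain ⟨hp1, hp2⟩ := Finset.mem_filter.1 hp
      rw [not_not] at hp2
      rw [Finset.mem_filter, Finset.mem_range, decide_eq_true_eq]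
      refine ⟨(hP p hp1).2, ?_⟩
      rw [← hp2]
      exact hp1
    · intro h hh
      obtain ⟨-, hh2⟩ := Finset.mem_filter.1 hh
      rw [decide_eq_true_eq] at hh2
      exact Finset.mem_filter.2 ⟨hh2, fun h3 => h3 rfl⟩
    · intro p hp
      obtain ⟨-, hp2⟩ := Finset.mem_filter.1 hp
      rw [not_not] at hp2
      exact Prod.ext hp2.symm rfl
    · intro h _
      rfl
    · intro p hp
      obtain ⟨-, hp2⟩ := Finset.mem_filter.1 hp
      rw [not_not] at hp2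
      unfold pos
      rw [hp2]
      rfl

theorem gap3 {m M l i : ℕ} (hi : i < l) (hM : M ≤ 2 ^ (i + 1)) (P : Finset (List Bool × ℕ))
    (hP : ∀ p ∈ P, good m p ∧ p.2 < l) (hPi : ([], i) ∉ P) (u u' : ℕ → Bool) :
    X ^ M ∣ ∑ ξ : Fin l → Bool, (∏ p ∈ P, YR (pos p (appF ξ u)) -
      ∏ p ∈ P, YR (pos p (appF ξ u'))) := by
  have hF0 : (fun z => ∏ p ∈ P with p.1 ≠ [], YR (app p.1 z)) ∈ Av 1 M :=
    av_prod {p ∈ P | p.1 ≠ []} (fun p z => YR (app p.1 z)) fun p hp =>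
      av_app (Finset.mem_filter.1 hp).2
  have hF : (fun z => ∏ p ∈ P with p.1 ≠ [], YR (app p.1 z)) ∈ Aw 1 M := aw_of_av hF0
  have hM' : M ≤ 2 ^ i * (1 + 1) := by
    rw [pow_succ] at hM
    omega
  have hd : (fun h => decide (([], h) ∈ P)) i = false := decide_eq_false hPi
  have h1 := aw_main l i (fun h => decide (([], h) ∈ P)) 1 _ hF hi hd hM' u u'
  simp only [Gap3_split P hP]
  exact h1

variable {ι : Type} {σ : ι → ι} {w' : ι → Bool}

private theorem Gap3_prod_dvd {α : Type} {a : PowerSeries ℝ} (s : Finset α)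
    (f g : α → PowerSeries ℝ) (h : ∀ x ∈ s, a ∣ f x - g x) :
    a ∣ ∏ x ∈ s, f x - ∏ x ∈ s, g x := by
  have h1 : Ideal.Quotient.mk (Ideal.span {a}) (∏ x ∈ s, f x) =
      Ideal.Quotient.mk (Ideal.span {a}) (∏ x ∈ s, g x) := by
    rw [map_prod, map_prod]
    exact Finset.prod_congr rfl fun x hx =>
      Ideal.Quotient.eq.2 (Ideal.mem_span_singleton.2 (h x hx))
  exact Ideal.mem_span_singleton.1 (Ideal.Quotient.eq.1 h1)

private theorem Gap3_eps (w : ι → Bool) (pt : (ℕ → Bool) → ι) (n : ℕ)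
    (P : Finset (List Bool × ℕ)) (u u' : ℕ → Bool) :
    eps σ w (G1 pt n P u u') = C (1 / 2 ^ n : ℝ) * ∑ ξ : Fin n → Bool,
      (∏ p ∈ P, eps σ w (MvPolynomial.X (pt (pos p (appF ξ u)))) -
        ∏ p ∈ P, eps σ w (MvPolynomial.X (pt (pos p (appF ξ u'))))) := by
  unfold G1
  rw [map_mul, map_sum]
  congr 1
  · exact MvPolynomial.aeval_C _ _
  · refine Finset.sum_congr rfl fun ξ _ => ?_
    rw [map_sub, map_prod, map_prod]

theorem G1_van3 {m M M2 l i : ℕ} {pt : (ℕ → Bool) → ι}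
    (hpt : ∀ v, ∀ k < M2, w' (σ^[k] (pt v)) = v k) (hMM : M ≤ M2) (hi : i < l)
    (hM : M ≤ 2 ^ (i + 1)) (P : Finset (List Bool × ℕ)) (hP : ∀ p ∈ P, good m p ∧ p.2 < l)
    (hPi : ([], i) ∉ P) (u u' : ℕ → Bool) :
    X ^ M ∣ eps σ w' (G1 pt l P u u') := by
  rw [Gap3_eps]
  refine Dvd.dvd.mul_left ?_ _
  have hv : ∀ v, (X : PowerSeries ℝ) ^ M ∣ eps σ w' (MvPolynomial.X (pt v)) - YR v :=
    fun v => (pow_dvd_pow _ hMM).trans (eps_pt' hpt v)
  have h1 : ∀ z : ℕ → Bool, (X : PowerSeries ℝ) ^ M ∣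
      ∏ p ∈ P, eps σ w' (MvPolynomial.X (pt (pos p z))) - ∏ p ∈ P, YR (pos p z) :=
    fun z => Gap3_prod_dvd P _ _ fun p _ => hv _
  have h2 := gap3 hi hM P hP hPi u u'
  have h3 : (X : PowerSeries ℝ) ^ M ∣ ∑ ξ : Fin l → Bool,
      ((∏ p ∈ P, eps σ w' (MvPolynomial.X (pt (pos p (appF ξ u)))) -
        ∏ p ∈ P, eps σ w' (MvPolynomial.X (pt (pos p (appF ξ u'))))) -
      (∏ p ∈ P, YR (pos p (appF ξ u)) - ∏ p ∈ P, YR (pos p (appF ξ u')))) := by
    refine Finset.dvd_sum fun ξ _ => ?_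
    have h4 := dvd_sub (h1 (appF ξ u)) (h1 (appF ξ u'))
    refine h4.trans (dvd_of_eq ?_)
    ring
  rw [Finset.sum_sub_distrib] at h3
  have h5 := dvd_add h3 h2
  rwa [sub_add_cancel] at h5

end Pool.Agent.Ppr3
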