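import Pool.Agent.Ppr3.MajZ
import Pool.Agent.Ppr3.Defs
import Pool.Agent.Ppr2.GapSepC

/-!
# The averaged form is almost constant at the cusp `w0`

As `G1_unit` in `Ppr2/GapSepC.lean`, with `maj3`, `gd = good m`, `wg = wt L l`, `nxt = nx`
(`nx (c :: x, 0) = (x, 0)`, `nx ([], h) = ([], h+1)` are good).
-/

namespace Pool.Agent.Ppr3

open PowerSeries Pool.Agent.Ppr Pool.Agent.Ppr2

variable {ι : Type} {σ : ι → ι} {w0 w' : ι → Bool} {m : ℕ} {ψ : (Fin m → Bool) → Bool}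

private theorem prod_congr_GapU {α : Type} (d : PowerSeries ℝ) (s : Finset α)
    (f g : α → PowerSeries ℝ) (h : ∀ a ∈ s, d ∣ f a - g a) :
    d ∣ ∏ a ∈ s, f a - ∏ a ∈ s, g a := by
  classical
  induction s using Finset.induction_on with
  | empty => simp
  | insert a s ha ih =>
    rw [Finset.prod_insert ha, Finset.prod_insert ha]
    have h1 := h a (Finset.mem_insert_self a s)
    have h2 := ih fun b hb => h b (Finset.mem_insert_of_mem hb)
    have e : f a * ∏ b ∈ s, f b - g a * ∏ b ∈ s, g b =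
        f a * (∏ b ∈ s, f b - ∏ b ∈ s, g b) + (f a - g a) * ∏ b ∈ s, g b := by ring
    rw [e]
    exact dvd_add (Dvd.dvd.mul_left h2 _) (Dvd.dvd.mul_right h1 _)

private theorem sum_GapU {R : Type} [CommRing R] {n : ℕ} (a : R)
    (F : (Fin n → Bool) × Bool → R) :
    ∑ ω : (Fin n → Bool) × Bool, (if ω.2 then a else -a) * F ω =
      a * ∑ ξ : Fin n → Bool, (F (ξ, true) - F (ξ, false)) := by
  rw [Fintype.sum_prod_type, Finset.mul_sum]
  refine Finset.sum_congr rfl fun ξ _ => ?_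
  rw [Fintype.sum_bool]
  simp only [if_true, Bool.false_eq_true, if_false]
  ring

private theorem good_GapU (m : ℕ) : ∀ p : List Bool × ℕ, good m p → good m (nx p) := by
  rintro ⟨x, k⟩ ⟨h1, h2⟩
  cases x with
  | nil => exact ⟨h1, Or.inl rfl⟩
  | cons c x =>
    refine ⟨(Nat.le_succ _).trans h1, Or.inr ?_⟩
    rcases h2 with h2 | h2
    · exact absurd h2 (List.cons_ne_nil c x)
    · exact h2

private theorem wt_GapU (L l : ℕ) (p : List Bool × ℕ) : wt L l p ≤ 1 := by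
  unfold wt
  split_ifs <;> simp

theorem G1_unit3 {r A : ℝ} (hr : 0 ≤ r) {M M2 : ℕ} (hM2 : M + m ≤ M2) {pt : (ℕ → Bool) → ι}
    (hpt : ∀ v, ∀ k < M2, w' (σ^[k] (pt v)) = v k)
    (hψ : ∀ i, w0 i = xor (w' i) (ψ fun l : Fin m => w' (σ^[l.1 + 1] i)))
    (n L l : ℕ) (P : Finset (List Bool × ℕ)) (hne : P.Nonempty)
    (hP : ∀ p ∈ P, good m p) (u u' : ℕ → Bool) (hA : 0 ≤ A)
    (hrA : r * A * (90 * P.card) ≤ 1)
    (hbd : ∀ (j : ℕ) (P' : Finset (List Bool × ℕ)), (∀ p ∈ P', good m p) →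
      (∑ p ∈ P', wt L l p) ≤ (∑ p ∈ P, wt L l p) + j →
      |Del ψ n P' u u'| * 2 ^ P.card ≤ 2 ^ P'.card * (A ^ j * |Del ψ n P u u'|)) :
    nrmr r M (eps σ w0 (G1 pt n P u u') - C (Del ψ n P u u')) ≤ |Del ψ n P u u'| / 10 := by
  classical
  let κ : (Fin n → Bool) × Bool → ℝ := fun ω => if ω.2 then 1 / 2 ^ n else -(1 / 2 ^ n)
  let ε : List Bool × ℕ → (Fin n → Bool) × Bool → Bool := fun p ω =>
    phi ψ p (appF ω.1 (if ω.2 then u else u'))
  have hSW : ∀ P' : Finset (List Bool × ℕ), SW κ ε P' = Del ψ n P' u u' := by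
    intro P'
    have h1 := sum_GapU (n := n) (1 / 2 ^ n : ℝ)
      (fun ω => ∏ p ∈ P', (sg (ε p ω) : ℝ))
    rw [SW, Del]
    exact h1
  have hmaj := maj3 (nxt := nx) (gd := good m) (wg := wt L l) (ε := ε) (good_GapU m)
    (wt_GapU L l) κ P hne hP hA (abs_nonneg (Del ψ n P u u')) hr hrA (by
      intro j P' hP' hw
      rw [hSW]
      exact hbd j P' hP' hw) M
  rw [hSW] at hmaj
  refine le_trans (le_of_eq ?_) hmaj
  refine nrmr_congr ?_
  have hkey : ∀ (p : List Bool × ℕ) (z : ℕ → Bool),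
      X ^ M ∣ eps σ w0 (MvPolynomial.X (pt (pos p z))) - YR (fun k => phi ψ (nx^[k] p) z) := by
    intro p z
    have h1 := eps_pt0 hM2 hpt hψ (pos p z)
    have h2 : (fun k => img ψ (pos p z) k) = fun k => phi ψ (nx^[k] p) z :=
      funext fun k => img_pos p z k
    rwa [h2] at h1
  have hG : eps σ w0 (G1 pt n P u u') = C (1 / 2 ^ n) * ∑ ξ : Fin n → Bool,
      (∏ p ∈ P, eps σ w0 (MvPolynomial.X (pt (pos p (appF ξ u)))) -
        ∏ p ∈ P, eps σ w0 (MvPolynomial.X (pt (pos p (appF ξ u'))))) := by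
    rw [G1, map_mul, map_sum]
    congr 1
    · have := (eps σ w0).commutes (1 / 2 ^ n : ℝ)
      exact this
    · refine Finset.sum_congr rfl fun ξ _ => ?_
      rw [map_sub, map_prod, map_prod]
  have hS : (∑ ω : (Fin n → Bool) × Bool, C (κ ω) * ∏ p ∈ P, YR (fun k => ε (nx^[k] p) ω)) =
      C (1 / 2 ^ n) * ∑ ξ : Fin n → Bool,
      (∏ p ∈ P, YR (fun k => phi ψ (nx^[k] p) (appF ξ u)) -
        ∏ p ∈ P, YR (fun k => phi ψ (nx^[k] p) (appF ξ u'))) := by
    have h1 := sum_GapU (n := n) (C (1 / 2 ^ n : ℝ) : PowerSeries ℝ)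
      (fun ω => ∏ p ∈ P, YR (fun k => ε (nx^[k] p) ω))
    have h2 : ∀ ω : (Fin n → Bool) × Bool,
        (C (κ ω) : PowerSeries ℝ) = if ω.2 then C (1 / 2 ^ n : ℝ) else -C (1 / 2 ^ n : ℝ) := by
      rintro ⟨ξ, b⟩
      cases b
      · show (C (-(1 / 2 ^ n : ℝ)) : PowerSeries ℝ) = -C (1 / 2 ^ n : ℝ)
        rw [map_neg]
      · rfl
    refine Eq.trans (Finset.sum_congr rfl fun ω _ => ?_) h1
    rw [h2]
  rw [hG, hS, sub_sub_sub_cancel_right, ← mul_sub, ← Finset.sum_sub_distrib]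
  refine Dvd.dvd.mul_left (Finset.dvd_sum fun ξ _ => ?_) _
  have e : ∀ a b c d : PowerSeries ℝ, a - b - (c - d) = (a - c) - (b - d) := fun a b c d => by ring
  rw [e]
  exact dvd_sub (prod_congr_GapU _ _ _ _ fun p _ => hkey p _)
    (prod_congr_GapU _ _ _ _ fun p _ => hkey p _)

end Pool.Agent.Ppr3
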