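import Pool.Agent.Ppr3.StA
import Pool.Agent.Ppr2.Opt

/-!
# The optimal set of positions

`del_deep`: for `p = ([], h)`, `h ≥ l`: `phi ψ p (appF ξ u) = img ψ u (h - l)`, the same for `u'`.
So `|Del ψ l P u u'| = |Del ψ l (P.filter (p.2 < l)) u u'|` (the product over the deep positions is
the same sign for all terms).
`exists_pot`: let `Z` be the finite set of the nonempty sets `P` of good positions with `p.2 < l`
(`List.finite_length_le`), `cst P = ∑ p ∈ P, wt L l p`, and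
`W (P, u, u') = |Del ψ l P u u'| / (2^|P| * 16^(cst P))`. For fixed `P` the numbers `Del` are in a
finite set (`2 k / 2^l` with `|k| ≤ 2^l`, private `int_Opt` in `Ppr2/Opt.lean`, copy it), so the set
of all values `W` over `P ∈ Z` and all `Pr ψ u u'` is finite and has a maximum, attained at
`P, u, u'`. The candidate `P1` gives `W ≥ W1 := (1/2)^(2 L) / (2^(l+1) * 16^(l - 2 L))`,
`= (1/2)^(5 l + 1 - 6 L)`.
(1) If all `([], i)`, `L ≤ i < l`, are in `P`, then `cst P = l - L`, `|P| ≥ l - L`, so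
`W ≤ 2 / (2^(l-L) * 16^(l-L)) < W1`, because `2 L + 2 < 3 L`. (2) `2 / 2^|P| ≥ W ≥ W1` (`del_le`)
gives `|P| ≤ 5 l + 2 - 6 L ≤ 5 l`. (3) `|Del| ≥ W * 2^|P| ≥ 2 W1 ≥ (1/2)^(5 l)`. (4) For `P'` let
`P'' = P'.filter (p.2 < l)`: empty gives `Del = 0` (`del_empty`); otherwise
`W (P'', u, u') ≤ W (P, u, u')`, `|P''| ≤ |P'|`, `cst P'' ≤ cst P' ≤ cst P + j`.
-/

namespace Pool.Agent.Ppr3

open Pool.Agent.Ppr Pool.Agent.Ppr2

variable {m : ℕ} (ψ : (Fin m → Bool) → Bool)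

private theorem prod_sg_Pot (P : Finset (List Bool × ℕ)) (f : List Bool × ℕ → Bool) :
    ∏ p ∈ P, sg (f p) = 1 ∨ ∏ p ∈ P, sg (f p) = -1 := by
  classical
  induction P using Finset.induction_on with
  | empty => left; rw [Finset.prod_empty]
  | insert a s ha ih =>
    rw [Finset.prod_insert ha]
    cases f a <;> rcases ih with h | h <;> rw [h] <;> simp [sg]

/-- `Del` is an even integer divided by `2 ^ n` -/
private theorem int_Pot (n : ℕ) (P : Finset (List Bool × ℕ)) (u u' : ℕ → Bool) :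
    ∃ k : ℤ, Del ψ n P u u' = (1 / 2 ^ n) * (2 * (k : ℝ)) ∧ |k| ≤ 2 ^ n := by
  have h1 : ∀ ξ : Fin n → Bool, ∃ c : ℤ,
      (∏ p ∈ P, sg (phi ψ p (appF ξ u)) - ∏ p ∈ P, sg (phi ψ p (appF ξ u'))) = 2 * c ∧
        |c| ≤ 1 := by
    intro ξ
    rcases prod_sg_Pot P fun p => phi ψ p (appF ξ u) with h | h <;>
    rcases prod_sg_Pot P fun p => phi ψ p (appF ξ u') with h' | h' <;> rw [h, h']
    · exact ⟨0, by norm_num, by norm_num⟩
    · exact ⟨1, by norm_num, by norm_num⟩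
    · exact ⟨-1, by norm_num, by norm_num⟩
    · exact ⟨0, by norm_num, by norm_num⟩
  choose c hc hc1 using h1
  refine ⟨∑ ξ, c ξ, ?_, ?_⟩
  · unfold Del
    congr 1
    rw [Int.cast_sum, Finset.mul_sum]
    refine Finset.sum_congr rfl fun ξ _ => ?_
    have h2 := hc ξ
    exact_mod_cast h2
  · refine (Finset.abs_sum_le_sum_abs _ _).trans ?_
    refine (Finset.sum_le_sum fun ξ _ => hc1 ξ).trans ?_
    rw [Finset.sum_const, Finset.card_univ, Fintype.card_fun, Fintype.card_bool,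
      Fintype.card_fin, nsmul_eq_mul, mul_one]
    push_cast
    exact le_rfl

private theorem sh_iter_Pot (h : ℕ) (v : ℕ → Bool) : sh^[h] v = fun k => v (k + h) := by
  induction h generalizing v with
  | zero => rfl
  | succ h ih =>
    rw [Function.iterate_succ_apply, ih]
    funext k
    unfold sh
    congr 1

private theorem phi_deep_Pot {l h : ℕ} (hh : l ≤ h) (ξ : Fin l → Bool) (u : ℕ → Bool) :
    phi ψ ([], h) (appF ξ u) = img ψ u (h - l) := by
  have e : ∀ k : ℕ, sh^[h] (appF ξ u) k = u (k + (h - l)) := by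
    intro k
    rw [sh_iter_Pot]
    show (if h_1 : k + h < l then ξ ⟨k + h, h_1⟩ else u (k + h - l)) = u (k + (h - l))
    rw [dif_neg (by omega)]
    congr 1
    omega
  unfold phi pos app img
  have e2 : (fun i : Fin m => (sh^[h] (appF ξ u)) (0 + 1 + i.1)) =
      fun i : Fin m => u (h - l + 1 + i.1) := by
    funext i
    rw [e]
    congr 1
    omega
  show xor ((sh^[h] (appF ξ u)) 0) (ψ fun i => (sh^[h] (appF ξ u)) (0 + 1 + i.1)) = _
  rw [e2, e 0, Nat.zero_add]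

theorem del_deep {l : ℕ} (hl : 0 < l) {u u' : ℕ → Bool} (h : Pr ψ u u') (P : Finset (List Bool × ℕ))
    (hP : ∀ p ∈ P, good m p) :
    |Del ψ l P u u'| = |Del ψ l (P.filter (fun p => p.2 < l)) u u'| := by
  classical
  obtain ⟨c, hc⟩ : ∃ c : ℤ, c = ∏ p ∈ P.filter (fun p => ¬ p.2 < l), sg (img ψ u (p.2 - l)) :=
    ⟨_, rfl⟩
  have hcl : |(c : ℝ)| = 1 := by
    rcases prod_sg_Pot (P.filter (fun p => ¬ p.2 < l)) (fun p => img ψ u (p.2 - l)) with h1 | h1
    · rw [hc, h1]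
      norm_num
    · rw [hc, h1]
      norm_num
  have hd : ∀ (v : ℕ → Bool), (∀ k, img ψ v k = img ψ u k) → ∀ ξ : Fin l → Bool,
      ∏ p ∈ P, (sg (phi ψ p (appF ξ v)) : ℝ) =
        (∏ p ∈ P.filter (fun p => p.2 < l), (sg (phi ψ p (appF ξ v)) : ℝ)) * c := by
    intro v hv ξ
    rw [← Finset.prod_filter_mul_prod_filter_not P (fun p => p.2 < l)]
    congr 1
    rw [hc, Int.cast_prod]
    refine Finset.prod_congr rfl fun p hp => ?_
    obtain ⟨hp1, hp2⟩ := Finset.mem_filter.1 hp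
    have hg := (hP p hp1).2
    have hp3 : p.1 = [] := by
      rcases hg with hg | hg
      · exact hg
      · omega
    obtain ⟨x, k⟩ := p
    simp only at hp3 hp2 ⊢
    subst hp3
    rw [phi_deep_Pot ψ (not_lt.1 hp2), hv]
  have hmain : Del ψ l P u u' = Del ψ l (P.filter (fun p => p.2 < l)) u u' * c := by
    unfold Del
    rw [mul_assoc, Finset.sum_mul]
    congr 1
    refine Finset.sum_congr rfl fun ξ _ => ?_
    rw [hd u (fun _ => rfl) ξ, hd u' (fun k => (h k).symm) ξ]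
    ring
  rw [hmain, abs_mul, hcl, mul_one]

theorem exists_pot {L l : ℕ} (hL : 3 ≤ L) (hl : 2 * L ≤ l)
    (hc : ∃ (P : Finset (List Bool × ℕ)) (u u' : ℕ → Bool), Pr ψ u u' ∧
      (∀ p ∈ P, good m p ∧ p.2 < l) ∧ P.card ≤ l + 1 ∧ (∑ p ∈ P, wt L l p) + 2 * L ≤ l ∧
      (1 / 2) ^ (2 * L) ≤ |Del ψ l P u u'|) :
    ∃ (P : Finset (List Bool × ℕ)) (u u' : ℕ → Bool), Pr ψ u u' ∧ P.Nonempty ∧
      (∀ p ∈ P, good m p ∧ p.2 < l) ∧ P.card ≤ 5 * l ∧
      (∃ i, L ≤ i ∧ i < l ∧ ([], i) ∉ P) ∧ (1 / 2) ^ (5 * l) ≤ |Del ψ l P u u'| ∧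
      ∀ (j : ℕ) (P' : Finset (List Bool × ℕ)), (∀ p ∈ P', good m p) →
        (∑ p ∈ P', wt L l p) ≤ (∑ p ∈ P, wt L l p) + j →
        |Del ψ l P' u u'| * 2 ^ P.card ≤ 2 ^ P'.card * (16 ^ j * |Del ψ l P u u'|) := by
  classical
  obtain ⟨d, rfl⟩ : ∃ d, l = 2 * L + d := ⟨l - 2 * L, by omega⟩
  obtain ⟨cst, hcst⟩ : ∃ cst : Finset (List Bool × ℕ) → ℕ,
      ∀ P, cst P = ∑ p ∈ P, wt L (2 * L + d) p := ⟨_, fun _ => rfl⟩
  obtain ⟨W, hW⟩ : ∃ W : Finset (List Bool × ℕ) → (ℕ → Bool) → (ℕ → Bool) → ℝ,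
      ∀ P u u', W P u u' = |Del ψ (2 * L + d) P u u'| / (2 ^ P.card * 16 ^ (cst P)) :=
    ⟨_, fun _ _ _ => rfl⟩
  have hfin : {p : List Bool × ℕ | good m p ∧ p.2 < 2 * L + d}.Finite := by
    refine ((List.finite_length_le Bool m).prod (Set.finite_Iio (2 * L + d))).subset ?_
    rintro ⟨x, h⟩ hp
    exact ⟨hp.1.1, hp.2⟩
  have hfin2 : {P : Finset (List Bool × ℕ) | ∀ p ∈ P, good m p ∧ p.2 < 2 * L + d}.Finite := by
    refine (Finset.finite_toSet hfin.toFinset.powerset).subset ?_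
    intro P hP
    rw [Finset.mem_coe, Finset.mem_powerset]
    intro p hp
    exact hfin.mem_toFinset.2 (hP p hp)
  obtain ⟨V, hV⟩ : ∃ V : Set ℝ, V = {w | ∃ (P : Finset (List Bool × ℕ)) (u u' : ℕ → Bool),
      P.Nonempty ∧ (∀ p ∈ P, good m p ∧ p.2 < 2 * L + d) ∧ Pr ψ u u' ∧ w = W P u u'} := ⟨_, rfl⟩
  have hVfin : V.Finite := by
    refine (hfin2.biUnion (t := fun P => (fun k : ℤ =>
      |(1 / 2 ^ (2 * L + d) : ℝ) * (2 * (k : ℝ))| / (2 ^ P.card * 16 ^ (cst P))) ''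
        Set.Icc (-2 ^ (2 * L + d)) (2 ^ (2 * L + d))) fun P _ =>
      (Set.finite_Icc _ _).image _).subset ?_
    rintro w hw
    rw [hV] at hw
    obtain ⟨P, u, u', _, h2, _, rfl⟩ := hw
    obtain ⟨k, hk, hk1⟩ := int_Pot ψ (2 * L + d) P u u'
    refine Set.mem_biUnion (Set.mem_setOf.2 h2) ⟨k, ?_, ?_⟩
    · exact Set.mem_Icc.2 (abs_le.1 hk1)
    · simp only
      rw [hW, hk]
  obtain ⟨P₁, u₁, u₁', hpr₁, hP₁, hcard₁, hcost₁, hdel₁⟩ := hc
  have hn₁ : P₁.Nonempty := by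
    rw [Finset.nonempty_iff_ne_empty]
    rintro rfl
    rw [del_empty, abs_zero] at hdel₁
    have : (0 : ℝ) < (1 / 2) ^ (2 * L) := by positivity
    linarith
  have hV₁ : W P₁ u₁ u₁' ∈ V := by
    rw [hV]
    exact ⟨P₁, u₁, u₁', hn₁, hP₁, hpr₁, rfl⟩
  obtain ⟨w, hwV, hmax⟩ := Set.exists_max_image V id hVfin ⟨_, hV₁⟩
  simp only [id] at hmax
  have hwV' := hwV
  rw [hV] at hwV'
  obtain ⟨P, u, u', hPn, hPg, hpr, hw⟩ := hwV'
  have hmax' : ∀ (P' : Finset (List Bool × ℕ)), P'.Nonempty →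
      (∀ p ∈ P', good m p ∧ p.2 < 2 * L + d) → W P' u u' ≤ w := by
    intro P' h1 h2
    apply hmax
    rw [hV]
    exact ⟨P', u, u', h1, h2, hpr, rfl⟩
  have hDel : |Del ψ (2 * L + d) P u u'| = w * (2 ^ P.card * 16 ^ (cst P)) := by
    rw [hw, hW, div_mul_cancel₀]
    positivity
  have hw1 : (1 / 2 : ℝ) ^ (4 * L + 5 * d + 1) ≤ w := by
    refine le_trans ?_ (hmax _ hV₁)
    rw [hW, le_div_iff₀ (by positivity)]
    refine le_trans ?_ hdel₁
    have h1 : (2 : ℝ) ^ P₁.card ≤ 2 ^ (2 * L + d + 1) := pow_le_pow_right₀ (by norm_num) hcard₁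
    have h2 : (16 : ℝ) ^ (cst P₁) ≤ 16 ^ d := by
      refine pow_le_pow_right₀ (by norm_num) ?_
      rw [hcst]
      omega
    have h3 : (2 : ℝ) ^ P₁.card * 16 ^ (cst P₁) ≤ 2 ^ (2 * L + d + 1) * 16 ^ d := by gcongr
    calc (1 / 2 : ℝ) ^ (4 * L + 5 * d + 1) * (2 ^ P₁.card * 16 ^ (cst P₁))
        ≤ (1 / 2) ^ (4 * L + 5 * d + 1) * (2 ^ (2 * L + d + 1) * 16 ^ d) := by gcongr
      _ = (1 / 2) ^ (2 * L) := by
        have e1 : (16 : ℝ) ^ d = 2 ^ (4 * d) := by rw [pow_mul]; norm_num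
        have e2 : (4 * L + 5 * d + 1) = 2 * L + ((2 * L + d + 1) + 4 * d) := by ring
        rw [e1, ← pow_add, e2, pow_add (1 / 2 : ℝ) (2 * L), mul_assoc, ← mul_pow]
        norm_num
  have hw0 : 0 < w := lt_of_lt_of_le (by positivity) hw1
  have hcard : 1 ≤ P.card := Finset.card_pos.2 hPn
  have h16 : ∀ k : ℕ, (1 : ℝ) ≤ 16 ^ k := fun k => one_le_pow₀ (by norm_num)
  have hdl := del_le ψ (2 * L + d) P u u'
  refine ⟨P, u, u', hpr, hPn, hPg, ?_, ?_, ?_, ?_⟩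
  · -- the cardinality
    by_contra hlt
    push Not at hlt
    have h1 : w * (2 ^ P.card * 1) ≤ 2 := by
      refine le_trans ?_ hdl
      rw [hDel]
      have := h16 (cst P)
      gcongr
    have h2 : (2 : ℝ) ^ (4 * L + 5 * d + 1 + 2) ≤ 2 ^ P.card :=
      pow_le_pow_right₀ (by norm_num) (by omega)
    have h3 : (1 / 2 : ℝ) ^ (4 * L + 5 * d + 1) * 2 ^ (4 * L + 5 * d + 1 + 2) ≤
        w * 2 ^ P.card := by gcongr
    have h4 : (1 / 2 : ℝ) ^ (4 * L + 5 * d + 1) * 2 ^ (4 * L + 5 * d + 1 + 2) = 4 := by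
      rw [pow_add (2 : ℝ) _ 2, ← mul_assoc, ← mul_pow]
      norm_num
    linarith
  · -- a missing position
    by_contra hall
    push Not at hall
    obtain ⟨I, hI⟩ : ∃ I : Finset (List Bool × ℕ),
        I = (Finset.Ico L (2 * L + d)).image fun i => (([] : List Bool), i) := ⟨_, rfl⟩
    have hIP : I ⊆ P := by
      rw [hI]
      intro p hp
      obtain ⟨i, hi, rfl⟩ := Finset.mem_image.1 hp
      rw [Finset.mem_Ico] at hi
      exact hall i hi.1 hi.2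
    have hIc : I.card = L + d := by
      rw [hI, Finset.card_image_of_injective _ (fun a b hab => (Prod.mk.inj hab).2), Nat.card_Ico]
      omega
    have hPc : L + d ≤ P.card := by
      rw [← hIc]
      exact Finset.card_le_card hIP
    have hcP : L + d ≤ cst P := by
      rw [hcst]
      refine le_trans ?_ (Finset.sum_le_sum_of_subset hIP)
      have h1 : ∀ p ∈ I, wt L (2 * L + d) p = 1 := by
        intro p hp
        rw [hI] at hp
        obtain ⟨i, hi, rfl⟩ := Finset.mem_image.1 hp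
        rw [Finset.mem_Ico] at hi
        unfold wt
        rw [if_pos hi]
      rw [Finset.sum_congr rfl h1, Finset.sum_const, hIc, smul_eq_mul, mul_one]
    have h1 : w * (2 ^ (L + d) * 16 ^ (L + d)) ≤ 2 := by
      refine le_trans ?_ hdl
      rw [hDel]
      have a1 : (2 : ℝ) ^ (L + d) ≤ 2 ^ P.card := pow_le_pow_right₀ (by norm_num) hPc
      have a2 : (16 : ℝ) ^ (L + d) ≤ 16 ^ (cst P) := pow_le_pow_right₀ (by norm_num) hcP
      gcongr
    have h2 : (1 / 2 : ℝ) ^ (4 * L + 5 * d + 1) * (2 ^ (L + d) * 16 ^ (L + d)) ≤ 2 := by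
      refine le_trans ?_ h1
      gcongr
    have e1 : (2 : ℝ) ^ (L + d) * 16 ^ (L + d) = 2 ^ (5 * (L + d)) := by
      rw [← mul_pow, pow_mul]
      norm_num
    have h3 : (2 : ℝ) ^ (4 * L + 5 * d + 1 + 3) ≤ 2 ^ (5 * (L + d) + 1) :=
      pow_le_pow_right₀ (by norm_num) (by omega)
    have h4 : (1 / 2 : ℝ) ^ (4 * L + 5 * d + 1) * 2 ^ (4 * L + 5 * d + 1 + 3) = 8 := by
      rw [pow_add (2 : ℝ) _ 3, ← mul_assoc, ← mul_pow]
      norm_num
    rw [e1] at h2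
    have h5 : (1 / 2 : ℝ) ^ (4 * L + 5 * d + 1) * 2 ^ (4 * L + 5 * d + 1 + 3) ≤
        (1 / 2 : ℝ) ^ (4 * L + 5 * d + 1) * 2 ^ (5 * (L + d) + 1) := by gcongr
    rw [pow_succ (2 : ℝ) (5 * (L + d)), ← mul_assoc, h4] at h5
    linarith
  · -- the lower bound
    have h1 : (1 / 2 : ℝ) ^ (5 * (2 * L + d)) ≤ (1 / 2) ^ (4 * L + 5 * d + 1) :=
      pow_le_pow_of_le_one (by norm_num) (by norm_num) (by omega)
    have h2 : w * (1 * 1) ≤ |Del ψ (2 * L + d) P u u'| := by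
      rw [hDel]
      have a1 : (1 : ℝ) ≤ 2 ^ P.card := one_le_pow₀ (by norm_num)
      have a2 := h16 (cst P)
      gcongr
    rw [mul_one, mul_one] at h2
    exact (h1.trans hw1).trans h2
  · -- maximality
    intro j P' hP' hcost'
    obtain ⟨P2, hP2⟩ : ∃ P2, P2 = P'.filter (fun p => p.2 < 2 * L + d) := ⟨_, rfl⟩
    have hdeep : |Del ψ (2 * L + d) P' u u'| = |Del ψ (2 * L + d) P2 u u'| := by
      rw [hP2]
      exact del_deep ψ (by omega) hpr P' hP'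
    rw [hdeep]
    rcases P2.eq_empty_or_nonempty with hE | hN
    · rw [hE, del_empty, abs_zero, zero_mul]
      positivity
    have h1 : W P2 u u' ≤ w := by
      refine hmax' P2 hN fun p hp => ?_
      rw [hP2] at hp
      obtain ⟨a1, a2⟩ := Finset.mem_filter.1 hp
      exact ⟨hP' p a1, a2⟩
    rw [hW, div_le_iff₀ (by positivity)] at h1
    have hsub : P2 ⊆ P' := by
      rw [hP2]
      exact Finset.filter_subset _ _
    have h2 : (2 : ℝ) ^ P2.card ≤ 2 ^ P'.card :=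
      pow_le_pow_right₀ (by norm_num) (Finset.card_le_card hsub)
    have h3 : (16 : ℝ) ^ (cst P2) ≤ 16 ^ (cst P + j) := by
      refine pow_le_pow_right₀ (by norm_num) ?_
      rw [hcst, hcst]
      exact (Finset.sum_le_sum_of_subset hsub).trans hcost'
    calc |Del ψ (2 * L + d) P2 u u'| * 2 ^ P.card
        ≤ (w * (2 ^ P2.card * 16 ^ (cst P2))) * 2 ^ P.card := by gcongr
      _ ≤ (w * (2 ^ P'.card * 16 ^ (cst P + j))) * 2 ^ P.card := by gcongr
      _ = 2 ^ P'.card * (16 ^ j * |Del ψ (2 * L + d) P u u'|) := by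
        rw [hDel, pow_add]
        ring

end Pool.Agent.Ppr3
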