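import Pool.Agent.Ppr3.Gap3
import Pool.Agent.Ppr3.GapU
import Pool.Agent.Ppr3.Pot
import Pool.Agent.Ppr3.CandB
import Pool.Agent.Ppr2.GapSep

/-!
# The separator when the residuals mix

As `gap_sep` in `Ppr2/GapSep.lean` with `K = 1`. `cand_pos`, `exists_pot` (`A = 16`),
`exists_pt`, `G = G1 pt l P u u'`: `G1_hom`, `G1_van3` (with the `i ≥ L` of `exists_pot`,
`M ≤ 2^L ≤ 2^(i+1)`), `G1_nrm`, `G1_unit3` (`|P| ≤ 5 l ≤ 5 (2 L (6 L + 1))`). The inverse at `w0`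
has norm `≤ 1 / (|Δ| - |Δ|/10) ≤ (10/9) 2^(5 l) ≤ 4^(5 l)`, `l ≥ 1`.
-/

namespace Pool.Agent.Ppr3

open PowerSeries Pool.Agent.Ppr Pool.Agent.Ppr2

variable {ι : Type} {σ : ι → ι} {w0 w' : ι → Bool} {m : ℕ} {ψ : (Fin m → Bool) → Bool}

theorem gap_sep3 {r : ℝ} (hr : 0 < r) (hr2 : r ≤ 1 / 64) {M M2 : ℕ} (hM : 0 < M)
    (hM2 : M + m ≤ M2) (hfull : full σ w' M2)
    (hψ : ∀ i, w0 i = xor (w' i) (ψ fun l : Fin m => w' (σ^[l.1 + 1] i)))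
    (hm : 1 ≤ m) (hnc : ∃ x y, ψ x ≠ ψ y) {L : ℕ} (hL : 3 ≤ L) (hML : M ≤ 2 ^ L)
    (hU : Unf ψ (2 * L)) (hβ : img ψ (fun _ => true) 0 ≠ img ψ (fun _ => false) 0)
    (hrA : r * 16 * (90 * (5 * (2 * L * (6 * L + 1)) : ℕ)) ≤ 1) :
    ∃ g G, IsSepr r σ M w0 w' g (5 * (2 * L * (6 * L + 1))) G := by
  obtain ⟨l, P₁, u₁, u₁', hl1, hl2, hpr, hP1, hc1, hw1, hd1⟩ :=
    cand_pos ψ hm hnc (L := L) (by omega) hU hβ
  obtain ⟨P, u, u', -, hPn, hPg, hPc, ⟨i, hi1, hi2, hi3⟩, hlow, hbd⟩ :=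
    exists_pot ψ hL hl1 ⟨P₁, u₁, u₁', hpr, hP1, hc1, hw1, hd1⟩
  obtain ⟨pt, hpt⟩ := exists_pt hfull
  obtain ⟨Δ, hΔ⟩ : ∃ Δ, Δ = Del ψ l P u u' := ⟨_, rfl⟩
  obtain ⟨G, hG⟩ : ∃ G, G = G1 pt l P u u' := ⟨_, rfl⟩
  obtain ⟨N, hN⟩ : ∃ N, N = 5 * (2 * L * (6 * L + 1)) := ⟨_, rfl⟩
  rw [← hN] at hrA
  rw [← hN]
  have hPN : P.card ≤ N := by
    rw [hN]
    exact hPc.trans (Nat.mul_le_mul_left 5 hl2)
  have hlN : 5 * l ≤ N := by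
    rw [hN]
    exact Nat.mul_le_mul_left 5 hl2
  have h4 : (0 : ℝ) < (1 / 2) ^ (5 * l) := by positivity
  rw [← hΔ] at hlow
  have hΔ0 : 0 < |Δ| := h4.trans_le hlow
  have hhom : G.IsHomogeneous P.card := by
    rw [hG]
    exact G1_hom pt l P _ _
  have hMi : M ≤ 2 ^ (i + 1) :=
    hML.trans (Nat.pow_le_pow_right (by norm_num) (by omega))
  have hvan : X ^ M ∣ eps σ w' G := by
    rw [hG]
    exact G1_van3 hpt (by omega) hi2 hMi P hPg hi3 u u'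
  have hnrm : ∀ w : ι → Bool, nrmr r M (eps σ w G) ≤ 5 ^ P.card := by
    intro w
    rw [hG]
    exact G1_nrm hr.le hr2 pt l P hPn _ _ M w
  have hrA' : r * 16 * (90 * P.card) ≤ 1 := by
    refine le_trans ?_ hrA
    have h1 : (P.card : ℝ) ≤ (N : ℝ) := by exact_mod_cast hPN
    have h2 : 0 ≤ r * 16 := by positivity
    refine mul_le_mul_of_nonneg_left ?_ h2
    exact mul_le_mul_of_nonneg_left h1 (by norm_num)
  have hunit : nrmr r M (eps σ w0 G - C Δ) ≤ |Δ| / 10 := by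
    rw [hG, hΔ]
    exact G1_unit3 hr.le hM2 hpt hψ l L l P hPn (fun p hp => (hPg p hp).1) u u'
      (by norm_num) hrA' hbd
  have hc : constantCoeff (eps σ w0 G) ≠ 0 :=
    constr_ne_zero hr.le hM hunit (by linarith)
  obtain ⟨inv, hinv⟩ := exists_inv hc
  have hinvn : nrmr r M inv ≤ 4 ^ (5 * l) := by
    refine (nrmr_inv_le hr.le hunit (by linarith) hinv).trans ?_
    rw [div_le_iff₀ (by linarith)]
    have h5 : (4 : ℝ) ^ (5 * l) * (1 / 2) ^ (5 * l) = 2 ^ (5 * l) := by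
      rw [← mul_pow]
      norm_num
    have h6 : (0 : ℝ) < 4 ^ (5 * l) := by positivity
    have h7 : (4 : ℝ) ^ (5 * l) * (1 / 2) ^ (5 * l) ≤ 4 ^ (5 * l) * |Δ| :=
      mul_le_mul_of_nonneg_left hlow h6.le
    have h8 : (2 : ℝ) ≤ 2 ^ (5 * l) := by
      calc (2 : ℝ) = 2 ^ 1 := by norm_num
        _ ≤ 2 ^ (5 * l) := pow_le_pow_right₀ (by norm_num) (by omega)
    rw [h5] at h7
    nlinarith
  refine ⟨P.card, G, hhom, hPN, hvan, ⟨inv, hinv, ?_⟩, ?_⟩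
  · exact hinvn.trans (pow_le_pow_right₀ (by norm_num) hlN)
  · intro w
    exact (hnrm w).trans (pow_le_pow_right₀ (by norm_num) hPN)

end Pool.Agent.Ppr3
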