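import Pool.Agent.Ppr3.SmA

/-!
# No test of small degree: the residual is independent of the tail after `n` letters

The proof of `vec_eq` in `Ppr2/ResA.lean`: with the same `τ` (for `t, t0`) all `τ f = 0`. So for
every function `G` of the vector, `∑_ξ G (vec (appF ξ (ext t)))` is independent of `t`
(`∑_f τ f G f = 0`). A function `g` of the residual is `G ∘ vec` (`G f = g z` for some `z` with
`vec z = f`, `0` if there is none). For a general word `z`: `Eqv ψ z (ext t)` with `t i = z i`
(`eqv_win`), and `Eqv` is preserved by letters in front (`eqv_cons`; induction on `n` with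
`appF`, or `sm_eq` and `eqv_Fb` when `m ≥ 1`; if `m = 0` every function `g` of the residual is
constant).
-/

namespace Pool.Agent.Ppr3

open Pool.Agent.Ppr Pool.Agent.Ppr2

variable {m : ℕ} (ψ : (Fin m → Bool) → Bool)

private theorem SmB_appF_congr {n : ℕ} : ∀ {z z' : ℕ → Bool}, Eqv ψ z z' →
    ∀ ξ : Fin n → Bool, Eqv ψ (appF ξ z) (appF ξ z') := by
  induction n with
  | zero =>
    intro z z' h ξ
    have e : ∀ y : ℕ → Bool, appF ξ y = y := by
      intro y
      funext k
      unfold appF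
      rw [dif_neg (Nat.not_lt_zero k), Nat.sub_zero]
    rw [e, e]
    exact h
  | succ n ih =>
    intro z z' h ξ
    have e : ∀ y : ℕ → Bool, appF ξ y = appF (Fin.init ξ : Fin n → Bool)
        (cons (ξ (Fin.last n)) y) := by
      intro y
      rw [← appF_snoc, Fin.snoc_init_self]
    rw [e, e]
    exact ih (eqv_cons ψ h _) _

private theorem SmB_key (n : ℕ)
    (h : ∀ (P : Finset (List Bool × ℕ)) (t t' : Fin m → Bool),
      (∀ p ∈ P, p.1.length ≤ m ∧ p.2 = 0) → P.card ≤ n + 1 →
      Del ψ n P (ext t) (ext t') = 0) (t t0 : Fin m → Bool)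
    (G : ({x : List Bool // 1 ≤ x.length ∧ x.length ≤ m} → Bool) → ℝ) :
    ∑ ξ : Fin n → Bool, G (fun x => phi ψ (x.1, 0) (appF ξ (ext t))) =
      ∑ ξ : Fin n → Bool, G (fun x => phi ψ (x.1, 0) (appF ξ (ext t0))) := by
  classical
  let α : Type := {x : List Bool // 1 ≤ x.length ∧ x.length ≤ m}
  have hfin : Finite α := by
    have h1 : {x : List Bool | x.length ≤ m}.Finite := List.finite_length_le Bool m
    have h2 : {x : List Bool | 1 ≤ x.length ∧ x.length ≤ m}.Finite :=
      h1.subset fun x hx => hx.2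
    exact h2.to_subtype
  have _hα : Fintype α := Fintype.ofFinite α
  let vec : (ℕ → Bool) → α → Bool := fun z x => phi ψ (x.1, 0) z
  let τ : (α → Bool) → ℝ := fun f => ∑ ξ : Fin n → Bool,
    ((if vec (appF ξ (ext t)) = f then (1 : ℝ) else 0) -
      (if vec (appF ξ (ext t0)) = f then (1 : ℝ) else 0))
  have hmom : ∀ Q : Finset α, Q.card ≤ n + 1 → ∑ f, τ f * ∏ i ∈ Q, (sg (f i) : ℝ) = 0 := by
    intro Q hQ
    obtain ⟨P, hP⟩ : ∃ P : Finset (List Bool × ℕ), P = Q.image fun x : α => (x.1, 0) := ⟨_, rfl⟩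
    have hPm : ∀ p ∈ P, p.1.length ≤ m ∧ p.2 = 0 := by
      intro p hp
      rw [hP, Finset.mem_image] at hp
      obtain ⟨x, _, rfl⟩ := hp
      exact ⟨x.2.2, rfl⟩
    have hPc : P.card ≤ n + 1 := by
      rw [hP]
      exact Finset.card_image_le.trans hQ
    have hprod : ∀ z : ℕ → Bool, ∏ p ∈ P, (sg (phi ψ p z) : ℝ) =
        ∏ i ∈ Q, (sg (vec z i) : ℝ) := by
      intro z
      rw [hP, Finset.prod_image]
      intro x _ y _ hxy
      exact Subtype.ext (congrArg Prod.fst hxy)
    have h0 := h P t t0 hPm hPc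
    unfold Del at h0
    have h2n : (1 / 2 ^ n : ℝ) ≠ 0 := by positivity
    have h3 := (mul_eq_zero.1 h0).resolve_left h2n
    simp only [hprod] at h3
    rw [← h3]
    simp only [τ, Finset.sum_mul]
    rw [Finset.sum_comm]
    refine Finset.sum_congr rfl fun ξ _ => ?_
    simp only [sub_mul, Finset.sum_sub_distrib, ite_mul, one_mul, zero_mul, Finset.sum_ite_eq,
      Finset.mem_univ, if_true]
  have hτ0 : ∀ f, τ f = 0 := by
    by_contra hc
    push Not at hc
    have h1 : 2 ^ (n + 1 + 1) ≤ (Finset.univ.filter fun v => τ v ≠ 0).card := by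
      have h1' := cube (n + 1) τ hc (fun Q hQ =>
        (Finset.sum_congr (by ext f; simp only [Finset.mem_univ]) fun _ _ => rfl).trans
          (hmom Q hQ))
      refine h1'.trans (le_of_eq (congrArg Finset.card ?_))
      ext f
      rw [Finset.mem_filter, Finset.mem_filter]
      exact ⟨fun h => ⟨@Finset.mem_univ _ (_) _, h.2⟩, fun h => ⟨@Finset.mem_univ _ (_) _, h.2⟩⟩
    have hsub : (Finset.univ.filter fun v => τ v ≠ 0) ⊆
        (Finset.univ.image fun ξ : Fin n → Bool => vec (appF ξ (ext t))) ∪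
        (Finset.univ.image fun ξ : Fin n → Bool => vec (appF ξ (ext t0))) := by
      intro f hf
      rw [Finset.mem_filter] at hf
      by_contra hf'
      rw [Finset.mem_union, Finset.mem_image, Finset.mem_image, not_or] at hf'
      apply hf.2
      refine Finset.sum_eq_zero fun ξ _ => ?_
      rw [if_neg fun he => hf'.1 ⟨ξ, Finset.mem_univ _, he⟩,
        if_neg fun he => hf'.2 ⟨ξ, Finset.mem_univ _, he⟩, sub_zero]
    have hcard : (Finset.univ.filter fun v => τ v ≠ 0).card ≤ 2 ^ n + 2 ^ n := by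
      refine (Finset.card_le_card hsub).trans ((Finset.card_union_le _ _).trans ?_)
      have h4 : ∀ g : (Fin n → Bool) → (α → Bool), (Finset.univ.image g).card ≤ 2 ^ n := by
        intro g
        refine Finset.card_image_le.trans (le_of_eq ?_)
        rw [Finset.card_univ, Fintype.card_fun, Fintype.card_bool, Fintype.card_fin]
      exact Nat.add_le_add (h4 _) (h4 _)
    have h5 : 2 ^ (n + 1 + 1) ≤ 2 ^ n + 2 ^ n := h1.trans hcard
    have h6 : 2 ^ (n + 1 + 1) = 4 * 2 ^ n := by ring
    have h7 : 0 < 2 ^ n := by positivity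
    omega
  have h8 : ∑ f, τ f * G f = 0 := Finset.sum_eq_zero fun f _ => by rw [hτ0 f, zero_mul]
  simp only [τ, Finset.sum_mul] at h8
  rw [Finset.sum_comm] at h8
  simp only [sub_mul, Finset.sum_sub_distrib, ite_mul, one_mul, zero_mul, Finset.sum_ite_eq,
    Finset.mem_univ, if_true] at h8
  exact sub_eq_zero.1 h8

theorem unf_of (n : ℕ)
    (h : ∀ (P : Finset (List Bool × ℕ)) (t t' : Fin m → Bool),
      (∀ p ∈ P, p.1.length ≤ m ∧ p.2 = 0) → P.card ≤ n + 1 →
      Del ψ n P (ext t) (ext t') = 0) : Unf ψ n := by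
  classical
  intro g hg z z'
  -- `g` is a function of the residual vector
  let G : ({x : List Bool // 1 ≤ x.length ∧ x.length ≤ m} → Bool) → ℝ := fun f =>
    if hf : ∃ y : ℕ → Bool, (fun x : {x : List Bool // 1 ≤ x.length ∧ x.length ≤ m} =>
      phi ψ (x.1, 0) y) = f then g hf.choose else 0
  have hG : ∀ y : ℕ → Bool, g y = G fun x => phi ψ (x.1, 0) y := by
    intro y
    have hf : ∃ y' : ℕ → Bool, (fun x : {x : List Bool // 1 ≤ x.length ∧ x.length ≤ m} =>
      phi ψ (x.1, 0) y') = fun x => phi ψ (x.1, 0) y := ⟨y, rfl⟩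
    simp only [G]
    rw [dif_pos hf]
    refine hg _ _ fun x h1 h2 => ?_
    exact (congrFun hf.choose_spec ⟨x, h1, h2⟩).symm
  have key : ∀ y : ℕ → Bool, Sm ψ n g y =
      ∑ ξ : Fin n → Bool, G (fun x => phi ψ (x.1, 0) (appF ξ (ext fun i : Fin m => y i.1))) := by
    intro y
    rw [sm_eq]
    refine Finset.sum_congr rfl fun ξ _ => ?_
    rw [← hG]
    refine hg _ _ (SmB_appF_congr ψ (eqv_win ψ fun k hk => ?_) ξ)
    unfold ext
    rw [dif_pos hk]
  rw [key z, key z']
  exact SmB_key ψ n h _ _ G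

end Pool.Agent.Ppr3
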