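import Pool.Agent.Ppr3.GapSep3
import Pool.Agent.Ppr3.SmB
import Pool.Agent.Ppr2.Sepr

/-!
# Every pair of different cusps has a cheap separator

The proof of `exists_sepr` in `Ppr2/Sepr.lean` (copy the private `win_Sepr`, `div_Sepr`), with the
last case changed: if there is a test of degree `≤ 2 L + 1` at the level `2 L` then `gap_sep` with
`H = L - 1`, `K = 1`, `A = 16` (`n = H + 1 + L = 2 L`, `4^(2 L) = 16^L`; the cost is
`1 * (2 (H + 1 + L) + 1) = 4 L + 1`); otherwise `unf_of ψ (2 L)` gives `Unf ψ (2 L)`, and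
`gap_sep3`: `m ≥ 1` since `ψ` is not constant; `img ψ (fun _ => true) 0 = w0 a`,
`img ψ (fun _ => false) 0 = w0 a'` for the points `a, a'` with constant windows (`hψ`).
-/

namespace Pool.Agent.Ppr3

open PowerSeries Pool.Agent.Ppr Pool.Agent.Ppr2

variable {ι : Type} {σ : ι → ι} {M : ℕ} {w0 w' : ι → Bool}

/-- the bound for the cost of a separator -/
def D3 (M b L : ℕ) : ℕ := M / b + 3 + (4 * L + 1) + 5 * (2 * L * (6 * L + 1))

/-- prescribed letters -/
private theorem win_Sepr3 {N b : ℕ} (hbM : b + 1 ≤ N) (hfull : full σ w' N) (x : Fin b → Bool)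
    (c : Bool) : ∃ i, w' i = c ∧ ∀ l : Fin b, w' (σ^[l.1 + 1] i) = x l := by
  obtain ⟨i, hi⟩ := hfull (fun k => if h : 0 < k.1 ∧ k.1 - 1 < b then x ⟨k.1 - 1, h.2⟩ else c)
  refine ⟨i, ?_, fun l => ?_⟩
  · have h1 := congrFun hi ⟨0, by omega⟩
    have h2 : w' (σ^[0] i) = c := by
      refine h1.trans (dif_neg ?_)
      intro h
      exact absurd h.1 (lt_irrefl _)
    exact h2
  · have h1 := congrFun hi ⟨l.1 + 1, by omega⟩
    have h3 : 0 < l.1 + 1 ∧ l.1 + 1 - 1 < b := ⟨Nat.succ_pos _, by simp⟩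
    have h2 : w' (σ^[l.1 + 1] i) = x ⟨l.1 + 1 - 1, h3.2⟩ := h1.trans (dif_pos h3)
    rw [h2]
    congr 1

private theorem div_Sepr3 (M b : ℕ) (hb : 0 < b) : M ≤ (M / b + 1) * b := by
  have h1 := Nat.div_add_mod M b
  have h2 := Nat.mod_lt M hb
  rw [add_mul, one_mul, mul_comm (M / b) b]
  omega

theorem exists_sepr3 {r : ℝ} (hr : 0 < r) (hr2 : r ≤ 1 / 64) {M2 b L : ℕ} (hb : 0 < b)
    (hbM : M + b ≤ M2) (hM : 2 ≤ M) (hfull : full σ w' M2) (hfull0 : full σ w0 M2)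
    (hne : w0 ≠ w') (hne' : w0 ≠ fun i => !(w' i)) (hL : 3 ≤ L) (hML : M ≤ 2 ^ L)
    (hL2 : 2 ^ L ≤ M2) (hrA : r * 16 * (90 * (5 * (2 * L * (6 * L + 1)) : ℕ)) ≤ 1) :
    ∃ g κ G, κ ≤ D3 M b L ∧ IsSepr r σ M w0 w' g κ G := by
  classical
  have hk : M ≤ (M / b + 1) * b := div_Sepr3 M b hb
  have hD1 : M / b + 3 ≤ D3 M b L := by
    unfold D3
    exact (Nat.le_add_right _ _).trans (Nat.le_add_right _ _)
  have hD2 : 4 * L + 1 ≤ D3 M b L := by
    unfold D3
    exact (Nat.le_add_left _ _).trans (Nat.le_add_right _ _)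
  have hD3 : 5 * (2 * L * (6 * L + 1)) ≤ D3 M b L := by
    unfold D3
    exact Nat.le_add_left _ _
  have hk2 : M / b + 1 ≤ D3 M b L := by omega
  by_cases c1 : ∃ i j, w0 i ≠ w0 j ∧ agr σ w' b i j
  · obtain ⟨i, j, h0, h⟩ := c1
    exact ⟨_, _, _, hk2, of_sep hr.le hr2 (sep_sub h0 h hk)⟩
  by_cases c2 : ∃ i j, w0 i = w0 j ∧ w' i ≠ w' j ∧
      ∀ l, 0 < l → l < b → w' (σ^[l] i) = w' (σ^[l] j)
  · obtain ⟨i, j, h0, h1, h⟩ := c2
    exact ⟨_, _, _, hk2, of_sep hr.le hr2 (sep_add h0 h1 h hk)⟩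
  push Not at c1 c2
  obtain ⟨a, ha⟩ := hfull (fun _ => true)
  obtain ⟨a', ha'⟩ := hfull (fun _ => false)
  have ha1 : ∀ k < M, w' (σ^[k] a) = true := fun k hk => congrFun ha ⟨k, by omega⟩
  have ha1' : ∀ k < M, w' (σ^[k] a') = false := fun k hk => congrFun ha' ⟨k, by omega⟩
  by_cases hab : w0 a = w0 a'
  · obtain ⟨i, hi⟩ := hfull0 (fun _ => true)
    obtain ⟨j, hj⟩ := hfull0 (fun _ => false)
    have hi1 : w0 (σ i) = true := congrFun hi ⟨1, by omega⟩
    have hj1 : w0 (σ j) = false := congrFun hj ⟨1, by omega⟩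
    refine ⟨_, _, _, ?_, of_sep hr.le hr2 (sep_quad ha1 ha1' hab (i := i) (j := j) ?_)⟩
    · exact (by norm_num : 2 ≤ 3).trans ((Nat.le_add_left 3 _).trans hD1)
    · rw [hi1, hj1]
      exact Bool.true_eq_false_eq_False
  obtain ⟨m, rfl⟩ : ∃ m, b = m + 1 := ⟨b - 1, by omega⟩
  have hwin := win_Sepr3 (σ := σ) (b := m) (by omega) hfull
  choose J hJ1 hJ2 using fun x => hwin x true
  let ψ : (Fin m → Bool) → Bool := fun x => xor (w' (J x)) (w0 (J x))
  have hψ : ∀ i, w0 i = xor (w' i) (ψ fun l : Fin m => w' (σ^[l.1 + 1] i)) := by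
    intro i
    have e1 := hJ2 (fun l : Fin m => w' (σ^[l.1 + 1] i))
    generalize hj : J (fun l : Fin m => w' (σ^[l.1 + 1] i)) = j at e1
    show w0 i = xor (w' i) (xor (w' (J _)) (w0 (J _)))
    rw [hj]
    have e2 : ∀ l, 0 < l → l < m + 1 → w' (σ^[l] i) = w' (σ^[l] j) := by
      intro l hl0 hl
      have e3 := e1 ⟨l - 1, by omega⟩
      have e4 : l - 1 + 1 = l := by omega
      simp only [e4] at e3
      exact e3.symm
    by_cases e5 : w' i = w' j
    · have e6 : w0 i = w0 j := by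
        by_contra hcon
        refine c1 i j hcon ?_
        intro l hl
        rcases Nat.eq_zero_or_pos l with hl0 | hl0
        · rw [hl0]
          exact e5
        · exact e2 l hl0 hl
      rw [e5, e6]
      cases w' j <;> cases w0 j <;> rfl
    · have e6 : w0 i ≠ w0 j := by
        intro hcon
        obtain ⟨l, hl0, hl, hl'⟩ := c2 i j hcon e5
        exact hl' (e2 l hl0 hl)
      revert e5 e6
      cases w' i <;> cases w' j <;> cases w0 i <;> cases w0 j <;> simp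
  have hnc : ∃ x y, ψ x ≠ ψ y := by
    by_contra hcon
    push Not at hcon
    have h1 : ∀ i, w0 i = xor (w' i) (ψ fun _ => true) := by
      intro i
      rw [hψ i, hcon _ fun _ => true]
    cases hc : ψ (fun _ => true)
    · refine hne (funext fun i => ?_)
      rw [h1 i, hc]
      cases w' i <;> rfl
    · refine hne' (funext fun i => ?_)
      rw [h1 i, hc]
      cases w' i <;> rfl
  by_cases hP : ∃ (P : Finset (List Bool × ℕ)) (t t' : Fin m → Bool),
      (∀ p ∈ P, p.1.length ≤ m ∧ p.2 = 0) ∧ P.card ≤ 2 * L + 1 ∧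
      Del ψ (2 * L) P (ext t) (ext t') ≠ 0
  · obtain ⟨H, rfl⟩ : ∃ H, L = H + 1 := ⟨L - 1, by omega⟩
    have e0 : H + 1 + (H + 1) = 2 * (H + 1) := by omega
    have hA : (4 : ℝ) ^ (H + 1 + (H + 1)) ≤ (16 : ℝ) ^ (H + 1) := by
      rw [e0, pow_mul]
      norm_num
    have hrA' : r * 16 * (90 * (2 * (H + 1 + (H + 1)) + 1 : ℕ)) ≤ 1 := by
      refine le_trans ?_ hrA
      have h1 : (2 * (H + 1 + (H + 1)) + 1 : ℕ) ≤
          5 * (2 * (H + 1) * (6 * (H + 1) + 1)) := by nlinarith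
      have h2 : ((2 * (H + 1 + (H + 1)) + 1 : ℕ) : ℝ) ≤
          ((5 * (2 * (H + 1) * (6 * (H + 1) + 1)) : ℕ) : ℝ) := by exact_mod_cast h1
      have h3 : 0 ≤ r * 16 := by linarith
      exact mul_le_mul_of_nonneg_left (mul_le_mul_of_nonneg_left h2 (by norm_num)) h3
    have hP' : ∃ (P : Finset (List Bool × ℕ)) (t t' : Fin m → Bool),
        (∀ p ∈ P, p.1.length ≤ m ∧ p.2 = 0) ∧ P.card ≤ H + 1 + (H + 1) + 1 ∧
        Del ψ (H + 1 + (H + 1)) P (ext t) (ext t') ≠ 0 := by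
      rw [e0]
      exact hP
    obtain ⟨g, G, hG⟩ := gap_sep hr hr2 (by omega : 0 < M) (by omega : M + m ≤ M2) hfull hψ H
      (H + 1) 1 hL2 (by omega : M ≤ 1 * 2 ^ (H + 1)) (by norm_num : (1 : ℝ) ≤ 16) hA hrA' hP'
    refine ⟨g, _, G, ?_, hG⟩
    refine le_trans (le_of_eq ?_) hD2
    omega
  · have hU : Unf ψ (2 * L) := by
      refine unf_of ψ (2 * L) fun P t t' h1 h2 => ?_
      by_contra h3
      exact hP ⟨P, t, t', h1, h2, h3⟩
    have hm : 1 ≤ m := by
      rcases Nat.eq_zero_or_pos m with h0 | h0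
      · exfalso
        subst h0
        obtain ⟨x, y, hxy⟩ := hnc
        exact hxy (congrArg ψ (Subsingleton.elim x y))
      · exact h0
    have hb1 : img ψ (fun _ => true) 0 = w0 a := by
      rw [hψ a]
      have e1 : w' a = true := ha1 0 (by omega)
      have e2 : (fun l : Fin m => w' (σ^[l.1 + 1] a)) = fun _ => true := by
        funext l
        exact congrFun ha ⟨l.1 + 1, by omega⟩
      rw [e1, e2]
      rfl
    have hb2 : img ψ (fun _ => false) 0 = w0 a' := by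
      rw [hψ a']
      have e1 : w' a' = false := ha1' 0 (by omega)
      have e2 : (fun l : Fin m => w' (σ^[l.1 + 1] a')) = fun _ => false := by
        funext l
        exact congrFun ha' ⟨l.1 + 1, by omega⟩
      rw [e1, e2]
      rfl
    obtain ⟨g, G, hG⟩ := gap_sep3 hr hr2 (by omega : 0 < M) (by omega : M + m ≤ M2) hfull hψ
      hm hnc hL hML hU (by rw [hb1, hb2]; exact hab) hrA
    exact ⟨g, _, G, hD3, hG⟩

end Pool.Agent.Ppr3
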