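import Pool.Agent.Ppr.Num
import Pool.Agent.Ppr3.Sepr3
import Pool.Agent.Ppr3.Onto3A

/-!
# The choice of the parameters

Let `x = log s`, `l = log x`, `N > C s (1 + l)^22`. As in `Ppr2/NumC.lean` (copy the private
`NumC_en`, `NumC_last`): `E ≤ 5 N x`, so `Q = 5200 s E / N^2 ≤ 26000 s x / N`.
`M = ⌊x/4000⌋`, `L = Nat.clog 2 M` (so `2^(L-1) < M ≤ 2^L`, `L ≤ log2 M + 1 ≤ 2 l` for large `s`;
`3 ≤ L`), `r = 1 / (16 * (90 * (5 * (2 L (6 L + 1)))))`, so `1 / r ≤ 14400 * 7 * L^2` and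
`1 / eta3 r ^ 2 = (100/r)^10 ≤ (10^8 L^2)^10`; `D3 M M L ≤ 100 L^2`. Hence
`Q / eta3 r ^ 2 * D3 M M L ≤ 26000 * 10^82 * (2 l)^22 * s x / N ≤ M / 12` if `C = 10^100`
(`2^22 ≤ 10^7`, `M / 12 ≥ x / 100000`). The rest as in `NumC`: `3 M ≤ clog 2 N`,
`40 E < (N/2^(3M))^2`, `8 Q ≤ 2^M` (`Q ≤ x`), the final inequality.
-/

namespace Pool.Agent.Ppr3

open Pool.Agent.Ppr Pool.Agent.Ppr2

/-- the energy is at most `5 N log s` -/
private theorem Num3_en (s N : ℕ) (H : ℝ) (hx0 : 10 ^ 8 ≤ Real.log s)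
    (hH : s * Real.log s - 2 * s ≤ H) (hNs : s ≤ N)
    (hsq : (N : ℝ) ^ 2 ≤ 4 * ((s : ℝ) + 1) * En N H) :
    En N H ≤ 5 * N * Real.log s := by
  set x : ℝ := Real.log s with hx
  have hs1 : 100 < s := by
    by_contra hcon
    rw [not_lt] at hcon
    rcases Nat.eq_zero_or_pos s with h0 | h0
    · rw [hx, h0] at hx0
      norm_num at hx0
    · have h1 : x ≤ Real.log 100 :=
        Real.log_le_log (by exact_mod_cast h0) (by exact_mod_cast hcon)
      have h2 : Real.log 100 ≤ 100 - 1 := Real.log_le_sub_one_of_pos (by norm_num)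
      linarith
  have hsr : (100 : ℝ) < s := by exact_mod_cast hs1
  have hNr : (s : ℝ) ≤ N := by exact_mod_cast hNs
  have hN0 : (0 : ℝ) < N := by linarith
  have hsx : 0 < (s : ℝ) * x := by positivity
  have hH2 : s * x / 2 ≤ H := by nlinarith
  have hH0 : 0 < H := by linarith
  have hH24 : 24 * ((s : ℝ) + 1) ≤ H := by nlinarith
  set k : ℕ := Nat.clog 2 N with hk
  have hEn : En N H = N * ((k : ℝ) + 1) + 3 / H * (N : ℝ) ^ 2 := rfl
  -- `N ≤ 8 (s + 1) (k + 1)`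
  have h1 : 4 * ((s : ℝ) + 1) * (3 / H * (N : ℝ) ^ 2) ≤ (N : ℝ) ^ 2 / 2 := by
    have h2 : 12 * ((s : ℝ) + 1) / H ≤ 1 / 2 := by
      rw [div_le_iff₀ hH0]
      linarith
    calc 4 * ((s : ℝ) + 1) * (3 / H * (N : ℝ) ^ 2)
        = (12 * ((s : ℝ) + 1) / H) * (N : ℝ) ^ 2 := by ring
      _ ≤ 1 / 2 * (N : ℝ) ^ 2 := mul_le_mul_of_nonneg_right h2 (by positivity)
      _ = _ := by ring
  have h3 : (N : ℝ) ≤ 8 * ((s : ℝ) + 1) * ((k : ℝ) + 1) := by
    rw [hEn, mul_add] at hsq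
    have h4 : (N : ℝ) * N ≤ (8 * ((s : ℝ) + 1) * ((k : ℝ) + 1)) * N := by nlinarith
    exact le_of_mul_le_mul_right h4 hN0
  -- `k`
  have hlog2 : (0.6931471803 : ℝ) < Real.log 2 := Real.log_two_gt_d9
  have hkN : ((k : ℝ) - 1) * Real.log 2 ≤ Real.log N := by
    have h4 : 2 ^ (k - 1) < N := Nat.pow_pred_clog_lt_self one_lt_two (by omega)
    have h5 : ((k - 1 : ℕ) : ℝ) * Real.log 2 ≤ Real.log N := by
      rw [← Real.log_pow]
      refine Real.log_le_log (by positivity) ?_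
      exact_mod_cast h4.le
    refine le_trans ?_ h5
    refine mul_le_mul_of_nonneg_right ?_ (by linarith)
    rcases Nat.eq_zero_or_pos k with h | h
    · rw [h]
      norm_num
    · rw [Nat.cast_sub h]
      norm_num
  have hlogN0 : 0 ≤ Real.log N := Real.log_nonneg (by linarith)
  have hk1 : (k : ℝ) + 1 ≤ 2 + 3 / 2 * Real.log N := by
    by_contra hcon
    rw [not_le] at hcon
    have h4 : 3 / 2 * Real.log N < (k : ℝ) - 1 := by linarith
    nlinarith
  set r : ℝ := √(N : ℝ) with hr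
  have hrr : r * r = N := Real.mul_self_sqrt hN0.le
  have hr1 : 1 ≤ r := by
    by_contra hcon
    rw [not_le] at hcon
    have : 0 ≤ r := Real.sqrt_nonneg _
    nlinarith
  have hr0 : 0 < r := by linarith
  have hlogr : Real.log N = 2 * Real.log r := by
    rw [← hrr, Real.log_mul hr0.ne' hr0.ne']
    ring
  have hlogr2 : Real.log r ≤ r - 1 := Real.log_le_sub_one_of_pos hr0
  have hr40 : r ≤ 80 * s := by
    have h4 : (k : ℝ) + 1 ≤ 5 * r := by linarith
    have h5 : r * r ≤ (40 * ((s : ℝ) + 1)) * r := by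
      rw [hrr]
      refine h3.trans ?_
      calc 8 * ((s : ℝ) + 1) * ((k : ℝ) + 1) ≤ 8 * ((s : ℝ) + 1) * (5 * r) :=
            mul_le_mul_of_nonneg_left h4 (by positivity)
        _ = _ := by ring
    have h6 := le_of_mul_le_mul_right h5 hr0
    linarith
  have hlogr3 : Real.log r ≤ 5 / 4 * x := by
    have h4 : Real.log r ≤ Real.log (80 * s) := Real.log_le_log hr0 hr40
    rw [Real.log_mul (by norm_num) (by linarith)] at h4
    have h5 : Real.log 80 ≤ 80 - 1 := Real.log_le_sub_one_of_pos (by norm_num)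
    linarith
  have hk4 : (k : ℝ) + 1 ≤ 4 * x := by linarith
  have hN33 : (N : ℝ) ≤ 33 * (s * x) := by
    refine h3.trans ?_
    calc 8 * ((s : ℝ) + 1) * ((k : ℝ) + 1) ≤ 8 * ((s : ℝ) + 1) * (4 * x) :=
          mul_le_mul_of_nonneg_left hk4 (by positivity)
      _ ≤ 33 * (s * x) := by nlinarith
  have hNH : 3 / H * (N : ℝ) ^ 2 ≤ N * x := by
    have h4 : 3 / H * (N : ℝ) ^ 2 = (3 * N / H) * N := by ring
    have h5 : 3 * (N : ℝ) / H ≤ 198 := by
      rw [div_le_iff₀ hH0]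
      linarith
    rw [h4, mul_comm (N : ℝ) x]
    exact mul_le_mul_of_nonneg_right (by linarith) hN0.le
  rw [hEn]
  have h6 : (N : ℝ) * ((k : ℝ) + 1) ≤ N * (4 * x) := mul_le_mul_of_nonneg_left hk4 hN0.le
  linarith

private theorem Num3_last (s M : ℕ) (H E x y : ℝ) (hxs : Real.log s = x) (hs : 100 < (s : ℝ))
    (hsx : x ≤ s) (hy : 100 ≤ y) (hyx : y ^ 4 = x) (hlogx : Real.log x ≤ 4 * y)
    (hM1 : 240 ≤ M) (hM2 : (M : ℝ) ≤ x / 1000) (hH : s * x - 2 * s ≤ H)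
    (hE : 12 * E ≤ 1 / 100) :
    ((M / 3 : ℕ) : ℝ) * (H + Real.log 2 + Real.log 5) +
        ((M * s + 1 : ℕ) : ℝ) / 2 * Real.log ((M * s + 1 : ℕ) : ℝ) +
        ((M * s : ℕ) : ℝ) * (M * Real.log 67) <
      M * (1 - 1 / 20 - 12 * E) * H := by
  have hy4 : 1000000 * y ≤ x := by
    have h1 : (100 : ℝ) ^ 3 ≤ y ^ 3 := pow_le_pow_left₀ (by norm_num) hy 3
    have h2 : (100 : ℝ) ^ 3 * y ≤ y ^ 3 * y := mul_le_mul_of_nonneg_right h1 (by linarith)
    rw [← pow_succ, hyx] at h2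
    norm_num at h2
    exact h2
  have hx : 100000000 ≤ x := by linarith
  have hM0 : (240 : ℝ) ≤ M := by exact_mod_cast hM1
  have hLx : Real.log x ≤ x / 1000 := by linarith
  have hsx0 : 0 < (s : ℝ) * x := by positivity
  have hHs : 0 < H := by nlinarith
  have h2 : Real.log 2 ≤ 1 := by
    have := Real.log_le_sub_one_of_pos (show (0 : ℝ) < 2 by norm_num)
    linarith
  have h5 : Real.log 5 ≤ 4 := by
    have := Real.log_le_sub_one_of_pos (show (0 : ℝ) < 5 by norm_num)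
    linarith
  have h20 : 0 ≤ Real.log 2 := Real.log_nonneg (by norm_num)
  have h50 : 0 ≤ Real.log 5 := Real.log_nonneg (by norm_num)
  have h67 : Real.log 67 ≤ 5 := by
    rw [Real.log_le_iff_le_exp (by norm_num)]
    have h1 : (2.7182818283 : ℝ) < Real.exp 1 := Real.exp_one_gt_d9
    have h3 : Real.exp 5 = Real.exp 1 ^ 5 := by
      rw [← Real.exp_nat_mul]
      norm_num
    rw [h3]
    have h4 : (2.7 : ℝ) ^ 5 ≤ Real.exp 1 ^ 5 := by
      refine pow_le_pow_left₀ (by norm_num) (by linarith) 5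
    refine le_trans ?_ h4
    norm_num
  -- first term
  have t1 : ((M / 3 : ℕ) : ℝ) * (H + Real.log 2 + Real.log 5) ≤ (M : ℝ) * ((H + 5) / 3) := by
    have h6 : ((M / 3 : ℕ) : ℝ) ≤ (M : ℝ) / 3 := Nat.cast_div_le
    calc ((M / 3 : ℕ) : ℝ) * (H + Real.log 2 + Real.log 5) ≤ (M : ℝ) / 3 * (H + 5) :=
          mul_le_mul h6 (by linarith) (by linarith) (by positivity)
      _ = _ := by ring
  -- second term
  have hMs : ((M * s + 1 : ℕ) : ℝ) = M * s + 1 := by push_cast; ring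
  have hMs0 : (0 : ℝ) < M * s := by positivity
  have hlogMs : Real.log ((M * s + 1 : ℕ) : ℝ) ≤ x + x / 1000 := by
    have h6 : ((M * s + 1 : ℕ) : ℝ) ≤ x * s := by
      rw [hMs]
      nlinarith
    have h7 : Real.log ((M * s + 1 : ℕ) : ℝ) ≤ Real.log (x * s) :=
      Real.log_le_log (by rw [hMs]; linarith) h6
    rw [Real.log_mul (by linarith) (by linarith), hxs] at h7
    linarith
  have t2 : ((M * s + 1 : ℕ) : ℝ) / 2 * Real.log ((M * s + 1 : ℕ) : ℝ) ≤
      (M : ℝ) * (((s : ℝ) + 1) / 2 * (x + x / 1000)) := by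
    have h6 : ((M * s + 1 : ℕ) : ℝ) / 2 ≤ (M : ℝ) * (((s : ℝ) + 1) / 2) := by
      rw [hMs]
      nlinarith
    have h7 : 0 ≤ Real.log ((M * s + 1 : ℕ) : ℝ) := Real.log_nonneg (by rw [hMs]; linarith)
    calc ((M * s + 1 : ℕ) : ℝ) / 2 * Real.log ((M * s + 1 : ℕ) : ℝ)
        ≤ (M : ℝ) * (((s : ℝ) + 1) / 2) * (x + x / 1000) :=
          mul_le_mul h6 hlogMs h7 (by positivity)
      _ = _ := by ring
  -- third term
  have t3 : ((M * s : ℕ) : ℝ) * (M * Real.log 67) ≤ (M : ℝ) * (s * (x / 1000 * 5)) := by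
    have h670 : 0 ≤ Real.log 67 := Real.log_nonneg (by norm_num)
    have h6 : (M : ℝ) * Real.log 67 ≤ x / 1000 * 5 :=
      mul_le_mul hM2 h67 h670 (by positivity)
    push_cast
    calc (M : ℝ) * s * (M * Real.log 67) ≤ (M : ℝ) * s * (x / 1000 * 5) :=
          mul_le_mul_of_nonneg_left h6 (by positivity)
      _ = _ := by ring
  have t4 : (M : ℝ) * (94 / 100 * H) ≤ M * (1 - 1 / 20 - 12 * E) * H := by
    have h6 : (94 : ℝ) / 100 ≤ 1 - 1 / 20 - 12 * E := by linarith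
    calc (M : ℝ) * (94 / 100 * H) = (94 / 100) * (M * H) := by ring
      _ ≤ (1 - 1 / 20 - 12 * E) * (M * H) := mul_le_mul_of_nonneg_right h6 (by positivity)
      _ = _ := by ring
  have t5 : (H + 5) / 3 + ((s : ℝ) + 1) / 2 * (x + x / 1000) + s * (x / 1000 * 5) <
      94 / 100 * H := by
    have h6 : (100 : ℝ) * x ≤ s * x := by nlinarith
    have h7 : (100000000 : ℝ) * s ≤ s * x := by nlinarith
    nlinarith
  have t6 : (M : ℝ) * ((H + 5) / 3 + ((s : ℝ) + 1) / 2 * (x + x / 1000) +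
      s * (x / 1000 * 5)) < M * (94 / 100 * H) :=
    mul_lt_mul_of_pos_left t5 (by linarith)
  rw [mul_add, mul_add] at t6
  linarith

theorem num_main3 : ∃ C : ℝ, 0 < C ∧ ∃ s0 : ℕ, ∀ (s N : ℕ) (H : ℝ),
    s0 ≤ s → s * Real.log s - 2 * s ≤ H →
    C * (s * (1 + Real.log (Real.log s)) ^ 22) < N →
    (N : ℝ) ^ 2 ≤ 4 * ((s : ℝ) + 1) * En N H →
    ∃ (M L : ℕ) (r : ℝ), 240 ≤ M ∧ 3 ≤ L ∧ M ≤ 2 ^ L ∧ 2 ^ L ≤ 3 * M ∧ 0 < r ∧ r ≤ 1 / 64 ∧
      r * 16 * (90 * (5 * (2 * L * (6 * L + 1)) : ℕ)) ≤ 1 ∧ 3 * M ≤ Nat.clog 2 N ∧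
      40 * En N H < ((N : ℝ) / 2 ^ (3 * M)) ^ 2 ∧
      5200 * s * En N H / (N : ℝ) ^ 2 / eta3 r ^ 2 * D3 M M L ≤ M / 12 ∧
      8 * (5200 * s * En N H / (N : ℝ) ^ 2) ≤ 2 ^ M ∧
      ((M / 3 : ℕ) : ℝ) * (H + Real.log 2 + Real.log 5) +
        ((M * s + 1 : ℕ) : ℝ) / 2 * Real.log ((M * s + 1 : ℕ) : ℝ) +
        ((M * s : ℕ) : ℝ) * (M * Real.log 67) <
      M * (1 - 1 / 20 - 12 * En N H / (N : ℝ) ^ 2) * H := by
  refine ⟨10 ^ 100, by positivity, ⌈Real.exp (10 ^ 10)⌉₊, ?_⟩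
  intro s N H hs0 hH hCN hsq
  have hs1 : Real.exp (10 ^ 10) ≤ s := (Nat.le_ceil _).trans (by exact_mod_cast hs0)
  have hs0' : (0 : ℝ) < s := lt_of_lt_of_le (Real.exp_pos _) hs1
  have hx10 : (10 : ℝ) ^ 10 ≤ Real.log s := (Real.le_log_iff_exp_le hs0').2 hs1
  set x : ℝ := Real.log s with hx
  have hx1 : (10000000000 : ℝ) ≤ x := by
    have : ((10 : ℝ) ^ 10) = 10000000000 := by norm_num
    linarith
  have hx0 : (10 : ℝ) ^ 8 ≤ x := by
    have : ((10 : ℝ) ^ 8) = 100000000 := by norm_num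
    linarith
  have hxpos : 0 < x := by linarith
  have hexpx : Real.exp x = s := Real.exp_log hs0'
  set l : ℝ := Real.log x with hl
  set y : ℝ := Real.exp (l / 4) with hy
  have hy0 : 0 < y := Real.exp_pos _
  have hyx : y ^ 4 = x := by
    rw [hy, ← Real.exp_nat_mul]
    have : ((4 : ℕ) : ℝ) * (l / 4) = l := by push_cast; ring
    rw [this, hl, Real.exp_log hxpos]
  have hy1 : 100 ≤ y := by
    by_contra hcon
    rw [not_le] at hcon
    have h1 : y ^ 4 < 100 ^ 4 := pow_lt_pow_left₀ hcon hy0.le (by norm_num)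
    rw [hyx] at h1
    norm_num at h1
    linarith
  have hly : l ≤ 4 * y := by
    have h1 : l / 4 + 1 ≤ y := Real.add_one_le_exp _
    linarith
  have hl4 : 4 ≤ l := by
    rw [hl, Real.le_log_iff_exp_le hxpos]
    have h1 : Real.exp 4 = Real.exp 1 ^ 4 := by
      rw [← Real.exp_nat_mul]
      norm_num
    have h2 : Real.exp 1 ^ 4 ≤ 3 ^ 4 := by
      refine pow_le_pow_left₀ (Real.exp_pos _).le ?_ 4
      have := Real.exp_one_lt_d9
      linarith
    rw [h1]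
    refine h2.trans ?_
    norm_num
    linarith
  have hsx : x ^ 2 / 2 ≤ s := by
    rw [← hexpx]
    have := Real.quadratic_le_exp_of_nonneg hxpos.le
    linarith
  have hsx' : 50000000 * x ≤ s := by nlinarith
  -- `N`
  have hl22 : (1 : ℝ) ≤ (1 + l) ^ 22 := one_le_pow₀ (by linarith)
  have hNs : (s : ℝ) ≤ N := by
    have h2 : (s : ℝ) ≤ s * (1 + l) ^ 22 := le_mul_of_one_le_right hs0'.le hl22
    have h3 : (s : ℝ) * (1 + l) ^ 22 ≤ 10 ^ 100 * (s * (1 + l) ^ 22) :=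
      le_mul_of_one_le_left (by positivity) (by norm_num)
    linarith
  have hNs' : s ≤ N := by exact_mod_cast hNs
  have hN0 : (0 : ℝ) < N := by linarith
  have hEn := Num3_en s N H hx0 hH hNs' hsq
  rw [← hx] at hEn
  have hEn0 : 0 ≤ En N H := by
    have h1 : 0 ≤ 4 * ((s : ℝ) + 1) * En N H := (sq_nonneg _).trans hsq
    by_contra hcon
    rw [not_le] at hcon
    have h2 : (4 * ((s : ℝ) + 1)) * En N H < 0 := mul_neg_of_pos_of_neg (by positivity) hcon
    linarith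
  have hENN : En N H / (N : ℝ) ^ 2 ≤ 5 * x / N := by
    rw [div_le_div_iff₀ (by positivity) hN0]
    calc En N H * N ≤ (5 * N * x) * N := mul_le_mul_of_nonneg_right hEn hN0.le
      _ = _ := by ring
  -- `Q`
  set Q : ℝ := 5200 * s * En N H / (N : ℝ) ^ 2 with hQ
  have hQ0 : 0 ≤ Q := by positivity
  have hl220 : (0 : ℝ) < (1 + l) ^ 22 := by linarith
  have hQl : Q * (1 + l) ^ 22 ≤ 26000 / 10 ^ 100 * x := by
    have h1 : Q ≤ 26000 * (s * x) / N := by
      have h2 : Q = 5200 * s * (En N H / (N : ℝ) ^ 2) := by rw [hQ]; ring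
      rw [h2]
      calc 5200 * s * (En N H / (N : ℝ) ^ 2) ≤ 5200 * s * (5 * x / N) :=
            mul_le_mul_of_nonneg_left hENN (by positivity)
        _ = _ := by ring
    have h3 : Q * (1 + l) ^ 22 ≤ 26000 * (s * x) / N * (1 + l) ^ 22 :=
      mul_le_mul_of_nonneg_right h1 hl220.le
    refine h3.trans ?_
    rw [div_mul_eq_mul_div, div_le_iff₀ hN0]
    calc 26000 * (s * x) * (1 + l) ^ 22 =
          26000 / 10 ^ 100 * x * (10 ^ 100 * (s * (1 + l) ^ 22)) := by ring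
      _ ≤ 26000 / 10 ^ 100 * x * N := mul_le_mul_of_nonneg_left hCN.le (by positivity)
  have hQx : Q ≤ x / 1000000 := by
    have h1 : Q * 1 ≤ Q * (1 + l) ^ 22 := mul_le_mul_of_nonneg_left hl22 hQ0
    have h2 : (26000 : ℝ) / 10 ^ 100 * x ≤ 1 / 1000000 * x :=
      mul_le_mul_of_nonneg_right (by norm_num) hxpos.le
    linarith
  -- the parameters
  have hlog2 : (0.6931471803 : ℝ) < Real.log 2 := Real.log_two_gt_d9
  set M : ℕ := ⌊x / 4000⌋₊ with hM
  have hM1 : (M : ℝ) ≤ x / 4000 := Nat.floor_le (by positivity)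
  have hM2 : x / 4000 < M + 1 := Nat.lt_floor_add_one _
  have hM240 : 240 ≤ M := by
    have : (240 : ℝ) ≤ M := by linarith
    exact_mod_cast this
  have hM0 : 0 < M := by omega
  have hM0r : (0 : ℝ) < M := by exact_mod_cast hM0
  obtain ⟨L, hL⟩ : ∃ L : ℕ, L = Nat.clog 2 M := ⟨_, rfl⟩
  have hML : M ≤ 2 ^ L := by
    rw [hL]
    exact Nat.le_pow_clog one_lt_two M
  have hLM : 2 ^ (L - 1) < M := by
    rw [hL]
    exact Nat.pow_pred_clog_lt_self one_lt_two (by omega)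
  have hL3 : 3 ≤ L := by
    by_contra hcon
    have h1 : L ≤ 2 := by omega
    have h2 : 2 ^ L ≤ 2 ^ 2 := Nat.pow_le_pow_right (by norm_num) h1
    omega
  have h2L : 2 ^ L = 2 * 2 ^ (L - 1) := by
    rw [← pow_succ']
    congr 1
    omega
  have hLr : (3 : ℝ) ≤ L := by exact_mod_cast hL3
  have hLl : (L : ℝ) ≤ 2 * l := by
    have h1 : ((L - 1 : ℕ) : ℝ) * Real.log 2 ≤ Real.log M := by
      rw [← Real.log_pow]
      refine Real.log_le_log (by positivity) ?_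
      exact_mod_cast hLM.le
    have h2 : Real.log M ≤ l := Real.log_le_log hM0r (by linarith)
    have h3 : ((L - 1 : ℕ) : ℝ) = (L : ℝ) - 1 := by
      rw [Nat.cast_sub (by omega)]
      norm_num
    rw [h3] at h1
    have h4 : ((L : ℝ) - 1) * 0.6931471803 ≤ ((L : ℝ) - 1) * Real.log 2 :=
      mul_le_mul_of_nonneg_left hlog2.le (by linarith)
    linarith
  obtain ⟨n5, hn5⟩ : ∃ n5 : ℝ, n5 = ((5 * (2 * L * (6 * L + 1)) : ℕ) : ℝ) := ⟨_, rfl⟩
  have hn5' : n5 = 60 * (L : ℝ) ^ 2 + 10 * L := by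
    rw [hn5]
    push_cast
    ring
  have hn51 : 1 ≤ n5 := by
    rw [hn5']
    nlinarith
  have hn50 : n5 ≠ 0 := by linarith
  have hn57 : n5 ≤ 70 * (L : ℝ) ^ 2 := by
    rw [hn5']
    nlinarith
  have hD3 : ((D3 M M L : ℕ) : ℝ) ≤ 100 * (L : ℝ) ^ 2 := by
    unfold D3
    rw [Nat.div_self hM0]
    push_cast
    nlinarith
  refine ⟨M, L, 1 / (16 * (90 * n5)), hM240, hL3, hML, ?_, by positivity, ?_, ?_, ?_, ?_, ?_,
    ?_, ?_⟩
  · rw [h2L]
    omega
  · -- `r ≤ 1 / 64`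
    refine one_div_le_one_div_of_le (by norm_num) ?_
    linarith
  · have h1 : 1 / (16 * (90 * n5)) * 16 * (90 * n5) = 1 := by
      field_simp
    have h2 : (90 : ℝ) * ((5 * (2 * L * (6 * L + 1)) : ℕ) : ℝ) = 90 * n5 := by rw [hn5]
    rw [h2]
    exact h1.le
  · -- `3 M ≤ clog2 N`
    have h1 : N ≤ 2 ^ Nat.clog 2 N := Nat.le_pow_clog one_lt_two N
    have h2 : Real.log N ≤ (Nat.clog 2 N : ℝ) * Real.log 2 := by
      rw [← Real.log_pow]
      refine Real.log_le_log hN0 ?_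
      exact_mod_cast h1
    have h3 : x ≤ Real.log N := Real.log_le_log hs0' hNs
    have h4 : Real.log 2 ≤ 1 := by
      have := Real.log_le_sub_one_of_pos (show (0 : ℝ) < 2 by norm_num)
      linarith
    have h5 : (Nat.clog 2 N : ℝ) * Real.log 2 ≤ (Nat.clog 2 N : ℝ) * 1 :=
      mul_le_mul_of_nonneg_left h4 (Nat.cast_nonneg _)
    have h6 : 3 * (M : ℝ) ≤ (Nat.clog 2 N : ℝ) := by linarith
    exact_mod_cast h6
  · -- `40 En < (N / 2 ^ (3 M)) ^ 2`
    have h1 : ((2 : ℝ) ^ (3 * M)) ^ 2 ≤ Real.exp (x / 500) := by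
      have h2 : ((2 : ℝ) ^ (3 * M)) ^ 2 = 4 ^ (3 * M) := by
        rw [← pow_mul, mul_comm, pow_mul]
        norm_num
      have h3 : (4 : ℝ) ≤ Real.exp 2 := by
        have := Real.quadratic_le_exp_of_nonneg (show (0 : ℝ) ≤ 2 by norm_num)
        linarith
      rw [h2]
      calc (4 : ℝ) ^ (3 * M) ≤ Real.exp 2 ^ (3 * M) := pow_le_pow_left₀ (by norm_num) h3 _
        _ = Real.exp (((3 * M : ℕ) : ℝ) * 2) := by rw [← Real.exp_nat_mul]
        _ ≤ Real.exp (x / 500) := Real.exp_le_exp.2 (by push_cast; linarith)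
    have h2 : 200 * x * Real.exp (x / 500) < s := by
      have h3 : Real.exp (x / 500) ≤ Real.exp (x / 2) := Real.exp_le_exp.2 (by linarith)
      have h4 : 200 * x < Real.exp (x / 2) := by
        have := Real.quadratic_le_exp_of_nonneg (show 0 ≤ x / 2 by positivity)
        nlinarith
      have h5 : Real.exp (x / 2) * Real.exp (x / 2) = s := by
        rw [← Real.exp_add, add_halves, hexpx]
      rw [← h5]
      have h6 : 0 < Real.exp (x / 500) := Real.exp_pos _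
      calc 200 * x * Real.exp (x / 500) < Real.exp (x / 2) * Real.exp (x / 500) :=
            mul_lt_mul_of_pos_right h4 h6
        _ ≤ _ := mul_le_mul_of_nonneg_left h3 (Real.exp_pos _).le
    rw [div_pow, lt_div_iff₀ (by positivity)]
    calc 40 * En N H * ((2 : ℝ) ^ (3 * M)) ^ 2 ≤ 40 * (5 * N * x) * Real.exp (x / 500) :=
          mul_le_mul (by linarith) h1 (by positivity) (by positivity)
      _ = (200 * x * Real.exp (x / 500)) * N := by ring
      _ < s * N := mul_lt_mul_of_pos_right h2 hN0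
      _ ≤ N * N := mul_le_mul_of_nonneg_right hNs hN0.le
      _ = (N : ℝ) ^ 2 := by ring
  · -- the cost
    have h1 : Q / eta3 (1 / (16 * (90 * n5))) ^ 2 = Q * (144000 * n5) ^ 10 := by
      unfold eta3
      have h4 : 1 / (16 * (90 * n5)) / 100 = (144000 * n5)⁻¹ := by
        field_simp
        norm_num
      rw [h4, ← pow_mul, inv_pow, div_inv_eq_mul]
    have h5 : (144000 * n5) ^ 10 ≤ 10080000 ^ 10 * (L : ℝ) ^ 20 := by
      have h6 : 10080000 ^ 10 * (L : ℝ) ^ 20 = (10080000 * (L : ℝ) ^ 2) ^ 10 := by ring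
      rw [h6]
      refine pow_le_pow_left₀ (by positivity) ?_ 10
      linarith
    rw [h1]
    have h7 : (L : ℝ) ^ 22 ≤ 2 ^ 22 * (1 + l) ^ 22 := by
      rw [← mul_pow]
      refine pow_le_pow_left₀ (by positivity) ?_ 22
      linarith
    calc Q * (144000 * n5) ^ 10 * ((D3 M M L : ℕ) : ℝ) ≤
          Q * (10080000 ^ 10 * (L : ℝ) ^ 20) * (100 * (L : ℝ) ^ 2) :=
          mul_le_mul (mul_le_mul_of_nonneg_left h5 hQ0) hD3 (Nat.cast_nonneg _) (by positivity)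
      _ = (10080000 ^ 10 * 100) * (Q * (L : ℝ) ^ 22) := by ring
      _ ≤ (10080000 ^ 10 * 100) * (Q * (2 ^ 22 * (1 + l) ^ 22)) := by
          refine mul_le_mul_of_nonneg_left ?_ (by norm_num)
          exact mul_le_mul_of_nonneg_left h7 hQ0
      _ = (10080000 ^ 10 * 100 * 2 ^ 22) * (Q * (1 + l) ^ 22) := by ring
      _ ≤ (10080000 ^ 10 * 100 * 2 ^ 22) * (26000 / 10 ^ 100 * x) :=
          mul_le_mul_of_nonneg_left hQl (by norm_num)
      _ = (10080000 ^ 10 * 100 * 2 ^ 22 * (26000 / 10 ^ 100)) * x := by ring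
      _ ≤ (1 / 96000) * x := mul_le_mul_of_nonneg_right (by norm_num) hxpos.le
      _ ≤ M / 12 := by linarith
  · -- `8 Q ≤ 2 ^ M`
    have h1 : (M : ℝ) < 2 ^ M := by exact_mod_cast Nat.lt_two_pow_self
    linarith
  · have h1 : 12 * En N H / (N : ℝ) ^ 2 = 12 * (En N H / (N : ℝ) ^ 2) := by ring
    rw [h1]
    refine Num3_last s M H (En N H / (N : ℝ) ^ 2) x y rfl (by linarith) (by linarith) hy1 hyx
      hly hM240 (by linarith) hH ?_
    have h2 : 5 * x / N ≤ 1 / 1200 := by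
      rw [div_le_div_iff₀ hN0 (by norm_num)]
      linarith
    linarith

end Pool.Agent.Ppr3
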