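import Pool.Agent.Ppr3.MainA
import Pool.Agent.Ppr3.Num3
import Pool.Agent.Ppr2.Main

/-!
# The theorem, third version
-/

namespace Pool.Agent.Ppr3

open Pool.Agent.Ppr Pool.Agent.Ppr.Sys Pool.Agent.Ppr2

/-- the comparison function is at least `1` -/
theorem one_le_F (s : ℕ) (hs : 3 ≤ s) :
    1 ≤ (s : ℝ) * (1 + Real.log (Real.log s)) ^ 22 := by
  have h3 : (3 : ℝ) ≤ s := by exact_mod_cast hs
  have he : Real.exp 1 < 3 := by
    have := Real.exp_one_lt_d9
    linarith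
  have h1 : 1 ≤ Real.log s := by
    rw [Real.le_log_iff_exp_le (by linarith)]
    linarith
  have h2 : 0 ≤ Real.log (Real.log s) := Real.log_nonneg h1
  have h4 : 1 ≤ (1 + Real.log (Real.log s)) ^ 22 := one_le_pow₀ (by linarith)
  nlinarith

/-- the bound for systems -/
theorem sys_bound3 : ∃ C : ℝ, 0 < C ∧ ∀ (ι : Type) [Fintype ι]
    [DecidableEq ι] (S : Sys ι), 3 ≤ S.D.primeFactors.card → (Fintype.card ι : ℝ) ≤
      C * (S.D.primeFactors.card *
        (1 + Real.log (Real.log S.D.primeFactors.card)) ^ 22) := by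
  obtain ⟨C, hC, s0, hmain⟩ := num_main3
  refine sys_bound_of (fun s : ℕ => s * (1 + Real.log (Real.log s)) ^ 22) one_le_F C s0 ?_
  intro ι _ _ S hs hs0 hN
  by_contra hcon
  push Not at hcon
  have hH := Hs_pos S hs
  have hsq := core_sq S hH hN
  rw [Es_eq] at hsq
  obtain ⟨M, L, r, h1, h2, h3, h4, h5, h6, h7, h8, h9, h10, h11, h12⟩ :=
    hmain S.D.primeFactors.card (Fintype.card ι) (Hs S) hs0 (Hs_ge S _ rfl hs) hcon hsq
  have := core3 S hH _ rfl (by omega) M L r h1 h2 h3 h4 h5 h6 h7 h8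
    (by rw [Es_eq]; exact h9) (by rw [Es_eq]; exact h10) (by rw [Es_eq]; exact h11)
  rw [Es_eq] at this
  exact absurd h12 (not_lt.2 this)

/-- the theorem -/
theorem main_bound3 : ∃ C : ℝ, 0 < C ∧ ∀ c : ℚ,
    3 ≤ c.den.primeFactors.card → (PrePer c).Finite ∧ ((PrePer c).ncard : ℝ) ≤
      C * (c.den.primeFactors.card *
        (1 + Real.log (Real.log c.den.primeFactors.card)) ^ 22) := by
  obtain ⟨C, hC, h⟩ := sys_bound3
  exact ⟨C, hC, fun c hc => preper_of
    (fun s : ℕ => s * (1 + Real.log (Real.log s)) ^ 22) one_le_F C hC h c hc⟩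

end Pool.Agent.Ppr3
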