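import Pool.Agent.Ppr.Main
import Pool.Agent.Ppr2.CoreC
import Pool.Agent.Ppr3.Sepr3
import Pool.Agent.Ppr3.Onto3B

/-!
# The main inequality under the numerical conditions

`corer` with `M2 = 3 M` and `indep3`; the separators from `exists_sepr3` with `b = M`.
-/

namespace Pool.Agent.Ppr3

open Pool.Agent.Ppr Pool.Agent.Ppr.Sys PowerSeries Pool.Agent.Ppr2

variable {ι : Type} [Fintype ι] [DecidableEq ι] (S : Sys ι)

theorem core3 (hH : 0 < Hs S) (s : ℕ) (hs : s = S.D.primeFactors.card) (hs1 : 1 ≤ s)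
    (M L : ℕ) (r : ℝ) (hM : 240 ≤ M) (hL : 3 ≤ L) (hML : M ≤ 2 ^ L) (hL2 : 2 ^ L ≤ 3 * M)
    (hr : 0 < r) (hr2 : r ≤ 1 / 64)
    (hrA : r * 16 * (90 * (5 * (2 * L * (6 * L + 1)) : ℕ)) ≤ 1)
    (hMn : 3 * M ≤ Nat.clog 2 (Fintype.card ι))
    (hfull : 40 * Es S < ((Fintype.card ι : ℝ) / 2 ^ (3 * M)) ^ 2)
    (hq : 5200 * s * Es S / (Fintype.card ι : ℝ) ^ 2 / eta3 r ^ 2 * D3 M M L ≤ M / 12)
    (hQM : 8 * (5200 * s * Es S / (Fintype.card ι : ℝ) ^ 2) ≤ 2 ^ M) :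
    M * (1 - 1 / 20 - 12 * Es S / (Fintype.card ι : ℝ) ^ 2) * Hs S ≤
      ((M / 3 : ℕ) : ℝ) * (Hs S + Real.log 2 + Real.log 5) +
        ((M * s + 1 : ℕ) : ℝ) / 2 * Real.log ((M * s + 1 : ℕ) : ℝ) +
        ((M * s : ℕ) : ℝ) * (M * Real.log 67) := by
  classical
  refine corer S hH s hs hs1 M (3 * M) (by omega) (by omega) hMn hfull ?_
  intro Ws hf hneg hQ c hc
  refine indep3 hr hr2 S.σ Ws M (D3 M M L)
    (5200 * s * Es S / (Fintype.card ι : ℝ) ^ 2)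
    (fun w hw => full_mono (by omega) (hf w hw)) ?_ ?_ hq hM hQM c hc
  · intro w hw w' hw' hne
    exact exists_sepr3 hr hr2 (by omega : 0 < M) (by omega : M + M ≤ 3 * M) (by omega)
      (hf w' hw') (hf w hw) hne (hneg w hw w' hw') hL hML hL2 hrA
  · intro w0 hw0
    refine le_trans (Finset.sum_le_sum fun w _ => ?_) (hQ w0 hw0)
    refine pow_le_pow_left₀ (nrmr_nonneg hr.le M _) ?_ 2
    exact (nrmr_le_nrm hr.le hr2 M _).trans (nrm_mono (by omega) _)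

end Pool.Agent.Ppr3
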