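import Pool.Agent.Ppr3.MajX

/-!
# Majorants with an additive weight: the coefficients of `Y`

Write `v k = ε (nxt^[k] p) ω`. `bc_U` (strong induction on `j`, all good `p`): the function
`sg (v 0) * Z j v` is in the ball of weight `j` and radius `Rz j / 2`. For `j = 0` it is `1`
(`bc_chi 1 ∅`, radius `1 = Rz 0 / 2`). The recursion (private `MajB_two_Z_succ`, `MajB_Rz_succ` in
`Ppr2/MajB.lean`, copy them) times `sg (v 0)`, with `sg^2 = 1`:
`2 sg(v 0) Z (k+1) v = 4 Z k (sh v) - ∑_{a<k} (sg(v 0) Z (a+1) v) (sg(v 0) Z (k-a) v)`, and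
`Z k (sh v) = sg (v 1) * (sg (v 1) * Z k (sh v))` is in the ball of weight `wg (nxt p) + k ≤ k + 1`
and radius `2 * Rz k / 2`. Total radius: `2 Rz k + (1/2) ∑ (Rz (a+1) / 2) (Rz (k-a) / 2) ≤
Rz (k+1) / 2`.
`bc_Z`: multiply by `sg (v 0)` (weight `wg p`, radius `2`).
-/

namespace Pool.Agent.Ppr3

open PowerSeries Pool.Agent.Ppr Pool.Agent.Ppr2

variable {Po Ω : Type} [DecidableEq Po] {gd : Po → Prop} {wg : Po → ℕ} {ε : Po → Ω → Bool}
  {nxt : Po → Po}

private theorem MajY_Rz_zero : Rz 0 = 2 := by rw [Rz]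

private theorem MajY_Rz_succ (k : ℕ) :
    Rz (k + 1) = 4 * Rz k + ∑ a ∈ Finset.range k, Rz (a + 1) * Rz (k - a) := by
  rw [Rz, Fin.sum_univ_eq_sum_range (fun a => Rz (a + 1) * Rz (k - a)) k]

private theorem MajY_two_Z_succ (k : ℕ) (v : ℕ → Bool) :
    2 * Z (k + 1) v = sg (v 0) * (4 * Z k (sh v) -
      ∑ a ∈ Finset.range k, Z (a + 1) v * Z (k - a) v) := by
  have h1 : Z (k + 1) v = 2 * W (k + 1) v := rfl
  have h2 : W (k + 1) v = sg (v 0) * ((if k = 0 then 1 else 2) * W k (sh v) -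
      ∑ a : Fin k, W (a.1 + 1) v * W (k - a.1) v) := by rw [W]
  have h3 : (if k = 0 then 1 else 2) * W k (sh v) = Z k (sh v) := by
    unfold Z
    split_ifs with h
    · subst h
      rw [one_mul]
      rw [W]
    · rfl
  have h4 : ∑ a ∈ Finset.range k, Z (a + 1) v * Z (k - a) v =
      4 * ∑ a : Fin k, W (a.1 + 1) v * W (k - a.1) v := by
    rw [Fin.sum_univ_eq_sum_range (fun a => W (a + 1) v * W (k - a) v), Finset.mul_sum]
    refine Finset.sum_congr rfl fun a ha => ?_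
    rw [Finset.mem_range] at ha
    have e1 : Z (a + 1) v = 2 * W (a + 1) v := rfl
    have e2 : Z (k - a) v = 2 * W (k - a) v := by
      unfold Z
      rw [if_neg (by omega)]
    rw [e1, e2]
    ring
  rw [h1, h2, h3, h4]
  ring

private theorem MajY_sg_sq (b : Bool) : (sg b : ℝ) * (sg b : ℝ) = 1 := by
  cases b <;> simp [sg]

private theorem MajY_chi {p : Po} (hp : gd p) {k : ℕ} (hk : wg p ≤ k) :
    Bc gd wg ε k 2 (fun ω => (sg (ε p ω) : ℝ)) := by
  have h1 := bc_chi (ε := ε) (gd := gd) (wg := wg) (k := k) 1 (P := {p}) (by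
    intro q hq
    rw [Finset.mem_singleton] at hq
    subst hq
    exact hp) (by
    rw [Finset.sum_singleton]
    exact hk)
  have h2 : (fun ω => (1 : ℝ) * ∏ q ∈ ({p} : Finset Po), (sg (ε q ω) : ℝ)) =
      fun ω => (sg (ε p ω) : ℝ) := by
    funext ω
    rw [Finset.prod_singleton, one_mul]
  have h3 : |(1 : ℝ)| * 2 ^ ({p} : Finset Po).card = 2 := by
    rw [Finset.card_singleton, abs_one]
    norm_num
  rw [h2, h3] at h1
  exact h1

/-- from `sg (v 0) * Z j v` to `Z j v` -/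
private theorem MajY_ZofU {j : ℕ} {p : Po} (hp : gd p)
    (h : Bc gd wg ε j (Rz j / 2)
      (fun ω => (sg (ε p ω) : ℝ) * (Z j (fun k => ε (nxt^[k] p) ω) : ℝ))) :
    Bc gd wg ε (wg p + j) (Rz j) (fun ω => (Z j (fun k => ε (nxt^[k] p) ω) : ℝ)) := by
  have h1 := bc_mul (MajY_chi (ε := ε) hp (le_refl (wg p))) h
  have h2 : (fun ω => (sg (ε p ω) : ℝ) *
      ((sg (ε p ω) : ℝ) * (Z j (fun k => ε (nxt^[k] p) ω) : ℝ))) =
      fun ω => (Z j (fun k => ε (nxt^[k] p) ω) : ℝ) := by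
    funext ω
    rw [← mul_assoc, MajY_sg_sq, one_mul]
  rw [h2] at h1
  exact bc_mono h1 le_rfl (le_of_eq (by ring))

theorem bc_U (hg : ∀ p, gd p → gd (nxt p)) (hw : ∀ p, wg p ≤ 1) (j : ℕ) :
    ∀ p, gd p → Bc gd wg ε j (Rz j / 2)
      (fun ω => (sg (ε p ω) : ℝ) * (Z j (fun k => ε (nxt^[k] p) ω) : ℝ)) := by
  induction j using Nat.strong_induction_on with
  | _ j ih =>
    intro p hp
    rcases j with _ | k
    · have h1 : (fun ω => (sg (ε p ω) : ℝ) * (Z 0 (fun k => ε (nxt^[k] p) ω) : ℝ)) =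
          fun ω => (1 : ℝ) * ∏ q ∈ (∅ : Finset Po), (sg (ε q ω) : ℝ) := by
        funext ω
        have h2 : (Z 0 (fun k => ε (nxt^[k] p) ω) : ℝ) = (sg (ε p ω) : ℝ) := rfl
        rw [h2, MajY_sg_sq, Finset.prod_empty, one_mul]
      rw [h1, MajY_Rz_zero]
      have h3 := bc_chi (ε := ε) (gd := gd) (wg := wg) (k := 0) 1 (P := (∅ : Finset Po)) (by
        intro q hq
        exact absurd hq (Finset.notMem_empty q)) (by
        rw [Finset.sum_empty])
      have h4 : |(1 : ℝ)| * 2 ^ (∅ : Finset Po).card = 2 / 2 := by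
        rw [Finset.card_empty, abs_one]
        norm_num
      rw [h4] at h3
      exact h3
    · have hsh : ∀ ω, sh (fun k => ε (nxt^[k] p) ω) = fun k => ε (nxt^[k] (nxt p)) ω := by
        intro ω
        funext k
        rfl
      have h1 : (fun ω => (sg (ε p ω) : ℝ) * (Z (k + 1) (fun k => ε (nxt^[k] p) ω) : ℝ)) =
          fun ω => 2 * (Z k (fun k => ε (nxt^[k] (nxt p)) ω) : ℝ) +
          (-(1 / 2)) * ∑ a ∈ Finset.range k,
            ((sg (ε p ω) : ℝ) * (Z (a + 1) (fun k => ε (nxt^[k] p) ω) : ℝ)) *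
            ((sg (ε p ω) : ℝ) * (Z (k - a) (fun k => ε (nxt^[k] p) ω) : ℝ)) := by
        funext ω
        have h2 := MajY_two_Z_succ k (fun k => ε (nxt^[k] p) ω)
        rw [hsh ω] at h2
        have h3 : (2 : ℝ) * (Z (k + 1) (fun k => ε (nxt^[k] p) ω) : ℝ) =
            (sg (ε p ω) : ℝ) * (4 * (Z k (fun k => ε (nxt^[k] (nxt p)) ω) : ℝ) -
            ∑ a ∈ Finset.range k, (Z (a + 1) (fun k => ε (nxt^[k] p) ω) : ℝ) *
            (Z (k - a) (fun k => ε (nxt^[k] p) ω) : ℝ)) := by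
          exact_mod_cast h2
        have h4 : ∑ a ∈ Finset.range k,
            ((sg (ε p ω) : ℝ) * (Z (a + 1) (fun k => ε (nxt^[k] p) ω) : ℝ)) *
            ((sg (ε p ω) : ℝ) * (Z (k - a) (fun k => ε (nxt^[k] p) ω) : ℝ)) =
            ∑ a ∈ Finset.range k, (Z (a + 1) (fun k => ε (nxt^[k] p) ω) : ℝ) *
            (Z (k - a) (fun k => ε (nxt^[k] p) ω) : ℝ) := by
          refine Finset.sum_congr rfl fun a _ => ?_
          have h5 := MajY_sg_sq (ε p ω)
          linear_combination ((Z (a + 1) (fun k => ε (nxt^[k] p) ω) : ℝ) *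
            (Z (k - a) (fun k => ε (nxt^[k] p) ω) : ℝ)) * h5
        rw [h4]
        have h5 := MajY_sg_sq (ε p ω)
        linear_combination (1 / 2 : ℝ) * (sg (ε p ω) : ℝ) * h3 + (1 / 2 : ℝ) *
          (4 * (Z k (fun k => ε (nxt^[k] (nxt p)) ω) : ℝ) -
            ∑ a ∈ Finset.range k, (Z (a + 1) (fun k => ε (nxt^[k] p) ω) : ℝ) *
            (Z (k - a) (fun k => ε (nxt^[k] p) ω) : ℝ)) * h5
      rw [h1]
      have hA : Bc gd wg ε (k + 1) (|2| * Rz k)
          (fun ω => 2 * (Z k (fun k => ε (nxt^[k] (nxt p)) ω) : ℝ)) :=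
        bc_smul 2 (bc_mono (MajY_ZofU (hg p hp) (ih k (Nat.lt_succ_self k) (nxt p) (hg p hp)))
          (by have := hw (nxt p); omega) le_rfl)
      have hB : Bc gd wg ε (k + 1) (∑ a ∈ Finset.range k, Rz (a + 1) / 2 * (Rz (k - a) / 2))
          (fun ω => ∑ a ∈ Finset.range k,
            ((sg (ε p ω) : ℝ) * (Z (a + 1) (fun k => ε (nxt^[k] p) ω) : ℝ)) *
            ((sg (ε p ω) : ℝ) * (Z (k - a) (fun k => ε (nxt^[k] p) ω) : ℝ))) := by
        refine bc_sum (Finset.range k) (fun a => Rz (a + 1) / 2 * (Rz (k - a) / 2))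
          (fun a ω => ((sg (ε p ω) : ℝ) * (Z (a + 1) (fun k => ε (nxt^[k] p) ω) : ℝ)) *
            ((sg (ε p ω) : ℝ) * (Z (k - a) (fun k => ε (nxt^[k] p) ω) : ℝ))) (fun a ha => ?_)
        rw [Finset.mem_range] at ha
        exact bc_mono (bc_mul (ih (a + 1) (by omega) p hp) (ih (k - a) (by omega) p hp))
          (by omega) le_rfl
      refine bc_mono (bc_add hA (bc_smul (-(1 / 2)) hB)) le_rfl ?_
      have hS : 0 ≤ ∑ a ∈ Finset.range k, Rz (a + 1) * Rz (k - a) :=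
        Finset.sum_nonneg fun a _ => mul_nonneg (Rz_nonneg _) (Rz_nonneg _)
      have hT : ∑ a ∈ Finset.range k, Rz (a + 1) / 2 * (Rz (k - a) / 2) =
          (1 / 4) * ∑ a ∈ Finset.range k, Rz (a + 1) * Rz (k - a) := by
        rw [Finset.mul_sum]
        exact Finset.sum_congr rfl fun a _ => by ring
      rw [hT, MajY_Rz_succ, abs_neg, abs_of_pos (by norm_num : (0 : ℝ) < 1 / 2),
        abs_of_pos (by norm_num : (0 : ℝ) < 2)]
      linarith

theorem bc_Z (hg : ∀ p, gd p → gd (nxt p)) (hw : ∀ p, wg p ≤ 1) (j : ℕ) :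
    ∀ p, gd p → Bc gd wg ε (wg p + j) (Rz j)
      (fun ω => (Z j (fun k => ε (nxt^[k] p) ω) : ℝ)) := by
  intro p hp
  exact MajY_ZofU hp (bc_U hg hw j p hp)

end Pool.Agent.Ppr3
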