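import Pool.Agent.Ppr3.MajY
import Pool.Agent.Ppr2.MajC

/-!
# Majorants with an additive weight: the product

As `Ppr2/MajC.lean`. By induction on subsets `Q ⊆ P` the `j`-th coefficient of
`∏_{p ∈ Q} YR (v_p)` is in the ball of weight `∑_{p ∈ Q} wg p + j` and radius
`coeff j ((PowerSeries.mk Rz) ^ |Q|)` (`coeff_mul`, `bc_sum`, `bc_mul`, `bc_Z`, `bc_mono`). The rest
is the same.
-/

namespace Pool.Agent.Ppr3

open PowerSeries Pool.Agent.Ppr Pool.Agent.Ppr2

variable {Po Ω : Type} [DecidableEq Po] [Fintype Ω] {gd : Po → Prop} {wg : Po → ℕ}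
  {ε : Po → Ω → Bool} {nxt : Po → Po}

private theorem coeff_YR_MajZ (v : ℕ → Bool) (j : ℕ) : coeff j (YR v) = (Z j v : ℝ) := by
  unfold YR Y
  rw [coeff_map, coeff_mk]
  rfl

omit [Fintype Ω] in
private theorem bc_prod_MajZ (hg : ∀ p, gd p → gd (nxt p)) (hw : ∀ p, wg p ≤ 1)
    (Q : Finset Po) (hQ : ∀ p ∈ Q, gd p) (j : ℕ) :
    Bc gd wg ε ((∑ p ∈ Q, wg p) + j) (coeff j ((PowerSeries.mk Rz) ^ Q.card))
      (fun ω => coeff j (∏ p ∈ Q, YR (fun k => ε (nxt^[k] p) ω))) := by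
  induction Q using Finset.induction_on generalizing j with
  | empty =>
    by_cases hj : j = 0
    · subst hj
      have h1 := bc_chi (gd := gd) (wg := wg) (ε := ε) (k := 0) (1 : ℝ) (P := ∅)
        (by simp) (by simp)
      simpa using h1
    · have h1 := bc_zero (gd := gd) (wg := wg) (ε := ε) j
      simpa [coeff_one, hj] using h1
  | insert p Q hp ih =>
    have hQ' : ∀ p ∈ Q, gd p := fun q hq => hQ q (Finset.mem_insert_of_mem hq)
    have hpp := hQ p (Finset.mem_insert_self p Q)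
    rw [Finset.card_insert_of_notMem hp, pow_succ', coeff_mul, Finset.sum_insert hp]
    simp only [Finset.prod_insert hp, coeff_mul]
    refine bc_sum _ _ _ fun ab hab => ?_
    have hab' := Finset.HasAntidiagonal.mem_antidiagonal.1 hab
    have h1 : Bc gd wg ε (wg p + ab.1) (coeff ab.1 (PowerSeries.mk Rz))
        (fun ω => coeff ab.1 (YR (fun k => ε (nxt^[k] p) ω))) := by
      rw [coeff_mk]
      simp only [coeff_YR_MajZ]
      exact bc_Z hg hw ab.1 p hpp
    exact bc_mono (bc_mul h1 (ih hQ' ab.2)) (by omega) le_rfl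

theorem maj3 (hg : ∀ p, gd p → gd (nxt p)) (hw : ∀ p, wg p ≤ 1)
    (κ : Ω → ℝ) (P : Finset Po) (hne : P.Nonempty) (hP : ∀ p ∈ P, gd p)
    {A δ r : ℝ} (hA : 0 ≤ A) (hδ : 0 ≤ δ) (hr : 0 ≤ r) (hrA : r * A * (90 * P.card) ≤ 1)
    (hbd : ∀ (j : ℕ) (P' : Finset Po), (∀ p ∈ P', gd p) →
      (∑ p ∈ P', wg p) ≤ (∑ p ∈ P, wg p) + j →
      |SW κ ε P'| * 2 ^ P.card ≤ 2 ^ P'.card * (A ^ j * δ)) (M : ℕ) :
    nrmr r M ((∑ ω, C (κ ω) * ∏ p ∈ P, YR (fun k => ε (nxt^[k] p) ω)) - C (SW κ ε P)) ≤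
      δ / 10 := by
  classical
  have hg0 : 0 < P.card := Finset.card_pos.2 hne
  have hg1 : (1 : ℝ) ≤ (P.card : ℝ) := by exact_mod_cast hg0
  have hx : 0 ≤ r * A := mul_nonneg hr hA
  have hx2 : r * A ≤ 1 / 40 := by nlinarith
  have hxg : 8 * (r * A) * (P.card : ℝ) ≤ 4 / 45 := by nlinarith
  set F : PowerSeries ℝ := ∑ ω, C (κ ω) * ∏ p ∈ P, YR (fun k => ε (nxt^[k] p) ω) with hF
  have hcF : ∀ j, coeff j F = ∑ ω, κ ω * coeff j (∏ p ∈ P, YR (fun k => ε (nxt^[k] p) ω)) := by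
    intro j
    rw [hF, map_sum]
    exact Finset.sum_congr rfl fun ω _ => coeff_C_mul _ _ _
  have h0 : coeff 0 F = SW κ ε P := by
    rw [hcF]
    refine Finset.sum_congr rfl fun ω _ => ?_
    rw [coeff_zero_eq_constantCoeff_apply, map_prod]
    congr 1
  have hbl := fun j => bc_prod_MajZ (ε := ε) hg hw P hP j
  have hev : ∀ j, |coeff j F| * 2 ^ P.card ≤
      coeff j ((PowerSeries.mk Rz) ^ P.card) * (A ^ j * δ) := by
    intro j
    rw [hcF]
    exact bc_eval κ (hbl j) (hbd j)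
  rcases M with _ | M
  · simp only [nrmr, Finset.range_zero, Finset.sum_empty]
    positivity
  have hn : nrmr r (M + 1) (F - C (SW κ ε P)) =
      ∑ j ∈ Finset.range M, |coeff (j + 1) F| * r ^ (j + 1) := by
    unfold nrmr
    rw [Finset.sum_range_succ', map_sub, h0, coeff_zero_C, sub_self, abs_zero, zero_mul,
      add_zero]
    refine Finset.sum_congr rfl fun j _ => ?_
    rw [map_sub, coeff_C, if_neg (Nat.succ_ne_zero j), sub_zero]
  have hc0 : coeff 0 ((PowerSeries.mk Rz) ^ P.card) = 2 ^ P.card := by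
    rw [coeff_zero_eq_constantCoeff_apply, map_pow, ← coeff_zero_eq_constantCoeff_apply,
      coeff_mk, Rz]
  have hnr : nrmr (r * A) (M + 1) ((PowerSeries.mk Rz) ^ P.card) =
      2 ^ P.card + ∑ j ∈ Finset.range M,
        coeff (j + 1) ((PowerSeries.mk Rz) ^ P.card) * (r * A) ^ (j + 1) := by
    unfold nrmr
    rw [Finset.sum_range_succ', hc0, pow_zero, mul_one, abs_of_pos (by positivity), add_comm]
    congr 1
    refine Finset.sum_congr rfl fun j _ => ?_
    rw [abs_of_nonneg (bc_nonneg (hbl (j + 1)))]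
  have hR : nrmr (r * A) (M + 1) (PowerSeries.mk Rz) ≤ 2 * (1 + 8 * (r * A)) := by
    refine le_trans (le_of_eq ?_) (Rz_sum hx hx2 (M + 1))
    unfold nrmr
    refine Finset.sum_congr rfl fun j _ => ?_
    rw [coeff_mk, abs_of_nonneg (Rz_nonneg j)]
  have hpow : nrmr (r * A) (M + 1) ((PowerSeries.mk Rz) ^ P.card) ≤
      2 ^ P.card * (1 + 8 * (r * A)) ^ P.card := by
    refine (nrmr_pow_le hx (M + 1) P.card _).trans ?_
    rw [← mul_pow]
    exact pow_le_pow_left₀ (nrmr_nonneg hx _ _) hR _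
  have hexp : (1 + 8 * (r * A)) ^ P.card ≤ 11 / 10 := by
    have h1 : (1 + 8 * (r * A)) ^ P.card ≤ Real.exp (8 * (r * A)) ^ P.card := by
      refine pow_le_pow_left₀ (by positivity) ?_ _
      have := Real.add_one_le_exp (8 * (r * A))
      linarith
    have h2 : Real.exp (8 * (r * A)) ^ P.card = Real.exp (8 * (r * A) * P.card) := by
      rw [← Real.exp_nat_mul]
      ring_nf
    have h3 : Real.exp (8 * (r * A) * P.card) ≤ Real.exp (4 / 45) := Real.exp_le_exp.2 hxg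
    have h4 : Real.exp (4 / 45) ≤ 11 / 10 := by
      have h5 := Real.add_one_le_exp (-(4 / 45 : ℝ))
      have h6 : Real.exp (4 / 45) * Real.exp (-(4 / 45)) = 1 := by
        rw [← Real.exp_add]
        simp
      have h7 := Real.exp_pos (4 / 45 : ℝ)
      nlinarith
    rw [h2] at h1
    linarith
  have hsum : (∑ j ∈ Finset.range M, |coeff (j + 1) F| * r ^ (j + 1)) * 2 ^ P.card ≤
      δ * ∑ j ∈ Finset.range M,
        coeff (j + 1) ((PowerSeries.mk Rz) ^ P.card) * (r * A) ^ (j + 1) := by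
    rw [Finset.sum_mul, Finset.mul_sum]
    refine Finset.sum_le_sum fun j _ => ?_
    have h1 := mul_le_mul_of_nonneg_right (hev (j + 1)) (pow_nonneg hr (j + 1))
    calc |coeff (j + 1) F| * r ^ (j + 1) * 2 ^ P.card =
          |coeff (j + 1) F| * 2 ^ P.card * r ^ (j + 1) := by ring
      _ ≤ coeff (j + 1) ((PowerSeries.mk Rz) ^ P.card) * (A ^ (j + 1) * δ) * r ^ (j + 1) := h1
      _ = _ := by
        rw [mul_pow]
        ring
  rw [hn]
  have h2g : (0 : ℝ) < 2 ^ P.card := by positivity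
  have h8 : ∑ j ∈ Finset.range M,
      coeff (j + 1) ((PowerSeries.mk Rz) ^ P.card) * (r * A) ^ (j + 1) ≤ 2 ^ P.card / 10 := by
    have h9 : (2 : ℝ) ^ P.card * (1 + 8 * (r * A)) ^ P.card ≤ 2 ^ P.card * (11 / 10) :=
      mul_le_mul_of_nonneg_left hexp h2g.le
    rw [hnr] at hpow
    linarith
  have h10 := hsum.trans (mul_le_mul_of_nonneg_left h8 hδ)
  have h11 : (∑ j ∈ Finset.range M, |coeff (j + 1) F| * r ^ (j + 1)) * 2 ^ P.card ≤
      δ / 10 * 2 ^ P.card := by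
    refine h10.trans (le_of_eq ?_)
    ring
  exact le_of_mul_le_mul_right h11 h2g

end Pool.Agent.Ppr3
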