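import Pool.Agent.Ppr3.Plat

/-!
# A shortest word with `k` sums

By `nz_nil` and `nz_step` (induction on `k`) there is `w` with `NZ ψ w`, `k ≤ w.count false`,
`w.length ≤ k (3 L + 1)`. Take such a `w` of minimal length (`Nat.find` on the lengths). If `NZ ψ
w'`, `w'.length = w.length` and `k + 1 ≤ w'.count false`, then `w' ≠ []`, `w' = w'' ++ [d]`
(`List.eq_nil_or_concat` or `w'.dropLast`), `NZ ψ w''` (`nz_trunc`), `k ≤ w''.count false`,
`w''` is shorter: a contradiction. For `w' = w`: `w.count false = k`.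
-/

namespace Pool.Agent.Ppr3

open Pool.Agent.Ppr Pool.Agent.Ppr2

variable {m : ℕ} (ψ : (Fin m → Bool) → Bool)

theorem exists_max_word (hm : 1 ≤ m) (hψ : ∃ x y, ψ x ≠ ψ y) {L : ℕ} (hU : Unf ψ L)
    (hβ : img ψ (fun _ => true) 0 ≠ img ψ (fun _ => false) 0) (k : ℕ) :
    ∃ w, NZ ψ w ∧ w.count false = k ∧ w.length ≤ k * (3 * L + 1) ∧
      ∀ w', NZ ψ w' → w'.length = w.length → w'.count false ≤ k := by
  classical
  have hex : ∀ k : ℕ, ∃ w, NZ ψ w ∧ k ≤ w.count false ∧ w.length ≤ k * (3 * L + 1) := by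
    intro k
    induction k with
    | zero => exact ⟨[], nz_nil ψ hm hψ, Nat.zero_le _, Nat.zero_le _⟩
    | succ k ih =>
      obtain ⟨w, h1, h2, h3⟩ := ih
      obtain ⟨w', h4, h5, h6⟩ := nz_step ψ hm hU hβ h1
      refine ⟨w', h4, by omega, ?_⟩
      rw [Nat.succ_mul]
      omega
  have hP : ∃ n, ∃ w, NZ ψ w ∧ k ≤ w.count false ∧ w.length = n := by
    obtain ⟨w, h1, h2, _⟩ := hex k
    exact ⟨_, w, h1, h2, rfl⟩
  obtain ⟨w, h1, h2, h3⟩ := Nat.find_spec hP
  have hmin : ∀ v, NZ ψ v → k ≤ v.count false → w.length ≤ v.length := by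
    intro v hv hk
    rw [h3]
    exact Nat.find_min' hP ⟨v, hv, hk, rfl⟩
  have hmax : ∀ w', NZ ψ w' → w'.length = w.length → w'.count false ≤ k := by
    intro w' h4 h5
    by_contra h6
    push Not at h6
    rcases List.eq_nil_or_concat w' with h7 | ⟨w'', d, h7⟩
    · rw [h7] at h6
      simp at h6
    · rw [h7, List.concat_eq_append] at h4 h5 h6
      have h8 := hmin w'' (nz_trunc ψ h4) (by
        rw [List.count_append, List.count_singleton] at h6
        split_ifs at h6 <;> omega)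
      rw [List.length_append, List.length_singleton] at h5
      omega
  refine ⟨w, h1, le_antisymm (hmax w h1 rfl) h2, ?_, hmax⟩
  obtain ⟨v, hv1, hv2, hv3⟩ := hex k
  exact (hmin v hv1 hv2).trans hv3

end Pool.Agent.Ppr3
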