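import Pool.Agent.Ppr3.SmA

/-!
# Second moments

`pair_step`: `c i (Fb b p) = (sum)/2 + sg b * c (i+1) p` by `hD`, and the sums agree by `hP`.
`mom`: induction on `n`. `n = 0`: ring. Step: `Sm ψ (n+1) g u = ∑_b Sm ψ n g (Fb ψ b u)`; the
induction hypothesis for the pairs `Fb b u, Fb b u'` (`pr_Fb`), and
`c (i+n) (Fb b u) - c (i+n) (Fb b u') = sg b * (c (i+n+1) u - c (i+n+1) u')` (`pair_step`),
`c (i+n) (Fb true u) - c (i+n) (Fb false u) = 2 c (i+n+1) u`.
`pm`: by `Unf` the two sums of squares are equal, so `δ (δ - 2 c) = 0` with `c = c k u`,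
`δ = c k u - c k u'`, `k = i + L`.
-/

namespace Pool.Agent.Ppr3

open Pool.Agent.Ppr Pool.Agent.Ppr2

variable {m : ℕ} {ψ : (Fin m → Bool) → Bool} {c : ℕ → (ℕ → Bool) → ℝ} {j : ℕ}

theorem pair_step
    (hD : ∀ i < j, ∀ z, c i (Fb ψ true z) - c i (Fb ψ false z) = 2 * c (i + 1) z)
    (hP : ∀ i < j, ∀ u u', Pr ψ u u' →
      c i (Fb ψ true u) + c i (Fb ψ false u) = c i (Fb ψ true u') + c i (Fb ψ false u'))
    {i : ℕ} (hi : i < j) {u u' : ℕ → Bool} (h : Pr ψ u u') (b : Bool) :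
    c i (Fb ψ b u) - c i (Fb ψ b u') = (sg b : ℝ) * (c (i + 1) u - c (i + 1) u') := by
  have h1 := hD i hi u
  have h2 := hD i hi u'
  have h3 := hP i hi u u' h
  cases b
  · have e : (sg false : ℝ) = -1 := by simp [sg]
    rw [e]
    linarith
  · have e : (sg true : ℝ) = 1 := by simp [sg]
    rw [e]
    linarith

theorem mom
    (hD : ∀ i < j, ∀ z, c i (Fb ψ true z) - c i (Fb ψ false z) = 2 * c (i + 1) z)
    (hP : ∀ i < j, ∀ u u', Pr ψ u u' →
      c i (Fb ψ true u) + c i (Fb ψ false u) = c i (Fb ψ true u') + c i (Fb ψ false u'))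
    (n : ℕ) : ∀ i, i + n ≤ j → ∀ u u', Pr ψ u u' →
      Sm ψ n (fun z => c i z ^ 2) u' = Sm ψ n (fun z => c i z ^ 2) u -
        2 * 2 ^ n * ((c (i + n) u - c (i + n) u') * c (i + n) u) +
        2 ^ n * (c (i + n) u - c (i + n) u') ^ 2 := by
  induction n with
  | zero =>
    intro i _ u u' _
    show c i u' ^ 2 = c i u ^ 2 - 2 * 2 ^ 0 * ((c i u - c i u') * c i u) +
      2 ^ 0 * (c i u - c i u') ^ 2
    ring
  | succ n ih =>
    intro i hi u u' h
    have hT := ih i (by omega) _ _ (pr_Fb ψ h true)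
    have hF := ih i (by omega) _ _ (pr_Fb ψ h false)
    have eT := pair_step hD hP (i := i + n) (by omega) h true
    have eF := pair_step hD hP (i := i + n) (by omega) h false
    have hd := hD (i + n) (by omega) u
    rw [eT] at hT
    rw [eF] at hF
    have e1 : (sg true : ℝ) = 1 := by simp [sg]
    have e2 : (sg false : ℝ) = -1 := by simp [sg]
    rw [e1] at hT
    rw [e2] at hF
    show Sm ψ n (fun z => c i z ^ 2) (Fb ψ true u') + Sm ψ n (fun z => c i z ^ 2) (Fb ψ false u') =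
      (Sm ψ n (fun z => c i z ^ 2) (Fb ψ true u) + Sm ψ n (fun z => c i z ^ 2) (Fb ψ false u)) -
        2 * 2 ^ (n + 1) * ((c (i + n + 1) u - c (i + n + 1) u') * c (i + n + 1) u) +
        2 ^ (n + 1) * (c (i + n + 1) u - c (i + n + 1) u') ^ 2
    rw [hT, hF]
    have hd' : c (i + n) (Fb ψ true u) = c (i + n) (Fb ψ false u) + 2 * c (i + n + 1) u := by
      linarith
    rw [hd']
    ring

theorem pm {L : ℕ} (hU : Unf ψ L) (hS : ∀ i, Stf ψ (c i))
    (hD : ∀ i < j, ∀ z, c i (Fb ψ true z) - c i (Fb ψ false z) = 2 * c (i + 1) z)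
    (hP : ∀ i < j, ∀ u u', Pr ψ u u' →
      c i (Fb ψ true u) + c i (Fb ψ false u) = c i (Fb ψ true u') + c i (Fb ψ false u'))
    {k : ℕ} (hk : L ≤ k) (hkj : k ≤ j) {u u' : ℕ → Bool} (h : Pr ψ u u') :
    c k u' = c k u ∨ c k u' = -c k u := by
  obtain ⟨i, rfl⟩ : ∃ i, k = i + L := ⟨k - L, by omega⟩
  have h1 := mom hD hP L i hkj u u' h
  have hs : Stf ψ (fun z => c i z ^ 2) := by
    intro z z' hz
    show c i z ^ 2 = c i z' ^ 2
    rw [hS i z z' hz]
  have h2 := hU (fun z => c i z ^ 2) hs u u'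
  rw [← h2] at h1
  have hp : (2 : ℝ) ^ L ≠ 0 := by positivity
  have h3 : (2 : ℝ) ^ L * ((c (i + L) u - c (i + L) u') * (c (i + L) u' + c (i + L) u)) = 0 := by
    linarith
  have h4 := (mul_eq_zero.1 h3).resolve_left hp
  rcases mul_eq_zero.1 h4 with h5 | h5
  · left
    linarith
  · right
    linarith

end Pool.Agent.Ppr3
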