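import Pool.Agent.Ppr3.CoreP
import Pool.Agent.Ppr.Hed

/-!
# Words in the operators with many sums

`op_append`: `Op ψ (w ++ w') g = Op ψ w' (Op ψ w g)`. `nz_nil`: `collision` gives `u ≠ u'` with the
same image; if `u k ≠ u' k` then `ψ` differs at the windows of `sh^[k+1] u`, `sh^[k+1] u'` (equal
image letters at `k`), so these words are not `Eqv` (`eqv_psi`); `g` = the indicator function of
the class of `sh^[k+1] u`. `nz_trunc`: `Tw ψ d g v ≠ Tw ψ d g v'` gives
`g (Fb b v) ≠ g (Fb b v')` for some `b`.
`nz_step`: suppose that there is no such `w'`. Let `g, u, u'` be as in `NZ ψ w`,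
`c i z = (1/2)^i * Op ψ (w ++ replicate i true) g z`. `hD` holds for all `i` and `hP` for
`i < 3 L + 1`, because `w ++ replicate i true ++ [false]` has length `≤ w.length + (3 L + 1)` and
one more `false`, so it is not `NZ`. By `pair_step` and `Fb_img_sh`,
`c i (sh^[i] u) ≠ c i (sh^[i] u')` for all `i ≤ 3 L + 1` by induction. Apply `plat_core`.
-/

namespace Pool.Agent.Ppr3

open Pool.Agent.Ppr Pool.Agent.Ppr2

variable {m : ℕ} (ψ : (Fin m → Bool) → Bool)

theorem op_append (w w' : List Bool) (g : (ℕ → Bool) → ℝ) :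
    Op ψ (w ++ w') g = Op ψ w' (Op ψ w g) := by
  induction w generalizing g with
  | nil => rfl
  | cons d w ih => exact ih (Tw ψ d g)

theorem nz_nil (hm : 1 ≤ m) (hψ : ∃ x y, ψ x ≠ ψ y) : NZ ψ [] := by
  obtain ⟨-, -, -, u, u', -, -, hne, himg⟩ := collision ψ hψ
  obtain ⟨k, hk⟩ := Function.ne_iff.1 hne
  have h1 : ¬ Eqv ψ (sh^[k + 1] u) (sh^[k + 1] u') := by
    intro h
    have h2 := eqv_psi ψ hm h
    have h3 : ∀ v : ℕ → Bool, (fun i : Fin m => (sh^[k + 1] v) i.1) =
        fun i : Fin m => v (k + 1 + i.1) := by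
      intro v
      funext i
      have key : ∀ (n j : ℕ) (v : ℕ → Bool), (sh^[n] v) j = v (n + j) := by
        intro n
        induction n with
        | zero => intro j v; simp
        | succ n ih =>
          intro j v
          rw [Function.iterate_succ_apply, ih]
          show v (n + j + 1) = _
          congr 1
          omega
      exact key _ _ _
    rw [h3, h3] at h2
    have h4 := himg k
    unfold img at h4
    rw [h2] at h4
    apply hk
    revert h4
    cases u k <;> cases u' k <;> cases ψ (fun i : Fin m => u' (k + 1 + i.1)) <;> simp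
  obtain ⟨g, hg, hg1, hg0⟩ := exists_ind ψ (sh^[k + 1] u)
  refine ⟨g, sh^[k + 1] u, sh^[k + 1] u', hg, fun i => ?_, ?_⟩
  · rw [img_sh_iter, img_sh_iter]
    exact himg _
  · show g _ ≠ g _
    rw [hg1 _ (fun _ _ _ => rfl), hg0 _ h1]
    exact one_ne_zero

theorem nz_trunc {w : List Bool} {d : Bool} (h : NZ ψ (w ++ [d])) : NZ ψ w := by
  obtain ⟨g, u, u', hg, hu, hne⟩ := h
  rw [op_append] at hne
  have h1 : ∃ b, Op ψ w g (Fb ψ b u) ≠ Op ψ w g (Fb ψ b u') := by
    by_contra hcon
    push Not at hcon
    apply hne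
    show Tw ψ d (Op ψ w g) u = Tw ψ d (Op ψ w g) u'
    unfold Tw
    rw [hcon true, hcon false]
  obtain ⟨b, hb⟩ := h1
  exact ⟨g, _, _, hg, pr_Fb ψ hu b, hb⟩

theorem nz_step (hm : 1 ≤ m) {L : ℕ} (hU : Unf ψ L)
    (hβ : img ψ (fun _ => true) 0 ≠ img ψ (fun _ => false) 0) {w : List Bool} (h : NZ ψ w) :
    ∃ w', NZ ψ w' ∧ w'.length ≤ w.length + (3 * L + 1) ∧
      w.count false + 1 ≤ w'.count false := by
  by_contra hcon
  push Not at hcon
  obtain ⟨g, u, u', hg, hu, hne⟩ := h
  set c : ℕ → (ℕ → Bool) → ℝ :=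
    fun i z => (1 / 2) ^ i * Op ψ (w ++ List.replicate i true) g z with hc
  have hrep : ∀ i, w ++ List.replicate (i + 1) true = (w ++ List.replicate i true) ++ [true] := by
    intro i
    rw [List.replicate_succ', List.append_assoc]
  have hS : ∀ i, Stf ψ (c i) := by
    intro i z z' hz
    show _ * _ = _ * _
    rw [stf_Op ψ hm (w ++ List.replicate i true) hg z z' hz]
  have hD : ∀ i < 3 * L + 1, ∀ z,
      c i (Fb ψ true z) - c i (Fb ψ false z) = 2 * c (i + 1) z := by
    intro i _ z
    have h1 : Op ψ (w ++ List.replicate (i + 1) true) g z =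
        Op ψ (w ++ List.replicate i true) g (Fb ψ true z) -
          Op ψ (w ++ List.replicate i true) g (Fb ψ false z) := by
      rw [hrep, op_append]
      show Tw ψ true _ z = _
      simp [Tw]
    show (1 / 2) ^ i * _ - (1 / 2) ^ i * _ = 2 * ((1 / 2) ^ (i + 1) * _)
    rw [h1, pow_succ]
    ring
  have hP : ∀ i < 3 * L + 1, ∀ u u', Pr ψ u u' →
      c i (Fb ψ true u) + c i (Fb ψ false u) = c i (Fb ψ true u') + c i (Fb ψ false u') := by
    intro i hi v v' hv
    have h1 : Op ψ (w ++ List.replicate i true ++ [false]) g v =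
        Op ψ (w ++ List.replicate i true ++ [false]) g v' := by
      by_contra h2
      have h3 := hcon (w ++ List.replicate i true ++ [false]) ⟨g, v, v', hg, hv, h2⟩ (by
        rw [List.length_append, List.length_append, List.length_replicate]
        simp only [List.length_singleton]
        omega)
      rw [List.count_append, List.count_append] at h3
      simp at h3
    have h2 : ∀ y, Op ψ (w ++ List.replicate i true ++ [false]) g y =
        Op ψ (w ++ List.replicate i true) g (Fb ψ true y) +
          Op ψ (w ++ List.replicate i true) g (Fb ψ false y) := by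
      intro y
      rw [op_append]
      show Tw ψ false _ y = _
      simp [Tw]
    rw [h2, h2] at h1
    show (1 / 2) ^ i * _ + (1 / 2) ^ i * _ = (1 / 2) ^ i * _ + (1 / 2) ^ i * _
    rw [← mul_add, ← mul_add, h1]
  have hpr : ∀ i, Pr ψ (sh^[i] u) (sh^[i] u') := by
    intro i k
    rw [img_sh_iter, img_sh_iter]
    exact hu _
  have hneq : ∀ i, i ≤ 3 * L + 1 → c i (sh^[i] u) ≠ c i (sh^[i] u') := by
    intro i
    induction i with
    | zero =>
      intro _
      simpa [hc] using hne
    | succ i ih =>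
      intro hi h1
      apply ih (by omega)
      have h2 := pair_step hD hP (i := i) (by omega) (hpr (i + 1)) (img ψ (sh^[i] u) 0)
      rw [h1, sub_self, mul_zero, Function.iterate_succ_apply', Function.iterate_succ_apply'] at h2
      rw [Fb_img_sh] at h2
      rw [hpr i 0, Fb_img_sh] at h2
      exact sub_eq_zero.1 h2
  exact hβ (plat_core hm hU hS hD hP rfl (hpr _) (hneq _ le_rfl))

end Pool.Agent.Ppr3
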