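import Pool.Agent.Ppr3.StB
import Pool.Agent.Ppr2.ResA

/-!
# Sums over all image words, covering

`sm_eq`: induction on `n` (all `z`): `∑ ξ : Fin (n+1) → Bool, g (appF ξ z) =
∑ c, ∑ ξ : Fin n → Bool, g (appF ξ (cons c z))` (split off the last letter, `Fin.snocEquiv`, or
`appF (Fin.snoc ξ c) z = appF ξ (cons c z)`), and `cons_sum` for the function `Sm ψ n g`.
`sm_pos`: if `g ≥ 0` and `g (Fl ψ l z) > 0` for one list `l` of length `n` then `Sm ψ n g z > 0`;
`sm_zero`: if `g (Fl ψ l z) = 0` for all `l` of length `n` then `Sm ψ n g z = 0` (induction on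
`n`, split off the last letter of the list: `l = l' ++ [b]`, `Fl ψ (l' ++ [b]) z =
Fl ψ l' (Fb ψ b z)`).
`cover`: for `t = n`: let `g` be the indicator function of the class of `z` (`exists_ind`). By
`exists_Fl`, `z = Fl ψ l0 (sh^[n] z)` with `|l0| = n`, so `Sm ψ n g (sh^[n] z) > 0`, hence
`Sm ψ n g q > 0` by `Unf`, and some `l` has `g (Fl ψ l q) ≠ 0`. For `t ≥ n` apply this with
`Fl ψ l' q`, `l'` any list of length `t - n`.
-/

namespace Pool.Agent.Ppr3

open Pool.Agent.Ppr Pool.Agent.Ppr2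

variable {m : ℕ} (ψ : (Fin m → Bool) → Bool)

theorem appF_snoc {n : ℕ} (ξ : Fin n → Bool) (c : Bool) (z : ℕ → Bool) :
    appF (Fin.snoc ξ c : Fin (n + 1) → Bool) z = appF ξ (cons c z) := by
  funext k
  unfold appF
  rcases lt_trichotomy k n with h | h | h
  · rw [dif_pos (Nat.lt_succ_of_lt h), dif_pos h]
    exact Fin.snoc_castSucc (α := fun _ => Bool) c ξ ⟨k, h⟩
  · subst h
    rw [dif_pos (Nat.lt_succ_self k), dif_neg (lt_irrefl k)]
    unfold cons
    rw [if_pos (Nat.sub_self k)]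
    exact Fin.snoc_last (α := fun _ => Bool) c ξ
  · rw [dif_neg (by omega), dif_neg (by omega)]
    unfold cons
    rw [if_neg (by omega)]
    congr 1

private theorem appF_zero_SmA (ξ : Fin 0 → Bool) (z : ℕ → Bool) : appF ξ z = z := by
  funext k
  unfold appF
  rw [dif_neg (Nat.not_lt_zero k), Nat.sub_zero]

theorem sm_eq (n : ℕ) (g : (ℕ → Bool) → ℝ) (z : ℕ → Bool) :
    Sm ψ n g z = ∑ ξ : Fin n → Bool, g (appF ξ z) := by
  induction n generalizing z with
  | zero =>
    show g z = _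
    rw [Fintype.sum_unique, appF_zero_SmA]
  | succ n ih =>
    show Sm ψ n g (Fb ψ true z) + Sm ψ n g (Fb ψ false z) = _
    rw [← cons_sum ψ (Sm ψ n g) z, ih, ih,
      ← Fintype.sum_equiv (Fin.snocEquiv fun _ : Fin (n + 1) => Bool)
        (fun q : Bool × (Fin n → Bool) => g (appF q.2 (cons q.1 z)))
        (fun ξ : Fin (n + 1) → Bool => g (appF ξ z))
        (fun q => congrArg g (appF_snoc q.2 q.1 z).symm),
      Fintype.sum_prod_type, Fintype.sum_bool]

private theorem sm_pos_SmA (n : ℕ) {g : (ℕ → Bool) → ℝ} (hg : ∀ y, 0 ≤ g y) (z : ℕ → Bool) :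
    0 ≤ Sm ψ n g z := by
  induction n generalizing z with
  | zero => exact hg z
  | succ n ih => exact add_nonneg (ih _) (ih _)

private theorem sm_pos'_SmA (n : ℕ) {g : (ℕ → Bool) → ℝ} (hg : ∀ y, 0 ≤ g y) (l : List Bool)
    (hl : l.length = n) (z : ℕ → Bool) (h : 0 < g (Fl ψ l z)) : 0 < Sm ψ n g z := by
  induction n generalizing z l with
  | zero =>
    have h1 : l = [] := List.length_eq_zero_iff.1 hl
    subst h1
    exact h
  | succ n ih =>
    obtain ⟨l', b, rfl⟩ : ∃ l' b, l = l' ++ [b] := by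
      rcases List.eq_nil_or_concat l with h1 | ⟨l', b, h1⟩
      · subst h1
        simp at hl
      · exact ⟨l', b, by rw [h1, List.concat_eq_append]⟩
    have hl' : l'.length = n := by
      rw [List.length_append, List.length_singleton] at hl
      omega
    rw [Fl_append] at h
    have h2 : 0 < Sm ψ n g (Fb ψ b z) := ih l' hl' (Fb ψ b z) h
    show 0 < Sm ψ n g (Fb ψ true z) + Sm ψ n g (Fb ψ false z)
    cases b
    · exact add_pos_of_nonneg_of_pos (sm_pos_SmA ψ n hg _) h2
    · exact add_pos_of_pos_of_nonneg h2 (sm_pos_SmA ψ n hg _)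

private theorem sm_zero_SmA (n : ℕ) {g : (ℕ → Bool) → ℝ} (z : ℕ → Bool)
    (h : ∀ l : List Bool, l.length = n → g (Fl ψ l z) = 0) : Sm ψ n g z = 0 := by
  induction n generalizing z with
  | zero => exact h [] rfl
  | succ n ih =>
    have h1 : ∀ b, Sm ψ n g (Fb ψ b z) = 0 := by
      intro b
      refine ih (Fb ψ b z) fun l hl => ?_
      have h2 := h (l ++ [b]) (by rw [List.length_append, List.length_singleton, hl])
      rw [Fl_append] at h2
      exact h2
    show Sm ψ n g (Fb ψ true z) + Sm ψ n g (Fb ψ false z) = 0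
    rw [h1, h1, add_zero]

private theorem cover_eq_SmA {n : ℕ} (hU : Unf ψ n) (z q : ℕ → Bool) :
    ∃ l : List Bool, l.length = n ∧ Eqv ψ z (Fl ψ l q) := by
  obtain ⟨g, hg, hg1, hg0⟩ := exists_ind ψ z
  have hgn : ∀ y, 0 ≤ g y := by
    intro y
    by_cases h : Eqv ψ z y
    · rw [hg1 y h]
      exact zero_le_one
    · rw [hg0 y h]
  obtain ⟨l0, hl0, h0⟩ := exists_Fl ψ z n
  have h1 : 0 < Sm ψ n g (sh^[n] z) := by
    refine sm_pos'_SmA ψ n hgn l0 hl0 _ ?_
    rw [h0, hg1 z fun x _ _ => rfl]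
    exact zero_lt_one
  rw [hU g hg (sh^[n] z) q] at h1
  by_contra hc
  push Not at hc
  exact absurd (sm_zero_SmA ψ n q fun l hl => hg0 _ (hc l hl)) h1.ne'

theorem cover {n : ℕ} (hU : Unf ψ n) {t : ℕ} (ht : n ≤ t) (z q : ℕ → Bool) :
    ∃ l : List Bool, l.length = t ∧ Eqv ψ z (Fl ψ l q) := by
  obtain ⟨l, hl, h⟩ := cover_eq_SmA ψ hU z (Fl ψ (List.replicate (t - n) true) q)
  refine ⟨l ++ List.replicate (t - n) true, ?_, ?_⟩
  · rw [List.length_append, List.length_replicate, hl]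
    omega
  · rw [Fl_append]
    exact h

end Pool.Agent.Ppr3
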