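import Pool.Agent.Ppr3.Defs

/-!
# Words with a given image letter in front

All by unfolding: `img ψ v k = xor (v k) (ψ fun i => v (k + 1 + i))` and
`Fb ψ b z = cons (xor b (ψ z)) z`. `Fb_img_sh`: the head of `u` is
`xor (img ψ u 0) (ψ (sh u))`. `cons_sum`: `c ↦ xor c (ψ z)` is a bijection of the two letters.
-/

namespace Pool.Agent.Ppr3

open Pool.Agent.Ppr Pool.Agent.Ppr2

variable {m : ℕ} (ψ : (Fin m → Bool) → Bool)

theorem sh_cons (c : Bool) (z : ℕ → Bool) : sh (cons c z) = z := by
  funext k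
  simp [sh, cons]

theorem sh_Fb (b : Bool) (z : ℕ → Bool) : sh (Fb ψ b z) = z := by
  exact sh_cons _ _

theorem img_Fb_zero (b : Bool) (z : ℕ → Bool) : img ψ (Fb ψ b z) 0 = b := by
  have h1 : (fun i : Fin m => Fb ψ b z (0 + 1 + i.1)) = fun i : Fin m => z i.1 := by
    funext i
    unfold Fb cons
    rw [if_neg (by omega)]
    congr 1
    omega
  unfold img
  rw [h1]
  unfold Fb cons
  rw [if_pos rfl]
  cases b <;> cases (ψ fun i => z i.1) <;> rfl

theorem img_Fb_succ (b : Bool) (z : ℕ → Bool) (k : ℕ) : img ψ (Fb ψ b z) (k + 1) = img ψ z k := by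
  have h1 : (fun i : Fin m => Fb ψ b z (k + 1 + 1 + i.1)) =
      fun i : Fin m => z (k + 1 + i.1) := by
    funext i
    unfold Fb cons
    rw [if_neg (by omega)]
    congr 1
    omega
  have h2 : Fb ψ b z (k + 1) = z k := by
    unfold Fb cons
    rw [if_neg (by omega)]
    congr 1
  unfold img
  rw [h1, h2]

theorem img_sh (u : ℕ → Bool) (k : ℕ) : img ψ (sh u) k = img ψ u (k + 1) := by
  have h1 : (fun i : Fin m => sh u (k + 1 + i.1)) =
      fun i : Fin m => u (k + 1 + 1 + i.1) := by
    funext i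
    unfold sh
    congr 1
    omega
  unfold img
  rw [h1]
  rfl

theorem img_sh_iter (u : ℕ → Bool) (h k : ℕ) : img ψ (sh^[h] u) k = img ψ u (h + k) := by
  induction h generalizing u with
  | zero => rw [Function.iterate_zero, id, zero_add]
  | succ h ih =>
    rw [Function.iterate_succ, Function.comp_apply, ih, img_sh]
    congr 1
    omega

theorem Fb_img_sh (u : ℕ → Bool) : Fb ψ (img ψ u 0) (sh u) = u := by
  funext k
  rcases Nat.eq_zero_or_pos k with rfl | hk
  · have h1 : (fun i : Fin m => sh u i.1) = fun i : Fin m => u (0 + 1 + i.1) := by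
      funext i
      unfold sh
      congr 1
      omega
    unfold Fb cons
    rw [if_pos rfl, h1]
    unfold img
    cases u 0 <;> cases (ψ fun i => u (0 + 1 + i.1)) <;> rfl
  · unfold Fb cons
    rw [if_neg (by omega)]
    unfold sh
    congr 1
    omega

theorem pr_Fb {u u' : ℕ → Bool} (h : Pr ψ u u') (b : Bool) : Pr ψ (Fb ψ b u) (Fb ψ b u') := by
  intro k
  cases k with
  | zero => rw [img_Fb_zero, img_Fb_zero]
  | succ k => rw [img_Fb_succ, img_Fb_succ]; exact h k

theorem pr_Fl {u u' : ℕ → Bool} (h : Pr ψ u u') (l : List Bool) :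
    Pr ψ (Fl ψ l u) (Fl ψ l u') := by
  induction l with
  | nil => exact h
  | cons b l ih => exact pr_Fb ψ ih b

theorem pr_sh {u u' : ℕ → Bool} (h : Pr ψ u u') : Pr ψ (sh u) (sh u') := by
  intro k
  rw [img_sh, img_sh]
  exact h (k + 1)

theorem Fl_append (l l' : List Bool) (z : ℕ → Bool) : Fl ψ (l ++ l') z = Fl ψ l (Fl ψ l' z) := by
  induction l with
  | nil => rfl
  | cons b l ih => exact congrArg (Fb ψ b) ih

theorem cons_sum (g : (ℕ → Bool) → ℝ) (z : ℕ → Bool) :
    g (cons true z) + g (cons false z) = g (Fb ψ true z) + g (Fb ψ false z) := by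
  unfold Fb
  cases (ψ fun i => z i.1)
  · rfl
  · exact add_comm _ _

/-- every word is `Fl` of its image letters in front of its shift -/
theorem exists_Fl (z : ℕ → Bool) (n : ℕ) : ∃ l : List Bool, l.length = n ∧
    Fl ψ l (sh^[n] z) = z := by
  induction n generalizing z with
  | zero => exact ⟨[], rfl, rfl⟩
  | succ n ih =>
    obtain ⟨l, hl, h⟩ := ih (sh z)
    refine ⟨img ψ z 0 :: l, by rw [List.length_cons, hl], ?_⟩
    rw [Function.iterate_succ, Function.comp_apply]
    show Fb ψ (img ψ z 0) (Fl ψ l (sh^[n] (sh z))) = z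
    rw [h]
    exact Fb_img_sh ψ z

end Pool.Agent.Ppr3
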