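import Pool.Agent.Ppr3.StA
import Pool.Agent.Ppr2.Res

/-!
# Residuals

`img ψ v 0` depends on `v 0, …, v m` only; for `1 ≤ |x| ≤ m` the letters `0, …, m` of `app x z`
are those of `x` and `z 0, …, z (m - |x|)`, so `phi ψ (x, 0) z` depends on `z 0, …, z (m-1)` only
(`eqv_win`). `phi ψ (x, 0) (cons c z) = phi ψ (x ++ [c], 0) z`; if `|x| = m` the left side does not
depend on `z` (`eqv_cons`). `phi ψ ([true], 0) z = xor true (ψ z)`, so `Eqv` words have the same
`ψ` (`eqv_psi`, `m ≥ 1`), which gives `eqv_Fb`. Private lemmas of this kind (for windows) are in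
`Ppr2/Res.lean`; copy them. The rest is immediate: the indicator function of a class is a function
of the residual.
-/

namespace Pool.Agent.Ppr3

open Pool.Agent.Ppr Pool.Agent.Ppr2

variable {m : ℕ} (ψ : (Fin m → Bool) → Bool)

private theorem app_snoc_StB (c : Bool) (z : ℕ → Bool) :
    ∀ x : List Bool, app (x ++ [c]) z = app x (cons c z)
  | [] => rfl
  | d :: x => by
    show cons d (app (x ++ [c]) z) = cons d (app x (cons c z))
    rw [app_snoc_StB c z x]

private theorem app_congr_StB {z z' : ℕ → Bool} :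
    ∀ (x : List Bool) (m : ℕ), (∀ k, k + x.length ≤ m → z k = z' k) →
      ∀ k, k ≤ m → app x z k = app x z' k
  | [], m, h, k, hk => h k hk
  | d :: x, m, h, k, hk => by
    show cons d (app x z) k = cons d (app x z') k
    unfold cons
    by_cases hk0 : k = 0
    · rw [if_pos hk0, if_pos hk0]
    · rw [if_neg hk0, if_neg hk0]
      refine app_congr_StB x (m - 1) (fun j hj => h j ?_) (k - 1) (by omega)
      rw [List.length_cons]
      omega

private theorem img_congr_StB {m : ℕ} (ψ : (Fin m → Bool) → Bool) {v v' : ℕ → Bool}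
    (h : ∀ k, k ≤ m → v k = v' k) : img ψ v 0 = img ψ v' 0 := by
  unfold img
  rw [h 0 (Nat.zero_le m)]
  congr 2
  funext i
  exact h _ (by have := i.2; omega)

private theorem phi_eq_StB {m : ℕ} (ψ : (Fin m → Bool) → Bool) (x : List Bool)
    (z : ℕ → Bool) : phi ψ (x, 0) z = img ψ (app x z) 0 := rfl

private theorem phi_true_StB {m : ℕ} (ψ : (Fin m → Bool) → Bool) (z : ℕ → Bool) :
    phi ψ ([true], 0) z = xor true (ψ fun i => z i.1) := by
  rw [phi_eq_StB]
  show xor (cons true z 0) (ψ (fun i => cons true z (0 + 1 + i.1))) = _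
  have h1 : cons true z 0 = true := rfl
  have h2 : (fun i : Fin m => cons true z (0 + 1 + i.1)) = fun i => z i.1 := by
    funext i
    unfold cons
    rw [if_neg (by omega)]
    congr 1
    omega
  rw [h1, h2]

theorem eqv_win {z z' : ℕ → Bool} (h : ∀ k < m, z k = z' k) : Eqv ψ z z' := by
  intro x h1 h2
  rw [phi_eq_StB, phi_eq_StB]
  exact img_congr_StB ψ fun k hk => app_congr_StB x m (fun j hj => h j (by omega)) k hk

theorem eqv_symm {z z' : ℕ → Bool} (h : Eqv ψ z z') : Eqv ψ z' z := by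
  exact fun x h1 h2 => (h x h1 h2).symm

theorem eqv_trans {z z' z'' : ℕ → Bool} (h : Eqv ψ z z') (h' : Eqv ψ z' z'') : Eqv ψ z z'' := by
  exact fun x h1 h2 => (h x h1 h2).trans (h' x h1 h2)

theorem eqv_psi (hm : 1 ≤ m) {z z' : ℕ → Bool} (h : Eqv ψ z z') :
    (ψ fun i => z i.1) = ψ fun i => z' i.1 := by
  have h1 := h [true] (by simp) (by simpa using hm)
  rw [phi_true_StB, phi_true_StB] at h1
  revert h1
  cases (ψ fun i => z i.1) <;> cases (ψ fun i => z' i.1) <;> simp

theorem eqv_cons {z z' : ℕ → Bool} (h : Eqv ψ z z') (c : Bool) :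
    Eqv ψ (cons c z) (cons c z') := by
  intro x h1 h2
  rcases Nat.lt_or_ge x.length m with h3 | h3
  · have h4 := h (x ++ [c]) (by rw [List.length_append]; omega)
      (by rw [List.length_append, List.length_singleton]; omega)
    rw [phi_eq_StB, phi_eq_StB, app_snoc_StB, app_snoc_StB] at h4
    rw [phi_eq_StB, phi_eq_StB]
    exact h4
  · rw [phi_eq_StB, phi_eq_StB]
    refine img_congr_StB ψ fun k hk => app_congr_StB x m (fun j hj => ?_) k hk
    have hj0 : j = 0 := by omega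
    subst hj0
    rfl

theorem eqv_Fb (hm : 1 ≤ m) {z z' : ℕ → Bool} (h : Eqv ψ z z') (b : Bool) :
    Eqv ψ (Fb ψ b z) (Fb ψ b z') := by
  unfold Fb
  rw [eqv_psi ψ hm h]
  exact eqv_cons ψ h _

theorem eqv_Fl (hm : 1 ≤ m) {z z' : ℕ → Bool} (h : Eqv ψ z z') (l : List Bool) :
    Eqv ψ (Fl ψ l z) (Fl ψ l z') := by
  induction l with
  | nil => exact h
  | cons b l ih => exact eqv_Fb ψ hm ih b

theorem stf_Tw (hm : 1 ≤ m) {g : (ℕ → Bool) → ℝ} (h : Stf ψ g) (d : Bool) :
    Stf ψ (Tw ψ d g) := by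
  intro z z' hz
  unfold Tw
  rw [h _ _ (eqv_Fb ψ hm hz true), h _ _ (eqv_Fb ψ hm hz false)]

theorem stf_Op (hm : 1 ≤ m) (w : List Bool) {g : (ℕ → Bool) → ℝ} (h : Stf ψ g) :
    Stf ψ (Op ψ w g) := by
  induction w generalizing g with
  | nil => exact h
  | cons d w ih => exact ih (stf_Tw ψ hm h d)

theorem stf_chi (Q : Finset (List Bool)) (hQ : ∀ x ∈ Q, 1 ≤ x.length ∧ x.length ≤ m) :
    Stf ψ (chi ψ Q) := by
  intro z z' hz
  unfold chi
  refine Finset.prod_congr rfl fun x hx => ?_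
  rw [hz x (hQ x hx).1 (hQ x hx).2]

/-- the indicator function of a class -/
theorem exists_ind (z : ℕ → Bool) : ∃ g : (ℕ → Bool) → ℝ, Stf ψ g ∧
    (∀ y, Eqv ψ z y → g y = 1) ∧ ∀ y, ¬ Eqv ψ z y → g y = 0 := by
  classical
  refine ⟨fun y => if Eqv ψ z y then 1 else 0, fun y y' h => ?_, fun y h => if_pos h,
    fun y h => if_neg h⟩
  have h1 : Eqv ψ z y ↔ Eqv ψ z y' :=
    ⟨fun h2 => eqv_trans ψ h2 h, fun h2 => eqv_trans ψ h2 (eqv_symm ψ h)⟩
  simp only [h1]

end Pool.Agent.Ppr3
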